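import Mathlib

open Filter Topology

namespace Pool.Agent.V11100

variable {𝕜 : Type*} [RCLike 𝕜]

/-- Rotating a vector: if the real part of a functional is at most `t` on the ball of radius `M`,
then `‖F‖ * M ≤ t`. -/
theorem opNorm_mul_le_of_re_le {V : Type*} [SeminormedAddCommGroup V] [NormedSpace 𝕜 V]
    (F : StrongDual 𝕜 V) {M t : ℝ} (hM : 0 ≤ M) (h : ∀ v : V, ‖v‖ ≤ M → RCLike.re (F v) ≤ t) :
    ‖F‖ * M ≤ t := by
  have ht : 0 ≤ t := by simpa using h 0 (by simpa using hM)
  have h1 : ∀ v : V, ‖v‖ ≤ M → ‖F v‖ ≤ t := by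
    intro v hv
    obtain ⟨c, hc1, hc2⟩ : ∃ c : 𝕜, ‖c‖ = 1 ∧ c * F v = (‖F v‖ : 𝕜) := by
      by_cases h0 : F v = 0
      · exact ⟨1, by simp, by simp [h0]⟩
      · refine ⟨(‖F v‖ : 𝕜) / F v, ?_, ?_⟩
        · rw [norm_div]; simp [h0]
        · field_simp
    have h2 := h (c • v) (by rw [norm_smul, hc1, one_mul]; exact hv)
    rw [map_smul, smul_eq_mul, hc2, RCLike.ofReal_re] at h2
    exact h2
  rcases hM.eq_or_lt with h0 | h0
  · rw [← h0, mul_zero]; exact ht
  · rw [← le_div_iff₀ h0]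
    apply F.opNorm_le_bound (by positivity)
    intro v
    rcases (norm_nonneg v).eq_or_lt with hv | hv
    · rw [← hv, mul_zero]
      have h3 := F.le_opNorm v
      rw [← hv, mul_zero] at h3
      exact h3
    · have h4 := h1 (((M / ‖v‖ : ℝ) : 𝕜) • v) (by
        rw [norm_smul, RCLike.norm_ofReal, abs_of_nonneg (by positivity)]
        rw [div_mul_cancel₀ _ hv.ne'])
      rw [map_smul, norm_smul, RCLike.norm_ofReal, abs_of_nonneg (by positivity)] at h4
      rw [div_mul_eq_mul_div, div_le_iff₀ hv] at h4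
      rw [div_mul_eq_mul_div, le_div_iff₀ h0]
      linarith

/-- Helly's lemma: approximate solvability of finitely many linear equations in a ball. -/
theorem helly_approx {V : Type*} [SeminormedAddCommGroup V] [NormedSpace 𝕜 V] {ι : Type*} [Fintype ι]
    (h : ι → StrongDual 𝕜 V) (a : ι → 𝕜) {M : ℝ} (hM : 0 ≤ M)
    (hyp : ∀ c : ι → 𝕜, ‖∑ i, c i * a i‖ ≤ M * ‖∑ i, c i • h i‖) {ε : ℝ} (hε : 0 < ε) :
    ∃ v : V, ‖v‖ ≤ M ∧ ∀ i, ‖h i v - a i‖ < ε := by
  classical
  let T : V →L[𝕜] (ι → 𝕜) := ContinuousLinearMap.pi h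
  let K : Set (ι → 𝕜) := closure (T '' Metric.closedBall 0 M)
  have hconv : Convex ℝ K := by
    apply Convex.closure
    intro p hp q hq s t hs ht hst
    obtain ⟨v, hv, rfl⟩ := hp
    obtain ⟨w, hw, rfl⟩ := hq
    refine ⟨(s : 𝕜) • v + (t : 𝕜) • w, ?_, ?_⟩
    · rw [mem_closedBall_zero_iff] at *
      calc ‖(s : 𝕜) • v + (t : 𝕜) • w‖ ≤ s * ‖v‖ + t * ‖w‖ := by
            refine (norm_add_le _ _).trans ?_
            rw [norm_smul, norm_smul, RCLike.norm_ofReal, RCLike.norm_ofReal, abs_of_nonneg hs,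
              abs_of_nonneg ht]
        _ ≤ s * M + t * M := by gcongr
        _ = M := by rw [← add_mul, hst, one_mul]
    · rw [map_add, map_smul, map_smul]
      congr 1
      · ext i; simp [RCLike.real_smul_eq_coe_mul]
      · ext i; simp [RCLike.real_smul_eq_coe_mul]
  have hmem : a ∈ K := by
    by_contra hcon
    obtain ⟨f, u, hf1, hf2⟩ := RCLike.geometric_hahn_banach_closed_point (𝕜 := 𝕜) hconv
      isClosed_closure hcon
    let c : ι → 𝕜 := fun i => f (Pi.single i 1)
    have hfc : ∀ y : ι → 𝕜, f y = ∑ i, c i * y i := by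
      intro y
      have : y = ∑ i, (y i) • (Pi.single i (1 : 𝕜) : ι → 𝕜) := by
        ext j
        simp [Finset.sum_apply, Pi.single_apply]
      conv_lhs => rw [this]
      rw [map_sum]
      refine Finset.sum_congr rfl (fun i _ => ?_)
      rw [map_smul, smul_eq_mul, mul_comm]
    have h1 : ‖∑ i, c i • h i‖ * M ≤ u := by
      apply opNorm_mul_le_of_re_le _ hM
      intro v hv
      have h2 : (∑ i, c i • h i) v = f (T v) := by
        rw [hfc]; simp [T]
      rw [h2]
      exact (hf1 _ (subset_closure ⟨v, by simpa using hv, rfl⟩)).le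
    have h3 : RCLike.re (f a) ≤ M * ‖∑ i, c i • h i‖ := by
      refine (RCLike.re_le_norm _).trans ?_
      rw [hfc]
      exact hyp c
    linarith
  rw [Metric.mem_closure_iff] at hmem
  obtain ⟨p, ⟨v, hv, rfl⟩, hp⟩ := hmem ε hε
  refine ⟨v, by simpa using hv, fun i => ?_⟩
  have h5 := dist_le_pi_dist a (T v) i
  rw [dist_comm, dist_eq_norm] at h5
  exact lt_of_le_of_lt h5 hp

/-- Half of the closed range theorem: if the adjoint is bounded below then the map is onto. -/
theorem surjective_of_dual_bound {E Z : Type*} [NormedAddCommGroup E] [NormedSpace 𝕜 E]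
    [CompleteSpace E] [NormedAddCommGroup Z] [NormedSpace 𝕜 Z] (u : E →L[𝕜] Z) {C : ℝ} (hC : 0 ≤ C)
    (h : ∀ ψ : StrongDual 𝕜 Z, ‖ψ‖ ≤ C * ‖ψ.comp u‖) : Function.Surjective u := by
  letI : NormedSpace ℝ Z := NormedSpace.restrictScalars ℝ 𝕜 Z
  haveI : IsScalarTower ℝ 𝕜 Z := RestrictScalars.isScalarTower ℝ 𝕜 Z
  have approx : ∀ z : Z, ∃ x : E, ‖x‖ ≤ C * ‖z‖ ∧ ‖z - u x‖ ≤ ‖z‖ / 2 := by
    intro z
    by_cases hz : z = 0
    · exact ⟨0, by simp [hz], by simp [hz]⟩
    have hz' : 0 < ‖z‖ := norm_pos_iff.mpr hz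
    let K : Set Z := closure (u '' Metric.closedBall 0 (C * ‖z‖))
    have hconv : Convex ℝ K := by
      apply Convex.closure
      intro p hp q hq s t hs ht hst
      obtain ⟨v, hv, rfl⟩ := hp
      obtain ⟨w, hw, rfl⟩ := hq
      refine ⟨(s : 𝕜) • v + (t : 𝕜) • w, ?_, ?_⟩
      · rw [mem_closedBall_zero_iff] at *
        calc ‖(s : 𝕜) • v + (t : 𝕜) • w‖ ≤ s * ‖v‖ + t * ‖w‖ := by
              refine (norm_add_le _ _).trans ?_
              rw [norm_smul, norm_smul, RCLike.norm_ofReal, RCLike.norm_ofReal, abs_of_nonneg hs,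
                abs_of_nonneg ht]
          _ ≤ s * (C * ‖z‖) + t * (C * ‖z‖) := by gcongr
          _ = C * ‖z‖ := by rw [← add_mul, hst, one_mul]
      · rw [map_add, map_smul, map_smul, RCLike.real_smul_eq_coe_smul (K := 𝕜),
          RCLike.real_smul_eq_coe_smul (K := 𝕜)]
    have hmem : z ∈ K := by
      by_contra hcon
      obtain ⟨f, t, hf1, hf2⟩ := RCLike.geometric_hahn_banach_closed_point (𝕜 := 𝕜) hconv
        isClosed_closure hcon
      have h1 : ‖f.comp u‖ * (C * ‖z‖) ≤ t := by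
        apply opNorm_mul_le_of_re_le _ (by positivity)
        intro v hv
        exact (hf1 _ (subset_closure ⟨v, by simpa using hv, rfl⟩)).le
      have h3 : RCLike.re (f z) ≤ ‖f‖ * ‖z‖ := (RCLike.re_le_norm _).trans (f.le_opNorm z)
      have h4 := mul_le_mul_of_nonneg_right (h f) hz'.le
      nlinarith
    rw [Metric.mem_closure_iff] at hmem
    obtain ⟨p, ⟨v, hv, rfl⟩, hp⟩ := hmem (‖z‖ / 2) (by positivity)
    refine ⟨v, by simpa using hv, ?_⟩
    rw [dist_eq_norm] at hp
    exact hp.le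
  choose g hg1 hg2 using approx
  intro z
  let r : ℕ → Z := fun n => (fun y => y - u (g y))^[n] z
  have hr0 : r 0 = z := rfl
  have hrs : ∀ n, r (n + 1) = r n - u (g (r n)) := by
    intro n
    simp only [r, Function.iterate_succ_apply']
  have hr : ∀ n, ‖r n‖ ≤ ‖z‖ * (1 / 2) ^ n := by
    intro n
    induction n with
    | zero => simp [hr0]
    | succ n ih =>
      rw [hrs, pow_succ]
      have := hg2 (r n)
      linarith
  have hsum : Summable (fun n => g (r n)) := by
    apply Summable.of_norm_bounded (g := fun n => C * (‖z‖ * (1 / 2) ^ n))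
    · exact (summable_geometric_two.mul_left ‖z‖).mul_left C
    · intro n
      exact (hg1 (r n)).trans (mul_le_mul_of_nonneg_left (hr n) hC)
  refine ⟨∑' n, g (r n), ?_⟩
  have h1 : Tendsto (fun n => ∑ i ∈ Finset.range n, u (g (r i))) atTop (𝓝 (u (∑' n, g (r n)))) := by
    have := (u.continuous.tendsto _).comp hsum.hasSum.tendsto_sum_nat
    refine this.congr (fun n => ?_)
    simp
  have h2 : ∀ n, ∑ i ∈ Finset.range n, u (g (r i)) = z - r n := by
    intro n
    induction n with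
    | zero => simp [hr0]
    | succ n ih => rw [Finset.sum_range_succ, ih, hrs]; abel
  have h3 : Tendsto r atTop (𝓝 0) := by
    rw [tendsto_zero_iff_norm_tendsto_zero]
    apply squeeze_zero (fun n => norm_nonneg _) hr
    have : Tendsto (fun n : ℕ => ‖z‖ * (1 / 2 : ℝ) ^ n) atTop (𝓝 (‖z‖ * 0)) :=
      (tendsto_pow_atTop_nhds_zero_of_lt_one (by norm_num) (by norm_num)).const_mul _
    simpa using this
  have h4 : Tendsto (fun n => ∑ i ∈ Finset.range n, u (g (r i))) atTop (𝓝 (z - 0)) := by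
    simp only [h2]
    exact tendsto_const_nhds.sub h3
  rw [sub_zero] at h4
  exact tendsto_nhds_unique h1 h4

end Pool.Agent.V11100
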