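import Mathlib

open Filter Topology

namespace Pool.Agent.V11100

section Defs

variable (𝕜 : Type*) [RCLike 𝕜] {U : Type*} [NormedAddCommGroup U] [NormedSpace 𝕜 U]

/-- The closed linear span `[u_n]` of a sequence. -/
def clspan (u : ℕ → U) : Submodule 𝕜 U := (Submodule.span 𝕜 (Set.range u)).topologicalClosure

/-- The series `∑ a_n u_n` converges in norm to `v`. -/
def SeriesTo (u : ℕ → U) (a : ℕ → 𝕜) (v : U) : Prop :=
  Tendsto (fun m => ∑ i ∈ Finset.range m, a i • u i) atTop (𝓝 v)

/-- `(u_n)` is a basic sequence: a Schauder basis of its closed linear span. -/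
def IsBasicSeq (u : ℕ → U) : Prop := ∀ v ∈ clspan 𝕜 u, ∃! a : ℕ → 𝕜, SeriesTo 𝕜 u a v

end Defs

variable {𝕜 : Type*} [RCLike 𝕜] {U : Type*} [NormedAddCommGroup U] [NormedSpace 𝕜 U]

/-- With biorthogonal functionals, the coefficients of a convergent series are their values. -/
theorem coeff_of_seriesTo {u : ℕ → U} {w : ℕ → StrongDual 𝕜 U}
    (hb : ∀ i j, w i (u j) = if i = j then 1 else 0) {a : ℕ → 𝕜} {v : U} (h : SeriesTo 𝕜 u a v)
    (n : ℕ) : a n = w n v := by
  have h1 := ((w n).continuous.tendsto v).comp h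
  have h2 : Tendsto ((w n) ∘ fun m => ∑ i ∈ Finset.range m, a i • u i) atTop (𝓝 (a n)) := by
    apply tendsto_const_nhds.congr'
    filter_upwards [eventually_gt_atTop n] with m hm
    simp only [Function.comp, map_sum, map_smul, hb, smul_eq_mul, mul_ite, mul_one, mul_zero]
    rw [Finset.sum_ite_eq, if_pos (Finset.mem_range.mpr hm)]
  exact tendsto_nhds_unique h2 h1

/-- Elements of the span are their own finite expansions. -/
theorem span_expansion {u : ℕ → U} {w : ℕ → StrongDual 𝕜 U}
    (hb : ∀ i j, w i (u j) = if i = j then 1 else 0) {h : U}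
    (hh : h ∈ Submodule.span 𝕜 (Set.range u)) :
    ∃ N, (∀ m, N ≤ m → ∑ i ∈ Finset.range m, w i h • u i = h) ∧ ∀ i, N ≤ i → w i h = 0 := by
  induction hh using Submodule.span_induction with
  | mem v hv =>
    obtain ⟨n, rfl⟩ := hv
    refine ⟨n + 1, ?_, ?_⟩
    · intro m hm
      simp only [hb, ite_smul, one_smul, zero_smul]
      rw [Finset.sum_ite_eq', if_pos (Finset.mem_range.mpr (by omega))]
    · intro i hi
      rw [hb, if_neg (by omega)]
  | zero => exact ⟨0, by simp, by simp⟩
  | add x y _ _ hx hy =>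
    obtain ⟨N1, h1, h1'⟩ := hx
    obtain ⟨N2, h2, h2'⟩ := hy
    refine ⟨max N1 N2, ?_, ?_⟩
    · intro m hm
      simp only [map_add, add_smul, Finset.sum_add_distrib]
      rw [h1 m (le_trans (le_max_left _ _) hm), h2 m (le_trans (le_max_right _ _) hm)]
    · intro i hi
      rw [map_add, h1' i (le_trans (le_max_left _ _) hi), h2' i (le_trans (le_max_right _ _) hi),
        add_zero]
  | smul c x _ hx =>
    obtain ⟨N1, h1, h1'⟩ := hx
    refine ⟨N1, ?_, ?_⟩
    · intro m hm
      simp only [map_smul, smul_eq_mul, mul_smul]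
      rw [← Finset.smul_sum, h1 m hm]
    · intro i hi
      rw [map_smul, h1' i hi, smul_zero]

/-- A biorthogonal sequence with uniformly bounded partial sums on its span is basic. -/
theorem isBasicSeq_of_bound {u : ℕ → U} {w : ℕ → StrongDual 𝕜 U}
    (hb : ∀ i j, w i (u j) = if i = j then 1 else 0) {C : ℝ}
    (hC : ∀ h ∈ Submodule.span 𝕜 (Set.range u), ∀ m,
      ‖∑ i ∈ Finset.range m, w i h • u i‖ ≤ C * ‖h‖) : IsBasicSeq 𝕜 u := by
  have hC0 : ∀ v ∈ clspan 𝕜 u, ∀ m, ‖∑ i ∈ Finset.range m, w i v • u i‖ ≤ C * ‖v‖ := by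
    intro v hv m
    have hcl : IsClosed {v : U | ‖∑ i ∈ Finset.range m, w i v • u i‖ ≤ C * ‖v‖} := by
      apply isClosed_le
      · fun_prop
      · fun_prop
    have hv' : v ∈ closure (Submodule.span 𝕜 (Set.range u) : Set U) := hv
    exact closure_minimal (fun h hh => hC h hh m) hcl hv'
  intro v hv
  refine ⟨fun n => w n v, ?_, ?_⟩
  · show Tendsto (fun m => ∑ i ∈ Finset.range m, w i v • u i) atTop (𝓝 v)
    rw [Metric.tendsto_atTop]
    intro ε hε
    have hv' : v ∈ closure (Submodule.span 𝕜 (Set.range u) : Set U) := hv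
    rw [Metric.mem_closure_iff] at hv'
    set K := |C| + 1 with hK
    have hKpos : 0 < K := by positivity
    obtain ⟨h, hh, hd⟩ := hv' (ε / (2 * K)) (by positivity)
    obtain ⟨N, hN, _⟩ := span_expansion hb hh
    refine ⟨N, fun m hm => ?_⟩
    rw [dist_eq_norm] at hd ⊢
    have e : ∑ i ∈ Finset.range m, w i v • u i - v
        = ∑ i ∈ Finset.range m, w i (v - h) • u i - (v - h) := by
      simp only [map_sub, sub_smul, Finset.sum_sub_distrib]
      rw [hN m hm]; abel
    rw [e]
    have hmem : v - h ∈ clspan 𝕜 u :=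
      Submodule.sub_mem _ hv (Submodule.le_topologicalClosure _ hh)
    have h1 := hC0 (v - h) hmem m
    have h2 : C * ‖v - h‖ ≤ |C| * ‖v - h‖ := by
      gcongr
      exact le_abs_self C
    calc _ ≤ ‖∑ i ∈ Finset.range m, w i (v - h) • u i‖ + ‖v - h‖ := norm_sub_le _ _
      _ ≤ K * ‖v - h‖ := by rw [hK]; linarith
      _ < K * (ε / K) := by
          apply mul_lt_mul_of_pos_left _ hKpos
          refine hd.trans_le ?_
          apply div_le_div_of_nonneg_left hε.le hKpos
          linarith
      _ = ε := by field_simp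
  · intro a ha
    funext n
    exact coeff_of_seriesTo hb ha n

end Pool.Agent.V11100
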