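import Mathlib

open Filter Topology
open scoped ZeroAtInfty

namespace Pool.Agent.V11100

/-- The space of null sequences. -/
abbrev c0 (𝕜 : Type*) [RCLike 𝕜] := C₀(ℕ, 𝕜)

variable {𝕜 : Type*} [RCLike 𝕜]

theorem c0_norm_apply_le (z : c0 𝕜) (n : ℕ) : ‖z n‖ ≤ ‖z‖ := by
  rw [← ZeroAtInftyContinuousMap.norm_toBCF_eq_norm]
  exact z.toBCF.norm_coe_le_norm n

theorem c0_norm_le {z : c0 𝕜} {C : ℝ} (hC : 0 ≤ C) (h : ∀ n, ‖z n‖ ≤ C) : ‖z‖ ≤ C := by
  rw [← ZeroAtInftyContinuousMap.norm_toBCF_eq_norm]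
  exact (BoundedContinuousFunction.norm_le hC).mpr h

theorem c0_tendsto (z : c0 𝕜) : Tendsto z atTop (𝓝 0) :=
  cocompact_eq_atTop (α := ℕ) ▸ ZeroAtInftyContinuousMapClass.zero_at_infty z

/-- Evaluation at a coordinate. -/
noncomputable def cev (𝕜 : Type*) [RCLike 𝕜] (n : ℕ) : c0 𝕜 →L[𝕜] 𝕜 :=
  LinearMap.mkContinuous
    { toFun := fun z => z n
      map_add' := fun _ _ => rfl
      map_smul' := fun _ _ => rfl } 1 (fun z => by rw [one_mul]; exact c0_norm_apply_le z n)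

theorem cev_apply (n : ℕ) (z : c0 𝕜) : cev 𝕜 n z = z n := rfl

/-- A null sequence as an element of `c0`. -/
def mk0 (a : ℕ → 𝕜) (h : Tendsto a atTop (𝓝 0)) : c0 𝕜 :=
  ⟨⟨a, continuous_of_discreteTopology⟩, by rw [cocompact_eq_atTop]; exact h⟩

theorem mk0_apply (a : ℕ → 𝕜) (h : Tendsto a atTop (𝓝 0)) (n : ℕ) : mk0 a h n = a n := rfl

theorem tendsto_of_finite (a : ℕ → 𝕜) {N : ℕ} (h : ∀ n, N ≤ n → a n = 0) :
    Tendsto a atTop (𝓝 0) := by
  apply tendsto_const_nhds.congr'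
  filter_upwards [eventually_ge_atTop N] with n hn
  exact (h n hn).symm

end Pool.Agent.V11100
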