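import Mathlib

open Filter Topology

namespace Pool.Agent.V11100.Bellman

/-- auxiliary one variable function -/
noncomputable def g (p σ : ℝ) (y : ℝ) : ℝ :=
  |p - 2| * y ^ p + σ * p * y ^ (p - 1) - |p - 2| - σ * p * y

noncomputable def g' (p σ : ℝ) (y : ℝ) : ℝ :=
  |p - 2| * (p * y ^ (p - 1)) + σ * p * ((p - 1) * y ^ (p - 1 - 1)) - σ * p

noncomputable def g'' (p σ : ℝ) (y : ℝ) : ℝ :=
  |p - 2| * (p * ((p - 1) * y ^ (p - 1 - 1)))
    + σ * p * ((p - 1) * ((p - 1 - 1) * y ^ (p - 1 - 1 - 1)))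

theorem hasDeriv_g (p σ y : ℝ) (hy : 0 < y) : HasDerivAt (g p σ) (g' p σ y) y := by
  unfold g g'
  have h1 := (Real.hasDerivAt_rpow_const (x := y) (p := p) (Or.inl hy.ne')).const_mul |p - 2|
  have h2 := (Real.hasDerivAt_rpow_const (x := y) (p := p - 1) (Or.inl hy.ne')).const_mul (σ * p)
  have h3 := (hasDerivAt_id y).const_mul (σ * p)
  have h4 := ((h1.add h2).sub_const |p - 2|).sub h3
  rw [mul_one] at h4
  exact h4

theorem hasDeriv_g' (p σ y : ℝ) (hy : 0 < y) : HasDerivAt (g' p σ) (g'' p σ y) y := by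
  unfold g' g''
  have h1 := ((Real.hasDerivAt_rpow_const (x := y) (p := p - 1) (Or.inl hy.ne')).const_mul
    p).const_mul |p - 2|
  have h2 := ((Real.hasDerivAt_rpow_const (x := y) (p := p - 1 - 1)
    (Or.inl hy.ne')).const_mul (p - 1)).const_mul (σ * p)
  exact (h1.add h2).sub_const (σ * p)

theorem g''_nonneg (p σ y : ℝ) (hp : 1 < p) (hσ : |σ| ≤ 1) (hy : 1 < y) : 0 ≤ g'' p σ y := by
  unfold g''
  have hy0 : 0 < y := by linarith
  have h1 : y ^ (p - 1 - 1) = y * y ^ (p - 1 - 1 - 1) := by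
    rw [mul_comm, ← Real.rpow_add_one hy0.ne']
    congr 1; ring
  rw [h1]
  have h2 : |p - 2| * (p * ((p - 1) * (y * y ^ (p - 1 - 1 - 1))))
    + σ * p * ((p - 1) * ((p - 1 - 1) * y ^ (p - 1 - 1 - 1)))
    = p * (p - 1) * y ^ (p - 1 - 1 - 1) * (|p - 2| * y + σ * (p - 2)) := by ring
  rw [h2]
  have h3 : 0 ≤ |p - 2| * y + σ * (p - 2) := by
    have h4 : |σ * (p - 2)| ≤ |p - 2| := by
      rw [abs_mul]
      exact mul_le_of_le_one_left (abs_nonneg _) hσ
    have h5 := neg_abs_le (σ * (p - 2))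
    have h6 : |p - 2| ≤ |p - 2| * y := le_mul_of_one_le_right (abs_nonneg _) hy.le
    linarith
  have h4 : 0 ≤ y ^ (p - 1 - 1 - 1) := by positivity
  have h5 : 0 ≤ p * (p - 1) := by nlinarith
  positivity

theorem g'_nonneg (p σ y : ℝ) (hp : 1 < p) (hσ : |σ| ≤ 1) (hy : 1 ≤ y) : 0 ≤ g' p σ y := by
  have hmono : MonotoneOn (g' p σ) (Set.Ici 1) := by
    apply monotoneOn_of_deriv_nonneg (convex_Ici 1)
    · intro x hx
      have hx' : (1 : ℝ) ≤ x := hx
      exact (hasDeriv_g' p σ x (by linarith)).continuousAt.continuousWithinAt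
    · intro x hx
      rw [interior_Ici] at hx
      have hx' : (1 : ℝ) < x := hx
      exact (hasDeriv_g' p σ x (by linarith)).differentiableAt.differentiableWithinAt
    · intro x hx
      rw [interior_Ici] at hx
      have hx' : (1 : ℝ) < x := hx
      rw [(hasDeriv_g' p σ x (by linarith)).deriv]
      exact g''_nonneg p σ x hp hσ hx'
  have h1 : g' p σ 1 ≤ g' p σ y := hmono (Set.mem_Ici.2 le_rfl) (Set.mem_Ici.2 hy) hy
  have h2 : 0 ≤ g' p σ 1 := by
    unfold g'
    simp only [Real.one_rpow]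
    have h3 : |p - 2| * (p * 1) + σ * p * ((p - 1) * 1) - σ * p
      = p * (|p - 2| + σ * (p - 2)) := by ring
    rw [h3]
    have h4 : |σ * (p - 2)| ≤ |p - 2| := by
      rw [abs_mul]
      exact mul_le_of_le_one_left (abs_nonneg _) hσ
    have h5 := neg_abs_le (σ * (p - 2))
    have : 0 ≤ |p - 2| + σ * (p - 2) := by linarith
    have : 0 < p := by linarith
    positivity
  linarith

theorem g_mono (p σ : ℝ) (hp : 1 < p) (hσ : |σ| ≤ 1) : MonotoneOn (g p σ) (Set.Ici 1) := by
  apply monotoneOn_of_deriv_nonneg (convex_Ici 1)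
  · intro x hx
    have hx' : (1 : ℝ) ≤ x := hx
    exact (hasDeriv_g p σ x (by linarith)).continuousAt.continuousWithinAt
  · intro x hx
    rw [interior_Ici] at hx
    have hx' : (1 : ℝ) < x := hx
    exact (hasDeriv_g p σ x (by linarith)).differentiableAt.differentiableWithinAt
  · intro x hx
    rw [interior_Ici] at hx
    have hx' : (1 : ℝ) < x := hx
    rw [(hasDeriv_g p σ x (by linarith)).deriv]
    exact g'_nonneg p σ x hp hσ hx'.le

theorem g_convex (p σ : ℝ) (hp : 1 < p) (hσ : |σ| ≤ 1) : ConvexOn ℝ (Set.Ici 1) (g p σ) := by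
  apply convexOn_of_hasDerivWithinAt2_nonneg (convex_Ici 1) (f' := g' p σ) (f'' := g'' p σ)
  · intro x hx
    have hx' : (1 : ℝ) ≤ x := hx
    exact (hasDeriv_g p σ x (by linarith)).continuousAt.continuousWithinAt
  · intro x hx
    rw [interior_Ici] at hx
    have hx' : (1 : ℝ) < x := hx
    exact (hasDeriv_g p σ x (by linarith)).hasDerivWithinAt
  · intro x hx
    rw [interior_Ici] at hx
    have hx' : (1 : ℝ) < x := hx
    exact (hasDeriv_g' p σ x (by linarith)).hasDerivWithinAt
  · intro x hx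
    rw [interior_Ici] at hx
    have hx' : (1 : ℝ) < x := hx
    exact g''_nonneg p σ x hp hσ hx'

theorem g_mid (p σ : ℝ) (hp : 1 < p) (hσ : |σ| ≤ 1) (u d : ℝ) :
    2 * g p σ (max u 1) ≤ g p σ (max (u + d) 1) + g p σ (max (u - d) 1) := by
  have h1 : max u 1 ≤ (1 / 2 : ℝ) * max (u + d) 1 + (1 / 2 : ℝ) * max (u - d) 1 := by
    apply max_le
    · linarith [le_max_left (u + d) 1, le_max_left (u - d) 1]
    · linarith [le_max_right (u + d) 1, le_max_right (u - d) 1]
  have m0 : max u 1 ∈ Set.Ici (1 : ℝ) := Set.mem_Ici.2 (le_max_right _ _)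
  have m1 : max (u + d) 1 ∈ Set.Ici (1 : ℝ) := Set.mem_Ici.2 (le_max_right _ _)
  have m2 : max (u - d) 1 ∈ Set.Ici (1 : ℝ) := Set.mem_Ici.2 (le_max_right _ _)
  have m3 : (1 / 2 : ℝ) * max (u + d) 1 + (1 / 2 : ℝ) * max (u - d) 1 ∈ Set.Ici (1 : ℝ) :=
    Set.mem_Ici.2 (le_trans m0 h1)
  have h2 := g_mono p σ hp hσ m0 m3 h1
  have h3 := (g_convex p σ hp hσ).2 m1 m2 (by norm_num : (0 : ℝ) ≤ 1 / 2)
    (by norm_num : (0 : ℝ) ≤ 1 / 2) (by norm_num)
  simp only [smul_eq_mul] at h3
  linarith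

/-- The function `G(·, 1)`. -/
noncomputable def H (p x : ℝ) : ℝ :=
  |p - 2| * (max |x| 1) ^ p + p * x * (max |x| 1) ^ (p - 2)

theorem H_eq (p x : ℝ) :
    H p x = |p - 2| + p * x + g p 1 (max x 1) + g p (-1) (max (-x) 1) := by
  unfold H g
  rcases le_total 1 x with h | h
  · have e1 : max |x| 1 = x := by rw [abs_of_nonneg (by linarith)]; exact max_eq_left h
    have e2 : max x 1 = x := max_eq_left h
    have e3 : max (-x) 1 = 1 := max_eq_right (by linarith)
    have hx : 0 < x := by linarith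
    have e4 : x ^ (p - 1) = x * x ^ (p - 2) := by
      rw [mul_comm, ← Real.rpow_add_one hx.ne']; congr 1; ring
    rw [e1, e2, e3, e4]
    simp only [Real.one_rpow]
    ring
  · rcases le_total x (-1) with h' | h'
    · have e1 : max |x| 1 = -x := by
        rw [abs_of_nonpos (by linarith)]; exact max_eq_left (by linarith)
      have e2 : max x 1 = 1 := max_eq_right h
      have e3 : max (-x) 1 = -x := max_eq_left (by linarith)
      have hx : 0 < -x := by linarith
      have e4 : (-x) ^ (p - 1) = (-x) * (-x) ^ (p - 2) := by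
        rw [mul_comm, ← Real.rpow_add_one hx.ne']; congr 1; ring
      rw [e1, e2, e3, e4]
      simp only [Real.one_rpow]
      ring
    · have e1 : max |x| 1 = 1 := max_eq_right (abs_le.2 ⟨h', h⟩)
      have e2 : max x 1 = 1 := max_eq_right h
      have e3 : max (-x) 1 = 1 := max_eq_right (by linarith)
      rw [e1, e2, e3]
      simp only [Real.one_rpow]
      ring

theorem H_mid (p : ℝ) (hp : 1 < p) (u d : ℝ) : 2 * H p u ≤ H p (u + d) + H p (u - d) := by
  rw [H_eq, H_eq, H_eq]
  have h1 := g_mid p 1 hp (by norm_num) u d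
  have h2 := g_mid p (-1) hp (by norm_num) (-u) d
  have e1 : -(u + d) = -u - d := by ring
  have e2 : -(u - d) = -u + d := by ring
  rw [e1, e2]
  linarith

/-- The Bellman function. -/
noncomputable def G (p u v : ℝ) : ℝ :=
  |p - 2| * (max |u| |v|) ^ p + p * (u * v) * (max |u| |v|) ^ (p - 2)

theorem G_symm (p u v : ℝ) : G p u v = G p v u := by
  unfold G
  rw [max_comm, mul_comm u v]

theorem G_eq_H (p u v : ℝ) (hv : v ≠ 0) : G p u v = |v| ^ p * H p (u / v) := by
  unfold G H
  have hv' : 0 < |v| := abs_pos.2 hv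
  have e1 : max |u / v| 1 = max |u| |v| / |v| := by
    rw [abs_div]
    rw [max_div_div_right hv'.le |u| |v| |>.symm, div_self hv'.ne']
  have hM : 0 ≤ max |u| |v| := le_trans (abs_nonneg u) (le_max_left _ _)
  rw [e1, Real.div_rpow hM hv'.le, Real.div_rpow hM hv'.le]
  have hvp : |v| ^ p ≠ 0 := (Real.rpow_pos_of_pos hv' p).ne'
  have hvp2 : |v| ^ (p - 2) ≠ 0 := (Real.rpow_pos_of_pos hv' _).ne'
  have e2 : |v| ^ p = |v| ^ (p - 2) * v ^ 2 := by
    rw [← sq_abs v, ← Real.rpow_natCast |v| 2, ← Real.rpow_add hv']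
    congr 1; push_cast; ring
  have e3 : |v| ^ p * (|p - 2| * ((max |u| |v|) ^ p / |v| ^ p)
      + p * (u / v) * ((max |u| |v|) ^ (p - 2) / |v| ^ (p - 2)))
      = |p - 2| * (max |u| |v|) ^ p * (|v| ^ p / |v| ^ p)
      + p * (u / v) * (max |u| |v|) ^ (p - 2) * (|v| ^ p / |v| ^ (p - 2)) := by ring
  rw [e3, div_self hvp, e2, mul_div_cancel_left₀ _ hvp2]
  field_simp

theorem G_mid (p : ℝ) (hp : 1 < p) (u v d : ℝ) :
    2 * G p u v ≤ G p (u + d) v + G p (u - d) v := by
  by_cases hv : v = 0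
  · subst hv
    unfold G
    simp only [abs_zero, mul_zero, zero_mul, add_zero]
    rw [max_eq_left (abs_nonneg u), max_eq_left (abs_nonneg (u + d)),
      max_eq_left (abs_nonneg (u - d))]
    have h1 : |u| ≤ (1 / 2 : ℝ) * |u + d| + (1 / 2 : ℝ) * |u - d| := by
      have := abs_add_le (u + d) (u - d)
      have e : u + d + (u - d) = 2 * u := by ring
      rw [e, abs_mul, abs_two] at this
      linarith
    have h2 : |u| ^ p ≤ ((1 / 2 : ℝ) * |u + d| + (1 / 2 : ℝ) * |u - d|) ^ p :=
      Real.rpow_le_rpow (abs_nonneg _) h1 (by linarith)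
    have h3 := (convexOn_rpow hp.le).2 (Set.mem_Ici.2 (abs_nonneg (u + d)))
      (Set.mem_Ici.2 (abs_nonneg (u - d))) (by norm_num : (0 : ℝ) ≤ 1 / 2)
      (by norm_num : (0 : ℝ) ≤ 1 / 2) (by norm_num)
    simp only [smul_eq_mul] at h3
    have h4 : |u| ^ p * 2 ≤ |u + d| ^ p + |u - d| ^ p := by linarith
    nlinarith [mul_le_mul_of_nonneg_left h4 (abs_nonneg (p - 2))]
  · rw [G_eq_H p u v hv, G_eq_H p (u + d) v hv, G_eq_H p (u - d) v hv, add_div, sub_div]
    have h := H_mid p hp (u / v) (d / v)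
    have hv' : 0 ≤ |v| ^ p := by positivity
    nlinarith [mul_le_mul_of_nonneg_left h hv']

theorem G_mid' (p : ℝ) (hp : 1 < p) (u v d : ℝ) :
    2 * G p u v ≤ G p u (v + d) + G p u (v - d) := by
  rw [G_symm p u v, G_symm p u (v + d), G_symm p u (v - d)]
  exact G_mid p hp v u d

theorem G_zero_right (p u : ℝ) : 0 ≤ G p u 0 := by
  unfold G
  simp only [mul_zero, zero_mul, add_zero]
  positivity

theorem G_zero_left (p v : ℝ) : 0 ≤ G p 0 v := by
  rw [G_symm]
  exact G_zero_right p v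

/-- The constant. -/
noncomputable def cst (p : ℝ) : ℝ := 2 / (p - |p - 2|)

theorem den_pos (p : ℝ) (hp : 1 < p) : 0 < p - |p - 2| := by
  have : |p - 2| < p := by
    rw [abs_lt]; constructor <;> linarith
  linarith

theorem cst_pos (p : ℝ) (hp : 1 < p) : 0 < cst p := by
  unfold cst
  have := den_pos p hp
  positivity

theorem G_final (p : ℝ) (hp : 1 < p) (u v : ℝ) :
    |u| ^ p + cst p * G p u v ≤ (cst p * p * |u + v|) ^ p := by
  have hc := cst_pos p hp
  have hcd : cst p * (p - |p - 2|) = 2 := by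
    unfold cst
    have := den_pos p hp
    field_simp
  set M := max |u| |v| with hM
  have hM0 : 0 ≤ M := le_trans (abs_nonneg u) (le_max_left _ _)
  rcases hM0.eq_or_lt with h0 | hpos
  · have hu : |u| = 0 := le_antisymm (h0 ▸ le_max_left _ _) (abs_nonneg _)
    have hu' : u = 0 := abs_eq_zero.1 hu
    have hG : G p u v = 0 := by
      unfold G
      rw [← hM, ← h0, hu']
      rw [Real.zero_rpow (by linarith : p ≠ 0)]
      ring
    rw [hG, hu, Real.zero_rpow (by linarith : p ≠ 0)]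
    simp only [mul_zero, add_zero]
    positivity
  · have huM : |u| ^ p ≤ M ^ p := Real.rpow_le_rpow (abs_nonneg _) (le_max_left _ _) (by linarith)
    have huv : u * v ≤ M * |u + v| - M ^ 2 := by
      rcases le_total |v| |u| with h | h
      · have hMu : M = |u| := max_eq_left h
        rw [hMu, sq_abs]
        have h1 : u * (u + v) ≤ |u| * |u + v| := by
          rw [← abs_mul]; exact le_abs_self _
        nlinarith
      · have hMv : M = |v| := max_eq_right h
        rw [hMv, sq_abs]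
        have h1 : v * (u + v) ≤ |v| * |u + v| := by
          rw [← abs_mul]; exact le_abs_self _
        nlinarith
    have e2 : M ^ (2 : ℕ) * M ^ (p - 2) = M ^ p := by
      rw [← Real.rpow_natCast M 2, ← Real.rpow_add hpos]
      congr 1; push_cast; ring
    have e1 : M * M ^ (p - 2) = M ^ (p - 1) := by
      rw [mul_comm, ← Real.rpow_add_one hpos.ne']; congr 1; ring
    have hMp2 : 0 ≤ M ^ (p - 2) := by positivity
    have hG : G p u v ≤ |p - 2| * M ^ p + p * (M * |u + v| - M ^ 2) * M ^ (p - 2) := by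
      unfold G
      rw [← hM]
      have : p * (u * v) * M ^ (p - 2) ≤ p * (M * |u + v| - M ^ 2) * M ^ (p - 2) :=
        mul_le_mul_of_nonneg_right (mul_le_mul_of_nonneg_left huv (by linarith)) hMp2
      linarith
    have hG2 : G p u v ≤ p * |u + v| * M ^ (p - 1) - (p - |p - 2|) * M ^ p := by
      have e3 : |p - 2| * M ^ p + p * (M * |u + v| - M ^ 2) * M ^ (p - 2)
        = |p - 2| * M ^ p + p * |u + v| * (M * M ^ (p - 2)) - p * (M ^ 2 * M ^ (p - 2)) := by ring
      rw [e3, e1, e2] at hG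
      linarith
    have hG3 : cst p * G p u v ≤ cst p * p * |u + v| * M ^ (p - 1) - 2 * M ^ p := by
      have := mul_le_mul_of_nonneg_left hG2 hc.le
      have e4 : cst p * (p * |u + v| * M ^ (p - 1) - (p - |p - 2|) * M ^ p)
        = cst p * p * |u + v| * M ^ (p - 1) - (cst p * (p - |p - 2|)) * M ^ p := by ring
      rw [e4, hcd] at this
      exact this
    set T := cst p * p * |u + v| with hT
    have hT0 : 0 ≤ T := by
      have : 0 < p := by linarith
      positivity
    have e5 : M ^ p = M * M ^ (p - 1) := by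
      rw [mul_comm, ← Real.rpow_add_one hpos.ne']; congr 1; ring
    have hMp1 : 0 ≤ M ^ (p - 1) := by positivity
    have hfin : |u| ^ p + cst p * G p u v ≤ (T - M) * M ^ (p - 1) := by
      nlinarith
    rcases le_total T M with h | h
    · have : (T - M) * M ^ (p - 1) ≤ 0 :=
        mul_nonpos_of_nonpos_of_nonneg (by linarith) hMp1
      have : 0 ≤ T ^ p := by positivity
      linarith
    · have hTpos : 0 < T := lt_of_lt_of_le hpos h
      have h1 : (T - M) * M ^ (p - 1) ≤ T * M ^ (p - 1) :=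
        mul_le_mul_of_nonneg_right (by linarith) hMp1
      have h2 : T * M ^ (p - 1) ≤ T * T ^ (p - 1) :=
        mul_le_mul_of_nonneg_left (Real.rpow_le_rpow hM0 h (by linarith)) hT0
      have e6 : T * T ^ (p - 1) = T ^ p := by
        rw [mul_comm, ← Real.rpow_add_one hTpos.ne']; congr 1; ring
      linarith

end Pool.Agent.V11100.Bellman
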