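import Mathlib
import Pool.Agent.V11100.Bellman

open Filter Topology

namespace Pool.Agent.V11100.HaarDisc

open Pool.Agent.V11100.Bellman

/-- parity sign -/
def rho (m : ℕ) : ℝ := if m % 2 = 0 then 1 else -1

theorem rho_even (k : ℕ) : rho (2 * k) = 1 := by simp [rho]
theorem rho_odd (k : ℕ) : rho (2 * k + 1) = -1 := by simp [rho, Nat.add_mod]

theorem abs_rho (m : ℕ) : |rho m| = 1 := by
  unfold rho
  split_ifs <;> simp

section

variable {𝕜 : Type*} [RCLike 𝕜]

/-- Dyadic martingale built from initial value and differences. -/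
noncomputable def val (e0 : 𝕜) (e : ℕ → ℕ → 𝕜) : ℕ → ℕ → 𝕜
  | 0, _ => e0
  | N + 1, m => val e0 e N (m / 2) + e N (m / 2) * (rho m : 𝕜)

theorem val_even (e0 : 𝕜) (e : ℕ → ℕ → 𝕜) (N k : ℕ) :
    val e0 e (N + 1) (2 * k) = val e0 e N k + e N k := by
  rw [val, rho_even]
  have : 2 * k / 2 = k := by omega
  rw [this]; simp

theorem val_odd (e0 : 𝕜) (e : ℕ → ℕ → 𝕜) (N k : ℕ) :
    val e0 e (N + 1) (2 * k + 1) = val e0 e N k - e N k := by
  rw [val, rho_odd]
  have : (2 * k + 1) / 2 = k := by omega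
  rw [this]; simp [sub_eq_add_neg]

theorem val_add (u0 v0 : 𝕜) (u v : ℕ → ℕ → 𝕜) (N m : ℕ) :
    val (u0 + v0) (fun n k => u n k + v n k) N m = val u0 u N m + val v0 v N m := by
  induction N generalizing m with
  | zero => rfl
  | succ N ih => simp only [val, ih]; ring

theorem re_val (e0 : 𝕜) (e : ℕ → ℕ → 𝕜) (N m : ℕ) :
    RCLike.re (val e0 e N m) = val (RCLike.re e0 : ℝ) (fun n k => (RCLike.re (e n k) : ℝ)) N m := by
  induction N generalizing m with
  | zero => rfl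
  | succ N ih =>
    simp only [val, map_add, ih]
    congr 1
    rw [mul_comm, RCLike.re_ofReal_mul, mul_comm]
    rfl

theorem im_val (e0 : 𝕜) (e : ℕ → ℕ → 𝕜) (N m : ℕ) :
    RCLike.im (val e0 e N m) = val (RCLike.im e0 : ℝ) (fun n k => (RCLike.im (e n k) : ℝ)) N m := by
  induction N generalizing m with
  | zero => rfl
  | succ N ih =>
    simp only [val, map_add, ih]
    congr 1
    rw [mul_comm, RCLike.im_ofReal_mul, mul_comm]
    rfl

end

theorem sum_pairs {E : Type*} [AddCommMonoid E] (N : ℕ) (F : ℕ → E) :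
    ∑ m ∈ Finset.range (2 ^ (N + 1)), F m
      = ∑ k ∈ Finset.range (2 ^ N), (F (2 * k) + F (2 * k + 1)) := by
  rw [pow_succ, mul_comm]
  generalize 2 ^ N = n
  induction n with
  | zero => simp
  | succ n ih =>
    have : 2 * (n + 1) = 2 * n + 1 + 1 := by ring
    rw [this, Finset.sum_range_succ, Finset.sum_range_succ, ih, Finset.sum_range_succ, add_assoc]

theorem G_sum (p : ℝ) (hp : 1 < p) (u0 v0 : ℝ) (u v : ℕ → ℕ → ℝ) (h0 : u0 = 0 ∨ v0 = 0)
    (h : ∀ n k, u n k = 0 ∨ v n k = 0) (N : ℕ) :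
    0 ≤ ∑ m ∈ Finset.range (2 ^ N), G p (val u0 u N m) (val v0 v N m) := by
  induction N with
  | zero =>
    simp only [pow_zero, Finset.range_one, Finset.sum_singleton]
    show 0 ≤ G p u0 v0
    rcases h0 with h0 | h0
    · rw [h0]; exact G_zero_left p v0
    · rw [h0]; exact G_zero_right p u0
  | succ N ih =>
    rw [sum_pairs]
    have h1 : ∑ k ∈ Finset.range (2 ^ N), 2 * G p (val u0 u N k) (val v0 v N k)
        ≤ ∑ k ∈ Finset.range (2 ^ N), (G p (val u0 u (N + 1) (2 * k)) (val v0 v (N + 1) (2 * k))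
          + G p (val u0 u (N + 1) (2 * k + 1)) (val v0 v (N + 1) (2 * k + 1))) := by
      apply Finset.sum_le_sum
      intro k _
      rw [val_even, val_even, val_odd, val_odd]
      rcases h N k with hk | hk
      · rw [hk]
        simp only [add_zero, sub_zero]
        exact G_mid' p hp _ _ _
      · rw [hk]
        simp only [add_zero, sub_zero]
        exact G_mid p hp _ _ _
    rw [← Finset.mul_sum] at h1
    linarith

theorem uncond_real (p : ℝ) (hp : 1 < p) (u0 v0 : ℝ) (u v : ℕ → ℕ → ℝ) (h0 : u0 = 0 ∨ v0 = 0)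
    (h : ∀ n k, u n k = 0 ∨ v n k = 0) (N : ℕ) :
    ∑ m ∈ Finset.range (2 ^ N), |val u0 u N m| ^ p
      ≤ (cst p * p) ^ p * ∑ m ∈ Finset.range (2 ^ N), |val u0 u N m + val v0 v N m| ^ p := by
  have h1 := G_sum p hp u0 v0 u v h0 h N
  have hc := cst_pos p hp
  have h2 : ∑ m ∈ Finset.range (2 ^ N), (|val u0 u N m| ^ p
      + cst p * G p (val u0 u N m) (val v0 v N m))
      ≤ ∑ m ∈ Finset.range (2 ^ N), (cst p * p) ^ p * |val u0 u N m + val v0 v N m| ^ p := by
    apply Finset.sum_le_sum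
    intro m _
    have := G_final p hp (val u0 u N m) (val v0 v N m)
    rwa [Real.mul_rpow (by positivity) (abs_nonneg _)] at this
  rw [Finset.sum_add_distrib, ← Finset.mul_sum, ← Finset.mul_sum] at h2
  nlinarith [mul_nonneg hc.le h1]

section

variable {𝕜 : Type*} [RCLike 𝕜]

theorem norm_le_abs_re_add_abs_im (z : 𝕜) : ‖z‖ ≤ |RCLike.re z| + |RCLike.im z| := by
  have h1 : z = (RCLike.re z : 𝕜) + (RCLike.im z : 𝕜) * RCLike.I := (RCLike.re_add_im z).symm
  have h2 := norm_add_le (RCLike.re z : 𝕜) ((RCLike.im z : 𝕜) * RCLike.I)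
  rw [← h1, norm_mul, RCLike.norm_ofReal, RCLike.norm_ofReal] at h2
  have h3 : ‖(RCLike.I : 𝕜)‖ ≤ 1 := by
    rw [RCLike.norm_I]
    split_ifs <;> simp
  nlinarith [abs_nonneg (RCLike.im z)]

/-- The unconditionality constant (to the power `p`). -/
noncomputable def C1 (p : ℝ) : ℝ := 2 ^ p * (2 * (cst p * p) ^ p)

theorem C1_pos (p : ℝ) (hp : 1 < p) : 0 < C1 p := by
  unfold C1
  have := cst_pos p hp
  positivity

theorem uncond_disc (p : ℝ) (hp : 1 < p) (u0 v0 : 𝕜) (u v : ℕ → ℕ → 𝕜) (h0 : u0 = 0 ∨ v0 = 0)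
    (h : ∀ n k, u n k = 0 ∨ v n k = 0) (N : ℕ) :
    ∑ m ∈ Finset.range (2 ^ N), ‖val u0 u N m‖ ^ p
      ≤ C1 p * ∑ m ∈ Finset.range (2 ^ N), ‖val u0 u N m + val v0 v N m‖ ^ p := by
  have hp0 : 0 ≤ p := by linarith
  have hre := uncond_real p hp (RCLike.re u0) (RCLike.re v0) (fun n k => RCLike.re (u n k))
    (fun n k => RCLike.re (v n k)) (by rcases h0 with h | h <;> simp [h])
    (fun n k => by rcases h n k with h | h <;> simp [h]) N
  have him := uncond_real p hp (RCLike.im u0) (RCLike.im v0) (fun n k => RCLike.im (u n k))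
    (fun n k => RCLike.im (v n k)) (by rcases h0 with h | h <;> simp [h])
    (fun n k => by rcases h n k with h | h <;> simp [h]) N
  simp only [← re_val, ← im_val, ← map_add] at hre him
  have hB : 0 ≤ (cst p * p) ^ p := by
    have := cst_pos p hp
    positivity
  have h1 : ∑ m ∈ Finset.range (2 ^ N), ‖val u0 u N m‖ ^ p
      ≤ 2 ^ p * (∑ m ∈ Finset.range (2 ^ N), |RCLike.re (val u0 u N m)| ^ p
        + ∑ m ∈ Finset.range (2 ^ N), |RCLike.im (val u0 u N m)| ^ p) := by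
    rw [← Finset.sum_add_distrib, Finset.mul_sum]
    apply Finset.sum_le_sum
    intro m _
    set z := val u0 u N m
    have a1 : ‖z‖ ≤ |RCLike.re z| + |RCLike.im z| := norm_le_abs_re_add_abs_im z
    have a2 : ‖z‖ ≤ 2 * max |RCLike.re z| |RCLike.im z| := by
      linarith [le_max_left |RCLike.re z| |RCLike.im z|, le_max_right |RCLike.re z| |RCLike.im z|]
    have a3 : ‖z‖ ^ p ≤ 2 ^ p * (max |RCLike.re z| |RCLike.im z|) ^ p := by
      rw [← Real.mul_rpow (by norm_num) (le_trans (abs_nonneg _) (le_max_left _ _))]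
      exact Real.rpow_le_rpow (norm_nonneg _) a2 hp0
    have a4 : (max |RCLike.re z| |RCLike.im z|) ^ p ≤ |RCLike.re z| ^ p + |RCLike.im z| ^ p := by
      have b1 : 0 ≤ |RCLike.re z| ^ p := by positivity
      have b2 : 0 ≤ |RCLike.im z| ^ p := by positivity
      rcases max_choice |RCLike.re z| |RCLike.im z| with h | h <;> rw [h] <;> linarith
    exact a3.trans (mul_le_mul_of_nonneg_left a4 (by positivity))
  have h2 : ∑ m ∈ Finset.range (2 ^ N), |RCLike.re (val u0 u N m + val v0 v N m)| ^ p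
      ≤ ∑ m ∈ Finset.range (2 ^ N), ‖val u0 u N m + val v0 v N m‖ ^ p :=
    Finset.sum_le_sum (fun m _ => Real.rpow_le_rpow (abs_nonneg _) (RCLike.abs_re_le_norm _) hp0)
  have h3 : ∑ m ∈ Finset.range (2 ^ N), |RCLike.im (val u0 u N m + val v0 v N m)| ^ p
      ≤ ∑ m ∈ Finset.range (2 ^ N), ‖val u0 u N m + val v0 v N m‖ ^ p :=
    Finset.sum_le_sum (fun m _ => Real.rpow_le_rpow (abs_nonneg _) (RCLike.abs_im_le_norm _) hp0)
  have h4 : ∑ m ∈ Finset.range (2 ^ N), |RCLike.re (val u0 u N m)| ^ p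
        + ∑ m ∈ Finset.range (2 ^ N), |RCLike.im (val u0 u N m)| ^ p
      ≤ 2 * (cst p * p) ^ p * ∑ m ∈ Finset.range (2 ^ N), ‖val u0 u N m + val v0 v N m‖ ^ p := by
    have b1 := mul_le_mul_of_nonneg_left h2 hB
    have b2 := mul_le_mul_of_nonneg_left h3 hB
    linarith
  calc _ ≤ _ := h1
    _ ≤ 2 ^ p * (2 * (cst p * p) ^ p
        * ∑ m ∈ Finset.range (2 ^ N), ‖val u0 u N m + val v0 v N m‖ ^ p) :=
        mul_le_mul_of_nonneg_left h4 (by positivity)
    _ = _ := by unfold C1; ring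

/-- Square-function type counting martingale. -/
noncomputable def cnt (z0 : ℝ) (z : ℕ → ℕ → ℝ) : ℕ → ℕ → ℝ
  | 0, _ => z0
  | N + 1, m => cnt z0 z N (m / 2) + 2 ^ N * z N (m / 2)

theorem cnt_sum (z0 : ℝ) (z : ℕ → ℕ → ℝ) (N : ℕ) :
    ∑ m ∈ Finset.range (2 ^ N), cnt z0 z N m
      = 2 ^ N * (z0 + ∑ n ∈ Finset.range N, ∑ k ∈ Finset.range (2 ^ n), z n k) := by
  induction N with
  | zero => simp [cnt]
  | succ N ih =>
    rw [sum_pairs]
    have h1 : ∀ k, cnt z0 z (N + 1) (2 * k) + cnt z0 z (N + 1) (2 * k + 1)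
        = 2 * cnt z0 z N k + 2 * 2 ^ N * z N k := by
      intro k
      simp only [cnt]
      have e1 : 2 * k / 2 = k := by omega
      have e2 : (2 * k + 1) / 2 = k := by omega
      rw [e1, e2]; ring
    simp only [h1]
    rw [Finset.sum_add_distrib, ← Finset.mul_sum, ← Finset.mul_sum, ih, Finset.sum_range_succ]
    ring

/-- The ratio. -/
noncomputable def rr (p : ℝ) : ℝ := 2 ^ (1 / p : ℝ)

theorem rr_gt (p : ℝ) (hp : 1 < p) : 1 < rr p := by
  unfold rr
  apply Real.one_lt_rpow (by norm_num)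
  have : 0 < p := by linarith
  positivity

noncomputable def KK (p : ℝ) : ℝ := rr p / (rr p - 1)

theorem KK_ge (p : ℝ) (hp : 1 < p) : 1 ≤ KK p := by
  unfold KK
  have := rr_gt p hp
  rw [le_div_iff₀ (by linarith)]
  linarith

theorem KK_step (p : ℝ) (hp : 1 < p) : KK p + 1 ≤ KK p * rr p := by
  have h := rr_gt p hp
  have h1 : KK p * (rr p - 1) = rr p := by
    unfold KK
    have : rr p - 1 ≠ 0 := by linarith
    field_simp
  nlinarith

theorem rr_pow (p : ℝ) (hp : 1 < p) (N : ℕ) : (rr p ^ N) ^ p = 2 ^ N := by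
  unfold rr
  rw [← Real.rpow_natCast, ← Real.rpow_mul (by positivity), ← Real.rpow_mul (by positivity),
    ← Real.rpow_natCast]
  congr 1
  have : p ≠ 0 := by linarith
  field_simp

theorem upper_bdd (p : ℝ) (hp : 1 < p) (t : ℝ) (ht : 0 ≤ t) (e0 : 𝕜) (e : ℕ → ℕ → 𝕜)
    (h0 : ‖e0‖ ≤ t) (h : ∀ n k, ‖e n k‖ ≤ t * rr p ^ n) (N m : ℕ) :
    ‖val e0 e N m‖ ≤ t * KK p * rr p ^ N := by
  have hr := rr_gt p hp
  induction N generalizing m with
  | zero =>
    simp only [val, pow_zero, mul_one]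
    have := KK_ge p hp
    nlinarith
  | succ N ih =>
    simp only [val]
    have h1 := norm_add_le (val e0 e N (m / 2)) (e N (m / 2) * (rho m : 𝕜))
    have h2 : ‖e N (m / 2) * (rho m : 𝕜)‖ ≤ t * rr p ^ N := by
      rw [norm_mul, RCLike.norm_ofReal, abs_rho, mul_one]
      exact h _ _
    have h3 := ih (m / 2)
    have h4 : (KK p + 1) * rr p ^ N ≤ KK p * rr p ^ (N + 1) := by
      rw [pow_succ]
      have := mul_le_mul_of_nonneg_right (KK_step p hp) (by positivity : 0 ≤ rr p ^ N)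
      linarith
    have h5 := mul_le_mul_of_nonneg_left h4 ht
    nlinarith

theorem upper_disc (p : ℝ) (hp : 1 < p) (t : ℝ) (ht : 0 ≤ t) (e0 : 𝕜) (e : ℕ → ℕ → 𝕜)
    (z0 : ℝ) (z : ℕ → ℕ → ℝ) (hz0 : z0 = 0 ∨ z0 = 1) (hz : ∀ n k, z n k = 0 ∨ z n k = 1)
    (h0 : ‖e0‖ ≤ t * z0) (h : ∀ n k, ‖e n k‖ ≤ t * rr p ^ n * z n k) (N m : ℕ) :
    0 ≤ cnt z0 z N m ∧ ‖val e0 e N m‖ ^ p ≤ 2 * (t * KK p) ^ p * cnt z0 z N m := by
  have hr := rr_gt p hp
  have hK := KK_ge p hp
  have hp0 : 0 < p := by linarith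
  have h0' : ‖e0‖ ≤ t := by
    rcases hz0 with hh | hh <;> rw [hh] at h0 <;> nlinarith
  have h' : ∀ n k, ‖e n k‖ ≤ t * rr p ^ n := by
    intro n k
    have h1 := h n k
    have h2 : 0 ≤ t * rr p ^ n := by positivity
    rcases hz n k with hh | hh <;> rw [hh] at h1 <;> nlinarith
  induction N generalizing m with
  | zero =>
    simp only [val, cnt]
    rcases hz0 with hh | hh
    · rw [hh] at h0 ⊢
      have : ‖e0‖ = 0 := le_antisymm (by linarith) (norm_nonneg _)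
      rw [this, Real.zero_rpow hp0.ne']
      simp
    · rw [hh]
      refine ⟨by norm_num, ?_⟩
      have h1 : ‖e0‖ ^ p ≤ (t * KK p) ^ p :=
        Real.rpow_le_rpow (norm_nonneg _) (by nlinarith) hp0.le
      have : 0 ≤ (t * KK p) ^ p := by positivity
      linarith
  | succ N ih =>
    have hc : 0 ≤ (t * KK p) ^ p := by positivity
    rcases hz N (m / 2) with hh | hh
    · have h1 : e N (m / 2) = 0 := by
        have := h N (m / 2)
        rw [hh, mul_zero] at this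
        exact norm_le_zero_iff.1 this
      simp only [val, cnt, h1, hh, zero_mul, mul_zero, add_zero]
      exact ih (m / 2)
    · have h1 := (ih (m / 2)).1
      have h2 := upper_bdd p hp t ht e0 e h0' h' (N + 1) m
      have h3 : ‖val e0 e (N + 1) m‖ ^ p ≤ (t * KK p) ^ p * 2 ^ (N + 1) := by
        rw [← rr_pow p hp, ← Real.mul_rpow (by positivity) (by positivity)]
        exact Real.rpow_le_rpow (norm_nonneg _) h2 hp0.le
      simp only [cnt, hh, mul_one]
      refine ⟨by positivity, ?_⟩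
      refine h3.trans ?_
      rw [pow_succ]
      nlinarith [mul_nonneg hc h1]

theorem upper_disc_sum (p : ℝ) (hp : 1 < p) (t : ℝ) (ht : 0 ≤ t) (e0 : 𝕜) (e : ℕ → ℕ → 𝕜)
    (z0 : ℝ) (z : ℕ → ℕ → ℝ) (hz0 : z0 = 0 ∨ z0 = 1) (hz : ∀ n k, z n k = 0 ∨ z n k = 1)
    (h0 : ‖e0‖ ≤ t * z0) (h : ∀ n k, ‖e n k‖ ≤ t * rr p ^ n * z n k) (N : ℕ) :
    (∑ m ∈ Finset.range (2 ^ N), ‖val e0 e N m‖ ^ p) / 2 ^ N
      ≤ 2 * (t * KK p) ^ p * (z0 + ∑ n ∈ Finset.range N, ∑ k ∈ Finset.range (2 ^ n), z n k) := by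
  have h1 : ∑ m ∈ Finset.range (2 ^ N), ‖val e0 e N m‖ ^ p
      ≤ ∑ m ∈ Finset.range (2 ^ N), 2 * (t * KK p) ^ p * cnt z0 z N m :=
    Finset.sum_le_sum (fun m _ => (upper_disc p hp t ht e0 e z0 z hz0 hz h0 h N m).2)
  rw [← Finset.mul_sum, cnt_sum] at h1
  rw [div_le_iff₀ (by positivity)]
  linarith

end

end Pool.Agent.V11100.HaarDisc
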