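import Mathlib
import Pool.Agent.V11100.HaarDisc

open Filter Topology MeasureTheory

namespace Pool.Agent.V11100.HaarLp

open Pool.Agent.V11100.HaarDisc

/-- Index set of the Haar system. -/
abbrev Idx : Type := Option (Σ n : ℕ, Fin (2 ^ n))

/-- The `L_p`-normalised Haar functions. -/
noncomputable def haar (p : ℝ) : Idx → ℝ → ℝ
  | none => Set.indicator (Set.Ico 0 1) (fun _ => (1 : ℝ))
  | some ⟨n, k⟩ => fun x => (2 : ℝ) ^ ((n : ℝ) / p) *
      (Set.indicator (Set.Ico ((k : ℝ) / 2 ^ n) (((k : ℝ) + 1 / 2) / 2 ^ n)) (fun _ => (1 : ℝ)) x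
        - Set.indicator (Set.Ico (((k : ℝ) + 1 / 2) / 2 ^ n) (((k : ℝ) + 1) / 2 ^ n))
          (fun _ => (1 : ℝ)) x)

/-- Lebesgue measure on the unit interval. -/
noncomputable abbrev mu : Measure ℝ := volume.restrict (Set.Icc (0 : ℝ) 1)

/-- dyadic floor -/
noncomputable def fl (N : ℕ) (x : ℝ) : ℕ := ⌊(2 : ℝ) ^ N * x⌋₊

theorem fl_zero {x : ℝ} (hx : x ∈ Set.Ico (0 : ℝ) 1) : fl 0 x = 0 := by
  unfold fl
  rw [Nat.floor_eq_zero]
  simpa using hx.2

theorem fl_succ_div (N : ℕ) (x : ℝ) : fl (N + 1) x / 2 = fl N x := by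
  unfold fl
  have := Nat.floor_div_natCast ((2 : ℝ) ^ (N + 1) * x) 2
  rw [← this]
  congr 1
  push_cast
  rw [pow_succ]
  ring

theorem fl_lt {N : ℕ} {x : ℝ} (hx : x ∈ Set.Ico (0 : ℝ) 1) : fl N x < 2 ^ N := by
  unfold fl
  have h0 : 0 ≤ (2 : ℝ) ^ N * x := mul_nonneg (by positivity) hx.1
  rw [Nat.floor_lt h0]
  push_cast
  have : (0 : ℝ) < 2 ^ N := by positivity
  nlinarith [hx.2]

theorem fl_eq_iff {N k : ℕ} {x : ℝ} (hx : 0 ≤ x) :
    fl N x = k ↔ x ∈ Set.Ico ((k : ℝ) / 2 ^ N) (((k : ℝ) + 1) / 2 ^ N) := by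
  unfold fl
  have h0 : 0 ≤ (2 : ℝ) ^ N * x := mul_nonneg (by positivity) hx
  have h1 : (0 : ℝ) < 2 ^ N := by positivity
  rw [Nat.floor_eq_iff h0, Set.mem_Ico, div_le_iff₀ h1, lt_div_iff₀ h1, mul_comm]

theorem fl_measurable (N : ℕ) : Measurable (fl N) := by
  unfold fl
  exact Nat.measurable_floor.comp (measurable_const.mul measurable_id)

/-- Haar functions in terms of floors. -/
theorem haar_some (p : ℝ) (n : ℕ) (k : Fin (2 ^ n)) {x : ℝ} (hx : x ∈ Set.Ico (0 : ℝ) 1) :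
    haar p (some ⟨n, k⟩) x
      = (2 : ℝ) ^ ((n : ℝ) / p) * (if fl n x = k then rho (fl (n + 1) x) else 0) := by
  show (2 : ℝ) ^ ((n : ℝ) / p) * _ = _
  congr 1
  have h2 : (0 : ℝ) < 2 ^ n := by positivity
  have e1 : x ∈ Set.Ico ((k : ℝ) / 2 ^ n) (((k : ℝ) + 1 / 2) / 2 ^ n)
      ↔ fl (n + 1) x = 2 * (k : ℕ) := by
    rw [fl_eq_iff hx.1]
    have a1 : ((2 * (k : ℕ) : ℕ) : ℝ) / 2 ^ (n + 1) = (k : ℝ) / 2 ^ n := by
      push_cast; rw [pow_succ]; field_simp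
    have a2 : (((2 * (k : ℕ) : ℕ) : ℝ) + 1) / 2 ^ (n + 1) = ((k : ℝ) + 1 / 2) / 2 ^ n := by
      push_cast; rw [pow_succ]; field_simp
    rw [a1, a2]
  have e2 : x ∈ Set.Ico (((k : ℝ) + 1 / 2) / 2 ^ n) (((k : ℝ) + 1) / 2 ^ n)
      ↔ fl (n + 1) x = 2 * (k : ℕ) + 1 := by
    rw [fl_eq_iff hx.1]
    have a1 : ((2 * (k : ℕ) + 1 : ℕ) : ℝ) / 2 ^ (n + 1) = ((k : ℝ) + 1 / 2) / 2 ^ n := by
      push_cast; rw [pow_succ]; field_simp
    have a2 : (((2 * (k : ℕ) + 1 : ℕ) : ℝ) + 1) / 2 ^ (n + 1) = ((k : ℝ) + 1) / 2 ^ n := by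
      push_cast; rw [pow_succ]; field_simp; ring
    rw [a1, a2]
  have e3 := fl_succ_div n x
  simp only [Set.indicator_apply, e1, e2]
  by_cases h1 : fl (n + 1) x = 2 * (k : ℕ)
  · have h3 : fl n x = k := by omega
    have h4 : ¬ fl (n + 1) x = 2 * (k : ℕ) + 1 := by omega
    rw [if_pos h1, if_neg h4, if_pos h3, h1, rho_even]
    norm_num
  · by_cases h4 : fl (n + 1) x = 2 * (k : ℕ) + 1
    · have h3 : fl n x = k := by omega
      rw [if_neg h1, if_pos h4, if_pos h3, h4, rho_odd]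
      norm_num
    · have h3 : ¬ fl n x = k := by omega
      rw [if_neg h1, if_neg h4, if_neg h3]
      norm_num

theorem haar_none (p : ℝ) {x : ℝ} (hx : x ∈ Set.Ico (0 : ℝ) 1) : haar p none x = 1 := by
  show Set.indicator (Set.Ico (0 : ℝ) 1) (fun _ => (1 : ℝ)) x = 1
  rw [Set.indicator_of_mem hx]

theorem ae_mem : ∀ᵐ x ∂mu, x ∈ Set.Ico (0 : ℝ) 1 := by
  have h : mu = volume.restrict (Set.Ico (0 : ℝ) 1) := by
    unfold mu
    exact (restrict_Ico_eq_restrict_Icc).symm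
  rw [h]
  exact ae_restrict_mem measurableSet_Ico

theorem integral_fl {E : Type*} [NormedAddCommGroup E] [NormedSpace ℝ E] [CompleteSpace E]
    (N : ℕ) (F : ℕ → E) :
    ∫ x, F (fl N x) ∂mu = ((2 : ℝ) ^ N)⁻¹ • ∑ m ∈ Finset.range (2 ^ N), F m := by
  have h : mu = volume.restrict (Set.Ico (0 : ℝ) 1) := by
    unfold mu
    exact (restrict_Ico_eq_restrict_Icc).symm
  rw [h]
  have h2 : (0 : ℝ) < 2 ^ N := by positivity
  have hun : Set.Ico (0 : ℝ) 1 = ⋃ m ∈ Finset.range (2 ^ N),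
      Set.Ico ((m : ℝ) / 2 ^ N) (((m : ℝ) + 1) / 2 ^ N) := by
    ext x
    simp only [Set.mem_iUnion, Finset.mem_range, exists_prop]
    constructor
    · intro hx
      exact ⟨fl N x, fl_lt hx, (fl_eq_iff hx.1).1 rfl⟩
    · rintro ⟨m, hm, hx⟩
      have hx0 : 0 ≤ x := le_trans (by positivity) hx.1
      refine ⟨hx0, ?_⟩
      have : ((m : ℝ) + 1) / 2 ^ N ≤ 1 := by
        rw [div_le_one h2]
        have : m + 1 ≤ 2 ^ N := hm
        exact_mod_cast this
      exact lt_of_lt_of_le hx.2 this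
  have hcongr : ∀ m : ℕ, Set.EqOn (fun x => F (fl N x)) (fun _ => F m)
      (Set.Ico ((m : ℝ) / 2 ^ N) (((m : ℝ) + 1) / 2 ^ N)) := by
    intro m x hx
    have hx0 : 0 ≤ x := le_trans (by positivity) hx.1
    simp only [(fl_eq_iff hx0).2 hx]
  rw [hun, integral_biUnion_finset]
  · rw [Finset.smul_sum]
    apply Finset.sum_congr rfl
    intro m _
    rw [setIntegral_congr_fun measurableSet_Ico (hcongr m), setIntegral_const]
    congr 1
    rw [Measure.real, Real.volume_Ico, ENNReal.toReal_ofReal]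
    · field_simp; ring
    · field_simp; norm_num
  · intro m _
    exact measurableSet_Ico
  · intro i _ j _ hij
    show Disjoint _ _
    rw [Set.disjoint_left]
    intro x hx hx'
    have hx0 : 0 ≤ x := le_trans (by positivity) hx.1
    exact hij (((fl_eq_iff hx0).2 hx).symm.trans ((fl_eq_iff hx0).2 hx'))
  · intro m _
    rw [integrableOn_congr_fun (hcongr m) measurableSet_Ico]
    exact integrableOn_const (by simp)

/-! ### Elements of `L_p` -/

section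

variable {𝕜 : Type*} [RCLike 𝕜]

theorem step_memLp (P : ENNReal) (N : ℕ) (F : ℕ → 𝕜) : MemLp (fun x => F (fl N x)) P mu := by
  have hm : AEStronglyMeasurable (fun x => F (fl N x)) mu :=
    ((Measurable.of_discrete (f := F)).comp (fl_measurable N)).aestronglyMeasurable
  refine MemLp.of_bound hm (∑ m ∈ Finset.range (2 ^ N), ‖F m‖) ?_
  filter_upwards [ae_mem] with x hx
  exact Finset.single_le_sum (f := fun m => ‖F m‖) (fun _ _ => norm_nonneg _)
    (Finset.mem_range.2 (fl_lt hx))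

/-- Step functions as elements of `L_p`. -/
noncomputable def step (P : ENNReal) (N : ℕ) (F : ℕ → 𝕜) : Lp 𝕜 P mu := (step_memLp P N F).toLp

theorem coe_step (P : ENNReal) (N : ℕ) (F : ℕ → 𝕜) :
    (step P N F : ℝ → 𝕜) =ᵐ[mu] fun x => F (fl N x) := MemLp.coeFn_toLp _

/-- the value function of a Haar function -/
noncomputable def psi (p : ℝ) : Idx → ℕ → ℝ
  | none => fun _ => 1
  | some ⟨n, k⟩ => fun m => (2 : ℝ) ^ ((n : ℝ) / p) * (if m / 2 = k then rho m else 0)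

/-- level -/
def lev : Idx → ℕ
  | none => 0
  | some ⟨n, _⟩ => n + 1

theorem haar_psi (p : ℝ) (j : Idx) {x : ℝ} (hx : x ∈ Set.Ico (0 : ℝ) 1) :
    haar p j x = psi p j (fl (lev j) x) := by
  rcases j with _ | ⟨n, k⟩
  · exact haar_none p hx
  · rw [haar_some p n k hx]
    show _ = (2 : ℝ) ^ ((n : ℝ) / p) * (if fl (n + 1) x / 2 = k then rho (fl (n + 1) x) else 0)
    rw [fl_succ_div]

/-- Haar functions as elements of `L_p`. -/
noncomputable def hh (𝕜 : Type*) [RCLike 𝕜] (P : ENNReal) (p : ℝ) (j : Idx) : Lp 𝕜 P mu :=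
  step P (lev j) (fun m => ((psi p j m : ℝ) : 𝕜))

theorem coe_hh (P : ENNReal) (p : ℝ) (j : Idx) :
    (hh 𝕜 P p j : ℝ → 𝕜) =ᵐ[mu] fun x => ((haar p j x : ℝ) : 𝕜) := by
  filter_upwards [coe_step P (lev j) (fun m => ((psi p j m : ℝ) : 𝕜)), ae_mem] with x h1 hx
  show (step P (lev j) (fun m => ((psi p j m : ℝ) : 𝕜)) : ℝ → 𝕜) x = _
  rw [h1, haar_psi p j hx]

theorem norm_rpow (p : ℝ) (hp : 1 < p) (f : Lp 𝕜 (ENNReal.ofReal p) mu) :
    ‖f‖ ^ p = ∫ x, ‖f x‖ ^ p ∂mu := by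
  have hp0 : 0 < p := by linarith
  rw [Lp.norm_def, (Lp.memLp f).eLpNorm_eq_integral_rpow_norm (by simpa using hp0) (by simp)]
  rw [ENNReal.toReal_ofReal (by positivity), ENNReal.toReal_ofReal hp0.le]
  have h0 : 0 ≤ ∫ x, ‖f x‖ ^ p ∂mu := integral_nonneg (fun x => by positivity)
  rw [← Real.rpow_mul h0, inv_mul_cancel₀ hp0.ne', Real.rpow_one]

theorem norm_step (p : ℝ) (hp : 1 < p) (N : ℕ) (F : ℕ → 𝕜) (f : Lp 𝕜 (ENNReal.ofReal p) mu)
    (hf : (f : ℝ → 𝕜) =ᵐ[mu] fun x => F (fl N x)) :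
    ‖f‖ ^ p = (∑ m ∈ Finset.range (2 ^ N), ‖F m‖ ^ p) / 2 ^ N := by
  rw [norm_rpow p hp f]
  have h1 : ∫ x, ‖f x‖ ^ p ∂mu = ∫ x, (fun m => ‖F m‖ ^ p) (fl N x) ∂mu := by
    apply integral_congr_ae
    filter_upwards [hf] with x hx
    rw [hx]
  rw [h1, integral_fl N (fun m => ‖F m‖ ^ p), smul_eq_mul, inv_mul_eq_div]

/-- All indices of level at most `N`. -/
def allN (N : ℕ) : Finset Idx :=
  Finset.insertNone ((Finset.range N).sigma (fun _ => Finset.univ))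

theorem mem_allN (N : ℕ) (j : Idx) : j ∈ allN N ↔ lev j ≤ N := by
  unfold allN
  rcases j with _ | ⟨n, k⟩
  · simp [lev]
  · simp only [lev, Finset.mem_insertNone, Option.mem_def, Option.some.injEq, forall_eq',
      Finset.mem_sigma, Finset.mem_range, Finset.mem_univ, and_true]
    omega

theorem exists_allN (D : Finset Idx) : ∃ N, D ⊆ allN N := by
  refine ⟨D.sup lev, fun j hj => ?_⟩
  rw [mem_allN]
  exact Finset.le_sup hj

theorem sum_allN {E : Type*} [AddCommMonoid E] (N : ℕ) (g : Idx → E) :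
    ∑ j ∈ allN N, g j = g none + ∑ n ∈ Finset.range N, ∑ k : Fin (2 ^ n), g (some ⟨n, k⟩) := by
  unfold allN
  rw [Finset.sum_insertNone, Finset.sum_sigma]

/-- the difference functions of a Haar polynomial -/
noncomputable def ee (p : ℝ) (c : Idx → 𝕜) (n k : ℕ) : 𝕜 :=
  if h : k < 2 ^ n then c (some ⟨n, ⟨k, h⟩⟩) * (((2 : ℝ) ^ ((n : ℝ) / p) : ℝ) : 𝕜) else 0

theorem val_eq_sum (e0 : 𝕜) (e : ℕ → ℕ → 𝕜) (N : ℕ) (x : ℝ) :
    val e0 e N (fl N x)
      = e0 + ∑ n ∈ Finset.range N, e n (fl n x) * ((rho (fl (n + 1) x) : ℝ) : 𝕜) := by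
  induction N with
  | zero => simp [val]
  | succ N ih =>
    rw [val, fl_succ_div, ih, Finset.sum_range_succ, add_assoc]

theorem poly_eq (p : ℝ) (c : Idx → 𝕜) (N : ℕ) {x : ℝ} (hx : x ∈ Set.Ico (0 : ℝ) 1) :
    ∑ j ∈ allN N, c j * ((haar p j x : ℝ) : 𝕜) = val (c none) (ee p c) N (fl N x) := by
  rw [val_eq_sum, sum_allN, haar_none p hx]
  simp only [RCLike.ofReal_one, mul_one]
  congr 1
  apply Finset.sum_congr rfl
  intro n _
  rw [Finset.sum_eq_single (⟨fl n x, fl_lt hx⟩ : Fin (2 ^ n))]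
  · rw [haar_some p n _ hx]
    unfold ee
    rw [dif_pos (fl_lt hx)]
    simp only [if_true]
    push_cast
    ring
  · intro k _ hk
    rw [haar_some p n k hx]
    have : ¬ fl n x = k := by
      intro h
      apply hk
      ext
      exact h.symm
    rw [if_neg this]
    simp
  · intro h
    exact absurd (Finset.mem_univ _) h

theorem coe_sum (P : ENNReal) (p : ℝ) (D : Finset Idx) (c : Idx → 𝕜) :
    ((∑ j ∈ D, c j • hh 𝕜 P p j : Lp 𝕜 P mu) : ℝ → 𝕜)
      =ᵐ[mu] fun x => ∑ j ∈ D, c j * ((haar p j x : ℝ) : 𝕜) := by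
  classical
  induction D using Finset.induction_on with
  | empty =>
    simp only [Finset.sum_empty]
    exact Lp.coeFn_zero _ _ _
  | insert j D hj ih =>
    rw [Finset.sum_insert hj]
    filter_upwards [Lp.coeFn_add (c j • hh 𝕜 P p j) (∑ j ∈ D, c j • hh 𝕜 P p j),
      Lp.coeFn_smul (c j) (hh 𝕜 P p j), coe_hh (𝕜 := 𝕜) P p j, ih] with x h1 h2 h3 h4
    rw [h1, Finset.sum_insert hj, Pi.add_apply, h2, h4, Pi.smul_apply, h3, smul_eq_mul]

theorem coe_poly (P : ENNReal) (p : ℝ) (N : ℕ) (c : Idx → 𝕜) :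
    ((∑ j ∈ allN N, c j • hh 𝕜 P p j : Lp 𝕜 P mu) : ℝ → 𝕜)
      =ᵐ[mu] fun x => val (c none) (ee p c) N (fl N x) := by
  filter_upwards [coe_sum P p (allN N) c, ae_mem] with x h1 hx
  rw [h1, poly_eq p c N hx]

theorem norm_poly (p : ℝ) (hp : 1 < p) (N : ℕ) (c : Idx → 𝕜) :
    ‖∑ j ∈ allN N, c j • hh 𝕜 (ENNReal.ofReal p) p j‖ ^ p
      = (∑ m ∈ Finset.range (2 ^ N), ‖val (c none) (ee p c) N m‖ ^ p) / 2 ^ N :=
  norm_step p hp N _ _ (coe_poly (ENNReal.ofReal p) p N c)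

theorem sum_restrict (P : ENNReal) (p : ℝ) (D E : Finset Idx) (hDE : D ⊆ E) (c : Idx → 𝕜) :
    ∑ j ∈ D, c j • hh 𝕜 P p j = ∑ j ∈ E, (if j ∈ D then c j else 0) • hh 𝕜 P p j := by
  simp only [ite_smul, zero_smul]
  rw [Finset.sum_ite_mem, Finset.inter_eq_right.2 hDE]

/-- unconditionality of Haar polynomials -/
theorem uncond_poly (p : ℝ) (hp : 1 < p) (N : ℕ) (c : Idx → 𝕜) (D : Finset Idx)
    (hD : D ⊆ allN N) :
    ‖∑ j ∈ D, c j • hh 𝕜 (ENNReal.ofReal p) p j‖ ^ p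
      ≤ C1 p * ‖∑ j ∈ allN N, c j • hh 𝕜 (ENNReal.ofReal p) p j‖ ^ p := by
  rw [sum_restrict _ p D (allN N) hD c, norm_poly p hp, norm_poly p hp]
  set u : Idx → 𝕜 := fun j => if j ∈ D then c j else 0 with hu
  set v : Idx → 𝕜 := fun j => if j ∈ D then 0 else c j with hv
  have huv : ∀ j, u j + v j = c j := by
    intro j; rw [hu, hv]; simp only; split_ifs <;> simp
  have h1 := uncond_disc p hp (u none) (v none) (ee p u) (ee p v)
    (by rw [hu, hv]; simp only; split_ifs <;> simp)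
    (by
      intro n k
      unfold ee
      by_cases h : k < 2 ^ n
      · rw [dif_pos h, dif_pos h, hu, hv]
        simp only
        split_ifs <;> simp
      · left; rw [dif_neg h]) N
  have h2 : ∀ m, val (u none) (ee p u) N m + val (v none) (ee p v) N m
      = val (c none) (ee p c) N m := by
    intro m
    rw [← val_add, huv]
    congr 1
    funext n k
    unfold ee
    by_cases h : k < 2 ^ n
    · rw [dif_pos h, dif_pos h, dif_pos h, ← add_mul, huv]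
    · rw [dif_neg h, dif_neg h, dif_neg h, add_zero]
  simp only [h2] at h1
  rw [mul_div_assoc']
  exact div_le_div_of_nonneg_right h1 (by positivity)

/-- upper democracy -/
theorem upper_poly (p : ℝ) (hp : 1 < p) (Z : Finset Idx) (c : Idx → 𝕜) (t : ℝ) (ht : 0 ≤ t)
    (hc : ∀ j ∈ Z, ‖c j‖ ≤ t) :
    ‖∑ j ∈ Z, c j • hh 𝕜 (ENNReal.ofReal p) p j‖ ^ p ≤ 2 * (t * KK p) ^ p * Z.card := by
  obtain ⟨N, hN⟩ := exists_allN Z
  rw [sum_restrict _ p Z (allN N) hN c, norm_poly p hp]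
  set u : Idx → 𝕜 := fun j => if j ∈ Z then c j else 0 with hu
  have hut : ∀ j, ‖u j‖ ≤ t * (if j ∈ Z then 1 else 0) := by
    intro j
    rw [hu]
    simp only
    split_ifs with h
    · simpa using hc j h
    · simp
  have h1 := upper_disc_sum p hp t ht (u none) (ee p u) (if none ∈ Z then 1 else 0)
    (fun n k => if h : k < 2 ^ n then (if (some ⟨n, ⟨k, h⟩⟩ : Idx) ∈ Z then 1 else 0) else 0)
    (by split_ifs <;> simp)
    (by intro n k; by_cases h : k < 2 ^ n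
        · rw [dif_pos h]; split_ifs <;> simp
        · rw [dif_neg h]; simp)
    (hut none)
    (by
      intro n k
      unfold ee
      by_cases h : k < 2 ^ n
      · rw [dif_pos h, dif_pos h, norm_mul, RCLike.norm_ofReal, abs_of_pos (by positivity)]
        have e1 : (2 : ℝ) ^ ((n : ℝ) / p) = rr p ^ n := by
          unfold rr
          rw [← Real.rpow_natCast, ← Real.rpow_mul (by norm_num)]
          congr 1; ring
        rw [e1]
        have := hut (some ⟨n, ⟨k, h⟩⟩)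
        have h3 : 0 ≤ rr p ^ n := by
          have := rr_gt p hp
          positivity
        have h4 := mul_le_mul_of_nonneg_right this h3
        linarith
      · rw [dif_neg h, dif_neg h]; simp) N
  refine h1.trans (le_of_eq ?_)
  congr 1
  have h5 : (Z.card : ℝ) = ∑ j ∈ allN N, (if j ∈ Z then (1 : ℝ) else 0) := by
    rw [Finset.sum_ite_mem, Finset.inter_eq_right.2 hN]
    simp
  rw [h5, sum_allN]
  congr 1
  apply Finset.sum_congr rfl
  intro n _
  rw [← Fin.sum_univ_eq_sum_range (fun k => if h : k < 2 ^ n then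
    (if (some ⟨n, ⟨k, h⟩⟩ : Idx) ∈ Z then (1 : ℝ) else 0) else 0) (2 ^ n)]
  apply Finset.sum_congr rfl
  intro k _
  rw [dif_pos k.2]

end

end Pool.Agent.V11100.HaarLp
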