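import Mathlib

open Filter Topology

namespace Pool.Agent.V11100.OneGreedy

variable (𝕜 : Type*) [RCLike 𝕜] (V : Type*) [AddCommGroup V] [Module 𝕜 V] (ι : Type*)

/-- A biorthogonal system in a normed space whose norm is suppression unconditional and
democratic. -/
structure Sys [DecidableEq ι] where
  x : ι → V
  a : ι → V →ₗ[𝕜] 𝕜
  bi : ∀ i j, a i (x j) = if i = j then 1 else 0
  N : V → ℝ
  N_nonneg : ∀ f, 0 ≤ N f
  N_smul : ∀ (c : 𝕜) f, N (c • f) = ‖c‖ * N f
  N_add : ∀ f g, N (f + g) ≤ N f + N g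
  N_eq_zero : ∀ f, N f = 0 → f = 0
  supp : ∀ (D : Finset ι) f, N (f - ∑ j ∈ D, a j f • x j) ≤ N f
  φ : ℕ → ℝ
  φ_mono : Monotone φ
  upper : ∀ (Z : Finset ι) (c : ι → 𝕜) (t : ℝ), 0 ≤ t → (∀ j ∈ Z, ‖c j‖ ≤ t) →
    N (∑ j ∈ Z, c j • x j) ≤ t * φ Z.card
  K : ℝ
  K_nonneg : 0 ≤ K
  lower : ∀ (A : Finset ι) (f : V) (t : ℝ), 0 ≤ t → (∀ j ∈ A, t ≤ ‖a j f‖) →
    t * φ A.card ≤ K * N f
  fin : ∀ (f : V) (t : ℝ), 0 < t → {j | t ≤ ‖a j f‖}.Finite

variable {𝕜 V ι} [DecidableEq ι] (s : Sys 𝕜 V ι)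

namespace Sys

/-- The rest operator. -/
noncomputable def R (D : Finset ι) (f : V) : V := f - ∑ j ∈ D, s.a j f • s.x j

/-- Finite combinations. -/
noncomputable def S (D : Finset ι) (c : ι → 𝕜) : V := ∑ j ∈ D, c j • s.x j

theorem a_S (D : Finset ι) (c : ι → 𝕜) (i : ι) : s.a i (s.S D c) = if i ∈ D then c i else 0 := by
  unfold S
  rw [map_sum]
  simp only [map_smul, s.bi, smul_eq_mul, mul_ite, mul_one, mul_zero]
  rw [Finset.sum_ite_eq]

theorem a_R (D : Finset ι) (f : V) (i : ι) : s.a i (s.R D f) = if i ∈ D then 0 else s.a i f := by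
  have h : s.R D f = f - s.S D (fun j => s.a j f) := rfl
  rw [h, map_sub, a_S]
  split_ifs <;> simp

theorem R_add (D : Finset ι) (f g : V) : s.R D (f + g) = s.R D f + s.R D g := by
  unfold R
  simp only [map_add, add_smul, Finset.sum_add_distrib]
  abel

theorem R_sub (D : Finset ι) (f g : V) : s.R D (f - g) = s.R D f - s.R D g := by
  unfold R
  simp only [map_sub, sub_smul, Finset.sum_sub_distrib]
  abel

theorem R_smul (D : Finset ι) (c : 𝕜) (f : V) : s.R D (c • f) = c • s.R D f := by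
  unfold R
  simp only [map_smul, smul_sub, Finset.smul_sum, smul_smul, smul_eq_mul]

theorem S_split (B A : Finset ι) (c : ι → 𝕜) : s.S B c = s.S (B \ A) c + s.S (B ∩ A) c := by
  unfold S
  rw [← Finset.sum_union]
  · rw [Finset.sdiff_union_inter]
  · exact Finset.disjoint_sdiff_inter B A

theorem S_union {A B : Finset ι} (h : Disjoint A B) (c : ι → 𝕜) :
    s.S (A ∪ B) c = s.S A c + s.S B c := by
  unfold S
  rw [Finset.sum_union h]

theorem S_congr {A : Finset ι} {c d : ι → 𝕜} (h : ∀ j ∈ A, c j = d j) : s.S A c = s.S A d := by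
  unfold S
  exact Finset.sum_congr rfl (fun j hj => by rw [h j hj])

theorem R_S (A B : Finset ι) (c : ι → 𝕜) : s.R A (s.S B c) = s.S (B \ A) c := by
  have h1 : ∑ j ∈ A, s.a j (s.S B c) • s.x j = s.S (B ∩ A) c := by
    simp only [a_S, ite_smul, zero_smul]
    unfold S
    rw [← Finset.sum_filter]
    congr 1
    ext j; simp only [Finset.mem_filter, Finset.mem_inter]; tauto
  show s.S B c - ∑ j ∈ A, s.a j (s.S B c) • s.x j = _
  rw [h1, s.S_split B A c]
  abel

theorem R_eq (D : Finset ι) (f : V) : s.R D f = f - s.S D (fun j => s.a j f) := rfl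

theorem R_union_disj {A B : Finset ι} (h : Disjoint A B) (f : V) :
    s.R (A ∪ B) f = s.R A f - s.S B (fun j => s.a j f) := by
  rw [R_eq, R_eq, s.S_union h]
  abel

theorem R_R (A B : Finset ι) (f : V) : s.R A (s.R B f) = s.R (A ∪ B) f := by
  have h1 : s.R A (s.R B f) = s.R B f - s.S A (fun j => s.a j (s.R B f)) := rfl
  have h2 : s.S A (fun j => s.a j (s.R B f)) = s.S (A \ B) (fun j => s.a j f) := by
    rw [s.S_split A B]
    have e1 : s.S (A \ B) (fun j => s.a j (s.R B f)) = s.S (A \ B) (fun j => s.a j f) := by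
      apply S_congr
      intro j hj
      rw [Finset.mem_sdiff] at hj
      simp only [a_R, if_neg hj.2]
    have e2 : s.S (A ∩ B) (fun j => s.a j (s.R B f)) = 0 := by
      unfold S
      apply Finset.sum_eq_zero
      intro j hj
      rw [Finset.mem_inter] at hj
      simp only [a_R, if_pos hj.2, zero_smul]
    rw [e1, e2, add_zero]
  rw [h1, h2, ← s.R_union_disj Finset.disjoint_sdiff, Finset.union_sdiff_self_eq_union,
    Finset.union_comm]

theorem N_zero : s.N 0 = 0 := by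
  have := s.N_smul 0 0
  simpa using this

/-- The (finite) set of large coefficients. -/
noncomputable def L (t : ℝ) (f : V) : Finset ι :=
  if h : 0 < t then (s.fin f t h).toFinset else ∅

theorem mem_L {t : ℝ} (ht : 0 < t) (f : V) (j : ι) : j ∈ s.L t f ↔ t ≤ ‖s.a j f‖ := by
  unfold L
  rw [dif_pos ht]
  simp

theorem exists_L_empty (f : V) : ∃ t : ℝ, 0 < t ∧ s.L t f = ∅ := by
  have hnn : 0 ≤ ∑ j ∈ s.L 1 f, ‖s.a j f‖ := Finset.sum_nonneg (fun _ _ => norm_nonneg _)
  refine ⟨1 + ∑ j ∈ s.L 1 f, ‖s.a j f‖, by linarith, ?_⟩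
  ext j
  rw [s.mem_L (by linarith)]
  simp only [Finset.notMem_empty, iff_false, not_le]
  by_cases hj : j ∈ s.L 1 f
  · have := Finset.single_le_sum (f := fun j => ‖s.a j f‖) (fun _ _ => norm_nonneg _) hj
    linarith
  · rw [s.mem_L one_pos] at hj
    push Not at hj
    linarith

/-- The set of values entering the definition of `Q`. -/
def vals (f : V) : Set ℝ :=
  {r | ∃ (t : ℝ) (Z : Finset ι) (c : ι → 𝕜), 0 < t ∧ Z.card ≤ (s.L t f).card ∧
    (∀ j ∈ Z, ‖c j‖ ≤ t) ∧ r = s.N (s.R (Z ∪ s.L t f) f + s.S Z c)}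

/-- The new quasi-norm. -/
noncomputable def Q (f : V) : ℝ := sSup (s.vals f)

theorem N_R_le (D : Finset ι) (f : V) : s.N (s.R D f) ≤ s.N f := s.supp D f

theorem N_S_le {Z : Finset ι} {c : ι → 𝕜} {t : ℝ} (ht : 0 ≤ t) (hc : ∀ j ∈ Z, ‖c j‖ ≤ t)
    {n : ℕ} (hn : Z.card ≤ n) : s.N (s.S Z c) ≤ t * s.φ n :=
  (s.upper Z c t ht hc).trans (mul_le_mul_of_nonneg_left (s.φ_mono hn) ht)

theorem lower_L {t : ℝ} (ht : 0 < t) (f : V) : t * s.φ (s.L t f).card ≤ s.K * s.N f :=
  s.lower _ f t ht.le (fun j hj => (s.mem_L ht f j).1 hj)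

theorem vals_le {f : V} {r : ℝ} (hr : r ∈ s.vals f) : r ≤ (1 + s.K) * s.N f := by
  obtain ⟨t, Z, c, ht, hZ, hc, rfl⟩ := hr
  have h1 := s.N_add (s.R (Z ∪ s.L t f) f) (s.S Z c)
  have h2 := s.N_R_le (Z ∪ s.L t f) f
  have h3 := s.N_S_le ht.le hc hZ
  have h4 := s.lower_L ht f
  nlinarith

theorem bdd (f : V) : BddAbove (s.vals f) := ⟨_, fun _ hr => s.vals_le hr⟩

theorem N_mem (f : V) : s.N f ∈ s.vals f := by
  obtain ⟨t, ht, h⟩ := s.exists_L_empty f
  refine ⟨t, ∅, 0, ht, by simp, by simp, ?_⟩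
  rw [h]
  simp [R, S]

theorem nonempty (f : V) : (s.vals f).Nonempty := ⟨_, s.N_mem f⟩

theorem N_le_Q (f : V) : s.N f ≤ s.Q f := le_csSup (s.bdd f) (s.N_mem f)

theorem Q_le (f : V) : s.Q f ≤ (1 + s.K) * s.N f :=
  csSup_le (s.nonempty f) (fun _ hr => s.vals_le hr)

theorem Q_nonneg (f : V) : 0 ≤ s.Q f := (s.N_nonneg f).trans (s.N_le_Q f)

theorem Q_zero : s.Q 0 = 0 := by
  apply le_antisymm _ (s.Q_nonneg 0)
  have := s.Q_le 0
  rwa [s.N_zero, mul_zero] at this

theorem Q_eq_zero (f : V) : s.Q f = 0 ↔ f = 0 := by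
  constructor
  · intro h
    apply s.N_eq_zero
    exact le_antisymm ((s.N_le_Q f).trans h.le) (s.N_nonneg f)
  · rintro rfl
    exact s.Q_zero

theorem Q_smul_le (lam : 𝕜) (hl : lam ≠ 0) (f : V) : s.Q (lam • f) ≤ ‖lam‖ * s.Q f := by
  apply csSup_le (s.nonempty _)
  rintro r ⟨t, Z, c, ht, hZ, hc, rfl⟩
  have hl' : 0 < ‖lam‖ := norm_pos_iff.2 hl
  have ht' : 0 < t / ‖lam‖ := by positivity
  have hL : s.L t (lam • f) = s.L (t / ‖lam‖) f := by
    ext j
    rw [s.mem_L ht, s.mem_L ht', map_smul, smul_eq_mul, norm_mul, div_le_iff₀ hl', mul_comm]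
  have hmem : s.N (s.R (Z ∪ s.L (t / ‖lam‖) f) f + s.S Z (fun j => lam⁻¹ * c j)) ∈ s.vals f := by
    refine ⟨t / ‖lam‖, Z, fun j => lam⁻¹ * c j, ht', by rw [← hL]; exact hZ, ?_, rfl⟩
    intro j hj
    rw [norm_mul, norm_inv, inv_mul_eq_div]
    exact div_le_div_of_nonneg_right (hc j hj) hl'.le
  have hle := le_csSup (s.bdd f) hmem
  have heq : s.R (Z ∪ s.L t (lam • f)) (lam • f) + s.S Z c
      = lam • (s.R (Z ∪ s.L (t / ‖lam‖) f) f + s.S Z (fun j => lam⁻¹ * c j)) := by
    rw [hL, R_smul, smul_add]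
    congr 1
    unfold S
    rw [Finset.smul_sum]
    apply Finset.sum_congr rfl
    intro j _
    rw [smul_smul, mul_inv_cancel_left₀ hl]
  rw [heq, s.N_smul]
  exact mul_le_mul_of_nonneg_left hle hl'.le

theorem Q_smul (lam : 𝕜) (f : V) : s.Q (lam • f) = ‖lam‖ * s.Q f := by
  by_cases hl : lam = 0
  · subst hl
    simp [s.Q_zero]
  · apply le_antisymm (s.Q_smul_le lam hl f)
    have h := s.Q_smul_le lam⁻¹ (inv_ne_zero hl) (lam • f)
    rw [smul_smul, inv_mul_cancel₀ hl, one_smul, norm_inv] at h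
    have hl' : 0 < ‖lam‖ := norm_pos_iff.2 hl
    rwa [inv_mul_eq_div, le_div_iff₀ hl', mul_comm] at h

theorem L_R {t : ℝ} (ht : 0 < t) (D : Finset ι) (f : V) : s.L t (s.R D f) = s.L t f \ D := by
  ext j
  rw [s.mem_L ht, Finset.mem_sdiff, s.mem_L ht, a_R]
  split_ifs with h
  · simp [h, ht]
  · simp [h]

theorem Q_R_le (D : Finset ι) (f : V) : s.Q (s.R D f) ≤ s.Q f := by
  apply csSup_le (s.nonempty _)
  rintro r ⟨t, Z, c, ht, hZ, hc, rfl⟩
  have hmem : s.N (s.R (Z ∪ s.L t f) f + s.S Z c) ∈ s.vals f := by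
    refine ⟨t, Z, c, ht, hZ.trans ?_, hc, rfl⟩
    rw [s.L_R ht]
    exact Finset.card_le_card Finset.sdiff_subset
  refine le_trans ?_ (le_csSup (s.bdd f) hmem)
  have heq : s.R (Z ∪ s.L t (s.R D f)) (s.R D f) + s.S Z c
      = s.R (D \ Z) (s.R (Z ∪ s.L t f) f + s.S Z c) := by
    rw [R_add, R_R, R_R, R_S, s.L_R ht]
    congr 2
    · ext j; simp only [Finset.mem_union, Finset.mem_sdiff]; tauto
    · ext j; simp only [Finset.mem_sdiff]; tauto
  rw [heq]
  exact s.N_R_le _ _

/-- The modulus of continuity estimate. -/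
theorem Q_modulus (f g : V) (δ : ℝ) (hδ : 0 < δ) (hδ2 : δ ≤ 1 / 2) :
    s.Q (f + g) ≤ s.Q f + s.N g + 2 * δ * s.K * s.N f + δ⁻¹ * s.K * s.N g := by
  apply csSup_le (s.nonempty _)
  rintro r ⟨t, Z, c, ht, hZ, hc, rfl⟩
  set L := s.L t (f + g) with hL
  have htf : 0 < (1 - δ) * t := by
    have : 0 < 1 - δ := by linarith
    positivity
  have htg : 0 < δ * t := by positivity
  set Lf := s.L ((1 - δ) * t) f with hLf
  set Lg := s.L (δ * t) g with hLg
  have hsub : L ⊆ Lf ∪ Lg := by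
    intro j hj
    rw [hL, s.mem_L ht] at hj
    rw [Finset.mem_union, hLf, hLg, s.mem_L htf, s.mem_L htg]
    by_contra hcon
    push Not at hcon
    have := norm_add_le (s.a j f) (s.a j g)
    rw [map_add] at hj
    linarith [hcon.1, hcon.2]
  set E := Lf \ (Z ∪ L) with hE
  set D := (Z ∪ L) ∪ E with hD
  have hEZ : Disjoint (Z ∪ L) E := by rw [hE]; exact Finset.disjoint_sdiff
  have hEZ' : Disjoint Z E := Finset.disjoint_of_subset_left Finset.subset_union_left hEZ
  set c' : ι → 𝕜 := fun j => if j ∈ Z then c j else s.a j (f + g) with hc'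
  have hy : s.R (Z ∪ L) (f + g) + s.S Z c = s.R D (f + g) + s.S (Z ∪ E) c' := by
    rw [hD, s.R_union_disj hEZ, s.S_union hEZ']
    have e1 : s.S Z c' = s.S Z c := by
      apply S_congr
      intro j hj
      rw [hc']
      simp [hj]
    have e2 : s.S E c' = s.S E (fun j => s.a j (f + g)) := by
      apply S_congr
      intro j hj
      have : j ∉ Z := fun h => (Finset.disjoint_left.1 hEZ') h hj
      rw [hc']
      simp only [if_neg this]
    rw [e1, e2]
    abel
  have hc'b : ∀ j ∈ Z ∪ E, ‖c' j‖ ≤ t := by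
    intro j hj
    rw [hc']
    by_cases hjZ : j ∈ Z
    · simp only [if_pos hjZ]
      exact hc j hjZ
    · simp only [if_neg hjZ]
      rw [Finset.mem_union] at hj
      have hjE : j ∈ E := by tauto
      rw [hE, Finset.mem_sdiff, Finset.mem_union] at hjE
      have : j ∉ L := by tauto
      rw [hL, s.mem_L ht] at this
      push Not at this
      exact this.le
  have hcard : (Z ∪ E).card ≤ Lf.card + Lg.card := by
    have h1 : (Z ∪ E).card ≤ Z.card + E.card := Finset.card_union_le _ _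
    have h2 : E.card ≤ (Lf \ L).card := by
      apply Finset.card_le_card
      rw [hE]
      intro j hj
      rw [Finset.mem_sdiff, Finset.mem_union] at hj
      rw [Finset.mem_sdiff]
      tauto
    have h3 : L.card + (Lf \ L).card = (L ∪ Lf).card := by
      rw [← Finset.card_union_of_disjoint Finset.disjoint_sdiff, Finset.union_sdiff_self_eq_union]
    have h4 : (L ∪ Lf).card ≤ (Lf ∪ Lg).card := by
      apply Finset.card_le_card
      apply Finset.union_subset hsub Finset.subset_union_left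
    have h5 := Finset.card_union_le Lf Lg
    omega
  -- split
  obtain ⟨W1, hW1, hW1c⟩ : ∃ W1 ⊆ Z ∪ E, W1.card = min Lf.card (Z ∪ E).card :=
    Finset.exists_subset_card_eq (min_le_right _ _)
  set W2 := (Z ∪ E) \ W1 with hW2
  have hW2c : W2.card ≤ Lg.card := by
    rw [hW2, Finset.card_sdiff_of_subset hW1, hW1c]
    omega
  have hW12 : Disjoint W1 W2 := by rw [hW2]; exact Finset.disjoint_sdiff
  have hWu : W1 ∪ W2 = Z ∪ E := by
    rw [hW2, Finset.union_sdiff_self_eq_union]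
    exact Finset.union_eq_right.2 hW1
  have hmem : s.N (s.R (W1 ∪ Lf) f + s.S W1 (fun j => ((1 - δ : ℝ) : 𝕜) * c' j)) ∈ s.vals f := by
    refine ⟨(1 - δ) * t, W1, _, htf, ?_, ?_, rfl⟩
    · rw [hW1c]; exact min_le_left _ _
    · intro j hj
      rw [norm_mul, RCLike.norm_ofReal, abs_of_pos (by linarith : 0 < 1 - δ)]
      exact mul_le_mul_of_nonneg_left (hc'b j (hW1 hj)) (by linarith)
  have hy1 : s.N (s.R D f + s.S W1 (fun j => ((1 - δ : ℝ) : 𝕜) * c' j)) ≤ s.Q f := by
    refine le_trans ?_ (le_csSup (s.bdd f) hmem)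
    have heq : s.R D f + s.S W1 (fun j => ((1 - δ : ℝ) : 𝕜) * c' j)
        = s.R (D \ W1) (s.R (W1 ∪ Lf) f + s.S W1 (fun j => ((1 - δ : ℝ) : 𝕜) * c' j)) := by
      rw [R_add, R_R, R_S]
      congr 2
      · have hW1D : W1 ⊆ D := by
          intro j hj
          have := hW1 hj
          rw [hD]
          simp only [Finset.mem_union] at this ⊢
          tauto
        have hLfD : Lf ⊆ D := by
          intro j hj
          rw [hD, hE]
          simp only [Finset.mem_union, Finset.mem_sdiff]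
          tauto
        ext j
        have h1 := @hW1D j
        have h2 := @hLfD j
        simp only [Finset.mem_union, Finset.mem_sdiff]
        tauto
      · ext j; simp only [Finset.mem_sdiff]; tauto
    rw [heq]
    exact s.N_R_le _ _
  have hsplit : s.R D (f + g) + s.S (Z ∪ E) c'
      = (s.R D f + s.S W1 (fun j => ((1 - δ : ℝ) : 𝕜) * c' j))
        + (s.R D g + (s.S W1 (fun j => ((δ : ℝ) : 𝕜) * c' j) + s.S W2 c')) := by
    rw [← hWu, s.S_union hW12, R_add]
    have : s.S W1 c' = s.S W1 (fun j => ((1 - δ : ℝ) : 𝕜) * c' j)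
        + s.S W1 (fun j => ((δ : ℝ) : 𝕜) * c' j) := by
      unfold S
      rw [← Finset.sum_add_distrib]
      apply Finset.sum_congr rfl
      intro j _
      rw [← add_smul, ← add_mul]
      push_cast
      simp
    rw [this]
    abel
  have hb1 : s.N (s.S W1 (fun j => ((δ : ℝ) : 𝕜) * c' j)) ≤ 2 * δ * s.K * s.N f := by
    have h1 : s.N (s.S W1 (fun j => ((δ : ℝ) : 𝕜) * c' j)) ≤ (δ * t) * s.φ Lf.card := by
      apply s.N_S_le htg.le
      · intro j hj
        rw [norm_mul, RCLike.norm_ofReal, abs_of_pos hδ]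
        exact mul_le_mul_of_nonneg_left (hc'b j (hW1 hj)) hδ.le
      · rw [hW1c]; exact min_le_left _ _
    have h2 : ((1 - δ) * t) * s.φ Lf.card ≤ s.K * s.N f := s.lower_L htf f
    have h3 : 0 ≤ s.K * s.N f := mul_nonneg s.K_nonneg (s.N_nonneg f)
    have h4 : t * s.φ Lf.card ≤ 2 * (s.K * s.N f) := by
      by_cases hneg : t * s.φ Lf.card ≤ 0
      · linarith
      · push Not at hneg
        nlinarith
    calc _ ≤ (δ * t) * s.φ Lf.card := h1
      _ = δ * (t * s.φ Lf.card) := by ring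
      _ ≤ δ * (2 * (s.K * s.N f)) := mul_le_mul_of_nonneg_left h4 hδ.le
      _ = _ := by ring
  have hb2 : s.N (s.S W2 c') ≤ δ⁻¹ * s.K * s.N g := by
    have h1 : s.N (s.S W2 c') ≤ t * s.φ Lg.card := by
      apply s.N_S_le ht.le
      · intro j hj
        apply hc'b j
        rw [← hWu]
        exact Finset.mem_union_right _ hj
      · exact hW2c
    have h2 : (δ * t) * s.φ Lg.card ≤ s.K * s.N g := s.lower_L htg g
    have h3 : t * s.φ Lg.card = δ⁻¹ * ((δ * t) * s.φ Lg.card) := by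
      field_simp
    rw [mul_assoc]
    rw [h3] at h1
    exact h1.trans (mul_le_mul_of_nonneg_left h2 (inv_nonneg.2 hδ.le))
  rw [hy, hsplit]
  have a1 := s.N_add (s.R D f + s.S W1 (fun j => ((1 - δ : ℝ) : 𝕜) * c' j))
    (s.R D g + (s.S W1 (fun j => ((δ : ℝ) : 𝕜) * c' j) + s.S W2 c'))
  have a2 := s.N_add (s.R D g) (s.S W1 (fun j => ((δ : ℝ) : 𝕜) * c' j) + s.S W2 c')
  have a3 := s.N_add (s.S W1 (fun j => ((δ : ℝ) : 𝕜) * c' j)) (s.S W2 c')
  have a4 := s.N_R_le D g
  linarith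

/-- The exponent. -/
noncomputable def expo : ℝ := 1 / (2 * (1 + 3 * s.K))

theorem expo_pos : 0 < s.expo := by
  unfold expo
  have := s.K_nonneg
  positivity

theorem expo_le_half : s.expo ≤ 1 / 2 := by
  unfold expo
  have := s.K_nonneg
  apply one_div_le_one_div_of_le <;> linarith

theorem expo_lt_one : s.expo < 1 := by
  have := s.expo_le_half
  linarith

theorem Q_add_aux (f g : V) (h : s.Q g ≤ s.Q f) :
    s.Q (f + g) ^ s.expo ≤ s.Q f ^ s.expo + s.Q g ^ s.expo := by
  have hK := s.K_nonneg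
  by_cases hg : s.Q g = 0
  · rw [s.Q_eq_zero] at hg
    subst hg
    rw [add_zero, s.Q_zero, Real.zero_rpow s.expo_pos.ne', add_zero]
  have hG : 0 < s.Q g := lt_of_le_of_ne (s.Q_nonneg g) (Ne.symm hg)
  have hF : 0 < s.Q f := lt_of_lt_of_le hG h
  set F := s.Q f with hFdef
  set G := s.Q g with hGdef
  set x := G / F with hx
  have hx0 : 0 < x := by positivity
  have hx1 : x ≤ 1 := by rw [hx, div_le_one hF]; exact h
  set y := Real.sqrt x with hy
  have hy0 : 0 < y := Real.sqrt_pos.2 hx0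
  have hy1 : y ≤ 1 := by rw [hy]; exact Real.sqrt_le_one.2 hx1
  have hyy : y * y = x := Real.mul_self_sqrt hx0.le
  have hxle : x ≤ y := by nlinarith
  have hGx : G = x * F := by rw [hx]; field_simp
  set M := 1 + 3 * s.K with hM
  have hM1 : 1 ≤ M := by linarith
  have hmod := s.Q_modulus f g (y / 2) (by positivity) (by linarith)
  have hNf : s.N f ≤ F := s.N_le_Q f
  have hNg : s.N g ≤ G := s.N_le_Q g
  have hmain : s.Q (f + g) ≤ F * (1 + M * y) := by
    have e1 : 2 * (y / 2) * s.K * s.N f ≤ y * s.K * F := by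
      have : 2 * (y / 2) * s.K * s.N f = y * s.K * s.N f := by ring
      rw [this]
      exact mul_le_mul_of_nonneg_left hNf (by positivity)
    have e2 : (y / 2)⁻¹ * s.K * s.N g ≤ 2 * y * s.K * F := by
      have h1 : (y / 2)⁻¹ * s.K * s.N g ≤ (y / 2)⁻¹ * s.K * G :=
        mul_le_mul_of_nonneg_left hNg (by positivity)
      have h2 : (y / 2)⁻¹ * s.K * G = 2 * y * s.K * F := by
        rw [hGx, ← hyy]
        field_simp
      linarith
    have e3 : G ≤ y * F := by rw [hGx]; exact mul_le_mul_of_nonneg_right hxle hF.le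
    calc s.Q (f + g) ≤ F + G + y * s.K * F + 2 * y * s.K * F := by linarith
      _ ≤ F + y * F + y * s.K * F + 2 * y * s.K * F := by linarith
      _ = F * (1 + M * y) := by rw [hM]; ring
  have hsp := s.expo_pos
  have hMy : (1 + M * y) ^ s.expo ≤ 1 + x ^ s.expo := by
    have b1 : 1 + M * y ≤ (1 + y) ^ M :=
      one_add_mul_self_le_rpow_one_add (by linarith) hM1
    have b2 : (1 + M * y) ^ s.expo ≤ ((1 + y) ^ M) ^ s.expo :=
      Real.rpow_le_rpow (by positivity) b1 hsp.le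
    have b3 : ((1 + y) ^ M) ^ s.expo = (1 + y) ^ (1 / 2 : ℝ) := by
      rw [← Real.rpow_mul (by positivity)]
      congr 1
      unfold expo
      rw [← hM]
      field_simp
    have b4 : (1 + y) ^ (1 / 2 : ℝ) ≤ 1 + y := by
      have := Real.rpow_le_rpow_of_exponent_le (x := 1 + y) (by linarith)
        (show (1 / 2 : ℝ) ≤ 1 by norm_num)
      rwa [Real.rpow_one] at this
    have b5 : y ≤ x ^ s.expo := by
      rw [hy, Real.sqrt_eq_rpow]
      exact Real.rpow_le_rpow_of_exponent_ge hx0 hx1 s.expo_le_half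
    linarith [b2, b3.le, b3.ge]
  calc s.Q (f + g) ^ s.expo ≤ (F * (1 + M * y)) ^ s.expo :=
        Real.rpow_le_rpow (s.Q_nonneg _) hmain hsp.le
    _ = F ^ s.expo * (1 + M * y) ^ s.expo := Real.mul_rpow hF.le (by positivity)
    _ ≤ F ^ s.expo * (1 + x ^ s.expo) := by
        apply mul_le_mul_of_nonneg_left hMy (by positivity)
    _ = F ^ s.expo + (F * x) ^ s.expo := by
        rw [Real.mul_rpow hF.le hx0.le]; ring
    _ = F ^ s.expo + G ^ s.expo := by
        rw [hGx, mul_comm x F]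

theorem Q_add (f g : V) :
    s.Q (f + g) ^ s.expo ≤ s.Q f ^ s.expo + s.Q g ^ s.expo := by
  rcases le_total (s.Q g) (s.Q f) with h | h
  · exact s.Q_add_aux f g h
  · rw [add_comm f g, add_comm (s.Q f ^ s.expo)]
    exact s.Q_add_aux g f h

theorem Q_greedy_aux (f : V) (A B : Finset ι) (hA : A.Nonempty) (hBA : B.card ≤ A.card)
    (hgr : ∀ i ∈ A, ∀ j ∉ A, ‖s.a j f‖ ≤ ‖s.a i f‖) : s.Q (s.R A f) ≤ s.Q (s.R B f) := by
  obtain ⟨i0, hi0, hmin⟩ := Finset.exists_min_image A (fun i => ‖s.a i f‖) hA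
  set α := ‖s.a i0 f‖ with hα
  have hα0 : 0 ≤ α := norm_nonneg _
  have hout : ∀ j ∉ A, ‖s.a j f‖ ≤ α := fun j hj => hgr i0 hi0 j hj
  rcases hα0.eq_or_lt with h0 | hpos
  · have heq : s.R A f = s.R A (s.R B f) := by
      rw [R_R]
      have h1 : A ∪ B = A ∪ (B \ A) := by rw [Finset.union_sdiff_self_eq_union]
      rw [h1, s.R_union_disj Finset.disjoint_sdiff]
      have : s.S (B \ A) (fun j => s.a j f) = 0 := by
        unfold S
        apply Finset.sum_eq_zero
        intro j hj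
        rw [Finset.mem_sdiff] at hj
        have h2 := hout j hj.2
        rw [← h0] at h2
        have h3 : s.a j f = 0 := norm_le_zero_iff.1 h2
        simp only [h3, zero_smul]
      rw [this, sub_zero]
    rw [heq]
    exact s.Q_R_le A _
  -- values with `t ≤ α`
  have key : ∀ (t : ℝ) (Z : Finset ι) (c : ι → 𝕜), 0 < t → t ≤ α →
      Z.card ≤ (s.L t (s.R A f)).card → (∀ j ∈ Z, ‖c j‖ ≤ t) →
      s.N (s.R (Z ∪ s.L t (s.R A f)) (s.R A f) + s.S Z c) ≤ s.Q (s.R B f) := by
    intro t Z c ht htα hZ hc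
    set Λ := s.L t f with hΛ
    have hAΛ : A ⊆ Λ := by
      intro j hj
      rw [hΛ, s.mem_L ht]
      exact htα.trans (hmin j hj)
    rw [s.L_R ht] at hZ ⊢
    rw [← hΛ] at hZ ⊢
    set c' : ι → 𝕜 := fun j => if j ∈ Z then c j else s.a j f with hc'
    set Y := B \ (Z ∪ Λ) with hY
    have hYd : Disjoint (Z ∪ Λ) Y := by rw [hY]; exact Finset.disjoint_sdiff
    have hYZ : Disjoint Z Y := Finset.disjoint_of_subset_left Finset.subset_union_left hYd
    have hmem : s.N (s.R ((Z ∪ Y) ∪ s.L t (s.R B f)) (s.R B f) + s.S (Z ∪ Y) c')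
        ∈ s.vals (s.R B f) := by
      refine ⟨t, Z ∪ Y, c', ht, ?_, ?_, rfl⟩
      · rw [s.L_R ht, ← hΛ]
        have h1 : (Z ∪ Y).card ≤ Z.card + Y.card := Finset.card_union_le _ _
        have h2 : Y.card ≤ (B \ Λ).card := by
          apply Finset.card_le_card
          rw [hY]
          exact Finset.sdiff_subset_sdiff (Finset.Subset.refl _) Finset.subset_union_right
        have h3 : (Λ \ A).card + A.card = Λ.card := Finset.card_sdiff_add_card_eq_card hAΛ
        have h4 : (B \ Λ).card + (B ∩ Λ).card = B.card := Finset.card_sdiff_add_card_inter B Λ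
        have h5 : (Λ \ B).card + (Λ ∩ B).card = Λ.card := Finset.card_sdiff_add_card_inter Λ B
        rw [Finset.inter_comm] at h5
        omega
      · intro j hj
        rw [hc']
        by_cases hjZ : j ∈ Z
        · simp only [if_pos hjZ]
          exact hc j hjZ
        · simp only [if_neg hjZ]
          rw [Finset.mem_union] at hj
          have hjY : j ∈ Y := by tauto
          rw [hY, Finset.mem_sdiff, Finset.mem_union] at hjY
          have : j ∉ Λ := by tauto
          rw [hΛ, s.mem_L ht] at this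
          push Not at this
          exact this.le
    have heq : s.R (Z ∪ Λ \ A) (s.R A f) + s.S Z c
        = s.R ((Z ∪ Y) ∪ s.L t (s.R B f)) (s.R B f) + s.S (Z ∪ Y) c' := by
      rw [R_R, R_R, s.L_R ht, ← hΛ]
      have e1 : Z ∪ Λ \ A ∪ A = Z ∪ Λ := by
        rw [Finset.union_assoc, Finset.sdiff_union_of_subset hAΛ]
      have e2 : Z ∪ Y ∪ Λ \ B ∪ B = (Z ∪ Λ) ∪ Y := by
        rw [hY]
        ext j
        simp only [Finset.mem_union, Finset.mem_sdiff]
        tauto
      rw [e1, e2, s.R_union_disj hYd, s.S_union hYZ]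
      have e3 : s.S Z c' = s.S Z c := by
        apply S_congr
        intro j hj
        rw [hc']
        simp [hj]
      have e4 : s.S Y c' = s.S Y (fun j => s.a j f) := by
        apply S_congr
        intro j hj
        have : j ∉ Z := fun h => (Finset.disjoint_left.1 hYZ) h hj
        rw [hc']
        simp only [if_neg this]
      rw [e3, e4]
      abel
    rw [heq]
    exact le_csSup (s.bdd _) hmem
  apply csSup_le (s.nonempty _)
  rintro r ⟨t, Z, c, ht, hZ, hc, rfl⟩
  by_cases htα : t ≤ α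
  · exact key t Z c ht htα hZ hc
  · push Not at htα
    have hem : s.L t (s.R A f) = ∅ := by
      ext j
      rw [s.mem_L ht, a_R]
      simp only [Finset.notMem_empty, iff_false, not_le]
      split_ifs with hj
      · simpa using ht
      · exact (hout j hj).trans_lt htα
    have hZe : Z = ∅ := by
      rw [hem] at hZ
      simpa using hZ
    have h1 := key α (s.L α (s.R A f)) (fun j => s.a j (s.R A f)) hpos le_rfl le_rfl (by
      intro j _
      rw [a_R]
      split_ifs with hj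
      · simpa using hpos.le
      · exact hout j hj)
    have h2 : s.R (Z ∪ s.L t (s.R A f)) (s.R A f) + s.S Z c = s.R A f := by
      rw [hem, hZe]
      simp [R, S]
    have h3 : s.R (s.L α (s.R A f) ∪ s.L α (s.R A f)) (s.R A f)
        + s.S (s.L α (s.R A f)) (fun j => s.a j (s.R A f)) = s.R A f := by
      rw [Finset.union_self]
      rw [s.R_eq (s.L α (s.R A f)) (s.R A f)]
      abel
    rw [h2]
    rw [h3] at h1
    exact h1

/-- The system is `1`-greedy for `Q`. -/
theorem Q_greedy (f : V) (A B : Finset ι) (b : ι → 𝕜) (hA : A.Nonempty)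
    (hBA : B.card ≤ A.card) (hgr : ∀ i ∈ A, ∀ j ∉ A, ‖s.a j f‖ ≤ ‖s.a i f‖) :
    s.Q (f - ∑ j ∈ A, s.a j f • s.x j) ≤ s.Q (f - ∑ j ∈ B, b j • s.x j) := by
  have h1 := s.Q_greedy_aux f A B hA hBA hgr
  have h2 : s.R B (f - s.S B b) = s.R B f := by
    rw [R_sub, R_S]
    simp [S]
  have h3 := s.Q_R_le B (f - s.S B b)
  rw [h2] at h3
  exact h1.trans h3

end Sys

end Pool.Agent.V11100.OneGreedy
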