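import Mathlib
import Pool.Agent.V11100.HaarLp
import Pool.Agent.V11100.OneGreedy

open Filter Topology MeasureTheory

namespace Pool.Agent.V11100.HaarSys

open Pool.Agent.V11100.HaarDisc Pool.Agent.V11100.HaarLp

section

variable {𝕜 : Type*} [RCLike 𝕜]

/-- zero mean -/
theorem int_rho (N : ℕ) (φ : ℕ → 𝕜) :
    ∫ x, φ (fl N x) * ((rho (fl (N + 1) x) : ℝ) : 𝕜) ∂mu = 0 := by
  have h1 : ∀ x, φ (fl N x) * ((rho (fl (N + 1) x) : ℝ) : 𝕜)
      = (fun m => φ (m / 2) * ((rho m : ℝ) : 𝕜)) (fl (N + 1) x) := by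
    intro x
    simp only [fl_succ_div]
  simp only [h1]
  rw [integral_fl (N + 1) (fun m => φ (m / 2) * ((rho m : ℝ) : 𝕜)), sum_pairs]
  have h2 : ∀ k : ℕ, φ (2 * k / 2) * ((rho (2 * k) : ℝ) : 𝕜)
      + φ ((2 * k + 1) / 2) * ((rho (2 * k + 1) : ℝ) : 𝕜) = 0 := by
    intro k
    have e1 : 2 * k / 2 = k := by omega
    have e2 : (2 * k + 1) / 2 = k := by omega
    rw [e1, e2, rho_even, rho_odd]
    simp
  simp only [h2]
  simp

theorem fl_div_pow (N d : ℕ) (x : ℝ) : fl (N + d) x / 2 ^ d = fl N x := by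
  induction d with
  | zero => simp
  | succ d ih =>
    rw [pow_succ, mul_comm, ← Nat.div_div_eq_div_mul, ← add_assoc, fl_succ_div, ih]

theorem int_lt (p q : ℝ) (i j : Idx) (h : lev i < lev j) :
    ∫ x, ((haar p i x : ℝ) : 𝕜) * ((haar q j x : ℝ) : 𝕜) ∂mu = 0 := by
  rcases j with _ | ⟨n, k⟩
  · simp [lev] at h
  · have hn : lev i ≤ n := Nat.lt_succ_iff.1 h
    obtain ⟨d, hd⟩ := Nat.exists_eq_add_of_le hn
    rw [← int_rho n (fun m => (((psi p i (m / 2 ^ d)) * ((2 : ℝ) ^ ((n : ℝ) / q)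
      * (if m = k then 1 else 0)) : ℝ) : 𝕜))]
    apply integral_congr_ae
    filter_upwards [ae_mem] with x hx
    rw [haar_psi p i hx, haar_some q n k hx]
    have e1 : fl n x / 2 ^ d = fl (lev i) x := by
      rw [hd]; exact fl_div_pow _ _ _
    rw [e1]
    push_cast
    split_ifs <;> simp
    ring

theorem int_same (p q : ℝ) (hpq : p.HolderConjugate q) (i j : Idx) (h : lev i = lev j) :
    ∫ x, ((haar p i x : ℝ) : 𝕜) * ((haar q j x : ℝ) : 𝕜) ∂mu = if i = j then 1 else 0 := by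
  rcases i with _ | ⟨n, k⟩
  · rcases j with _ | ⟨m, l⟩
    · rw [if_pos rfl]
      have : ∫ x, ((haar p none x : ℝ) : 𝕜) * ((haar q none x : ℝ) : 𝕜) ∂mu
          = ∫ x, (fun _ => (1 : 𝕜)) (fl 0 x) ∂mu := by
        apply integral_congr_ae
        filter_upwards [ae_mem] with x hx
        rw [haar_none p hx, haar_none q hx]
        simp
      rw [this, integral_fl 0 (fun _ => (1 : 𝕜))]
      simp
    · simp [lev] at h
  · rcases j with _ | ⟨m, l⟩
    · simp [lev] at h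
    · simp only [lev, Nat.add_right_cancel_iff] at h
      subst h
      have hexp : (2 : ℝ) ^ ((n : ℝ) / p) * (2 : ℝ) ^ ((n : ℝ) / q) = 2 ^ n := by
        rw [← Real.rpow_add (by norm_num), ← Real.rpow_natCast]
        congr 1
        have := hpq.inv_add_inv_eq_one
        rw [div_eq_mul_inv, div_eq_mul_inv, ← mul_add, this, mul_one]
      by_cases hkl : k = l
      · subst hkl
        rw [if_pos rfl]
        have : ∫ x, ((haar p (some ⟨n, k⟩) x : ℝ) : 𝕜) * ((haar q (some ⟨n, k⟩) x : ℝ) : 𝕜) ∂mu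
            = ∫ x, (fun m : ℕ => if m = k then ((2 ^ n : ℝ) : 𝕜) else 0) (fl n x) ∂mu := by
          apply integral_congr_ae
          filter_upwards [ae_mem] with x hx
          rw [haar_some p n k hx, haar_some q n k hx, ← RCLike.ofReal_mul]
          by_cases hf : fl n x = k
          · rw [if_pos hf, if_pos hf]
            congr 1
            have h1 : rho (fl (n + 1) x) * rho (fl (n + 1) x) = 1 := by
              have := abs_rho (fl (n + 1) x)
              rw [← abs_mul_abs_self, this]; norm_num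
            calc _ = ((2 : ℝ) ^ ((n : ℝ) / p) * (2 : ℝ) ^ ((n : ℝ) / q))
                  * (rho (fl (n + 1) x) * rho (fl (n + 1) x)) := by ring
              _ = _ := by rw [h1, hexp, mul_one]
          · rw [if_neg hf, if_neg hf]
            simp
        rw [this, integral_fl n (fun m : ℕ => if m = k then ((2 ^ n : ℝ) : 𝕜) else 0)]
        rw [Finset.sum_ite_eq' (Finset.range (2 ^ n)) (k : ℕ), if_pos (Finset.mem_range.2 k.2),
          RCLike.real_smul_eq_coe_mul, ← RCLike.ofReal_mul, inv_mul_cancel₀ (by positivity)]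
        simp
      · have hne : (some ⟨n, k⟩ : Idx) ≠ some ⟨n, l⟩ := by
          intro h
          apply hkl
          simpa using h
        rw [if_neg hne]
        have : ∫ x, ((haar p (some ⟨n, k⟩) x : ℝ) : 𝕜) * ((haar q (some ⟨n, l⟩) x : ℝ) : 𝕜) ∂mu
            = ∫ x, (0 : 𝕜) ∂mu := by
          apply integral_congr_ae
          filter_upwards [ae_mem] with x hx
          rw [haar_some p n k hx, haar_some q n l hx]
          by_cases h1 : fl n x = k
          · have h2 : ¬ fl n x = l := by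
              intro h2
              apply hkl
              ext
              exact h1.symm.trans h2
            rw [if_neg h2]; simp
          · rw [if_neg h1]; simp
        rw [this]
        simp

theorem int_haar (p q : ℝ) (hpq : p.HolderConjugate q) (i j : Idx) :
    ∫ x, ((haar p i x : ℝ) : 𝕜) * ((haar q j x : ℝ) : 𝕜) ∂mu = if i = j then 1 else 0 := by
  rcases lt_trichotomy (lev i) (lev j) with h | h | h
  · rw [int_lt p q i j h, if_neg]
    rintro rfl
    exact lt_irrefl _ h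
  · exact int_same p q hpq i j h
  · have : ∫ x, ((haar p i x : ℝ) : 𝕜) * ((haar q j x : ℝ) : 𝕜) ∂mu
        = ∫ x, ((haar q j x : ℝ) : 𝕜) * ((haar p i x : ℝ) : 𝕜) ∂mu := by
      congr 1
      funext x
      ring
    rw [this, int_lt q p j i h, if_neg]
    rintro rfl
    exact lt_irrefl _ h

/-! ### coefficient functionals -/

variable (p q : ℝ)

/-- The functional given by integration against an element of `L_q`. -/
noncomputable def pair (𝕜 : Type*) [RCLike 𝕜] (p q : ℝ) [Fact (1 ≤ ENNReal.ofReal p)]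
    [Fact (1 ≤ ENNReal.ofReal q)]
    [ENNReal.HolderConjugate (ENNReal.ofReal p) (ENNReal.ofReal q)]
    (g : Lp 𝕜 (ENNReal.ofReal q) mu) : Lp 𝕜 (ENNReal.ofReal p) mu →L[𝕜] 𝕜 :=
  ((ContinuousLinearMap.mul 𝕜 𝕜).lpPairing mu (ENNReal.ofReal p) (ENNReal.ofReal q)).flip g

theorem pair_apply (p q : ℝ) [Fact (1 ≤ ENNReal.ofReal p)]
    [Fact (1 ≤ ENNReal.ofReal q)]
    [ENNReal.HolderConjugate (ENNReal.ofReal p) (ENNReal.ofReal q)]
    (g : Lp 𝕜 (ENNReal.ofReal q) mu) (f : Lp 𝕜 (ENNReal.ofReal p) mu) :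
    pair 𝕜 p q g f = ∫ x, f x * g x ∂mu := by
  unfold pair
  rw [ContinuousLinearMap.flip_apply, ContinuousLinearMap.lpPairing_eq_integral]
  rfl

theorem norm_pair_le (p q : ℝ) (hpq : p.HolderConjugate q) [Fact (1 ≤ ENNReal.ofReal p)]
    [Fact (1 ≤ ENNReal.ofReal q)]
    [ENNReal.HolderConjugate (ENNReal.ofReal p) (ENNReal.ofReal q)]
    (g : Lp 𝕜 (ENNReal.ofReal q) mu) (f : Lp 𝕜 (ENNReal.ofReal p) mu) :
    ‖pair 𝕜 p q g f‖ ≤ ‖f‖ * ‖g‖ := by
  rw [pair_apply]
  have h1 : ‖∫ x, f x * g x ∂mu‖ ≤ ∫ x, ‖f x‖ * ‖g x‖ ∂mu := by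
    refine (norm_integral_le_integral_norm _).trans (le_of_eq ?_)
    congr 1
    funext x
    exact norm_mul _ _
  have h2 := integral_mul_norm_le_Lp_mul_Lq hpq (Lp.memLp f) (Lp.memLp g)
  have h3 : (∫ x, ‖f x‖ ^ p ∂mu) ^ (1 / p) = ‖f‖ := by
    rw [← norm_rpow p hpq.lt f, ← Real.rpow_mul (norm_nonneg _), mul_one_div_cancel hpq.ne_zero,
      Real.rpow_one]
  have h4 : (∫ x, ‖g x‖ ^ q ∂mu) ^ (1 / q) = ‖g‖ := by
    rw [← norm_rpow q hpq.symm.lt g, ← Real.rpow_mul (norm_nonneg _),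
      mul_one_div_cancel hpq.symm.ne_zero, Real.rpow_one]
  rw [h3, h4] at h2
  exact h1.trans h2

theorem pair_hh (p q : ℝ) (hpq : p.HolderConjugate q) [Fact (1 ≤ ENNReal.ofReal p)]
    [Fact (1 ≤ ENNReal.ofReal q)]
    [ENNReal.HolderConjugate (ENNReal.ofReal p) (ENNReal.ofReal q)] (i j : Idx) :
    pair 𝕜 p q (hh 𝕜 (ENNReal.ofReal q) q i) (hh 𝕜 (ENNReal.ofReal p) p j)
      = if i = j then 1 else 0 := by
  rw [pair_apply]
  have : ∫ x, (hh 𝕜 (ENNReal.ofReal p) p j : ℝ → 𝕜) x * (hh 𝕜 (ENNReal.ofReal q) q i : ℝ → 𝕜) x ∂mu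
      = ∫ x, ((haar p j x : ℝ) : 𝕜) * ((haar q i x : ℝ) : 𝕜) ∂mu := by
    apply integral_congr_ae
    filter_upwards [coe_hh (𝕜 := 𝕜) (ENNReal.ofReal p) p j,
      coe_hh (𝕜 := 𝕜) (ENNReal.ofReal q) q i] with x h1 h2
    rw [h1, h2]
  rw [this, int_haar p q hpq j i]
  simp only [eq_comm]

/-! ### density -/

theorem step_mem_span (P : ENNReal) (p : ℝ) (N : ℕ) (F : ℕ → 𝕜) :
    step P N F ∈ Submodule.span 𝕜 (Set.range (hh 𝕜 P p)) := by
  induction N generalizing F with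
  | zero =>
    have : step P 0 F = F 0 • hh 𝕜 P p none := by
      apply Lp.ext
      filter_upwards [coe_step P 0 F, Lp.coeFn_smul (F 0) (hh 𝕜 P p none),
        coe_hh (𝕜 := 𝕜) P p none, ae_mem] with x h1 h2 h3 hx
      rw [h1, h2, Pi.smul_apply, h3, haar_none p hx, fl_zero hx]
      simp
    rw [this]
    exact Submodule.smul_mem _ _ (Submodule.subset_span ⟨none, rfl⟩)
  | succ N ih =>
    set A : ℕ → 𝕜 := fun k => (F (2 * k) + F (2 * k + 1)) / 2 with hA
    set B : ℕ → 𝕜 := fun k => (F (2 * k) - F (2 * k + 1)) / 2 with hB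
    set r : ℝ := (2 : ℝ) ^ ((N : ℝ) / p) with hr
    have hr0 : (r : 𝕜) ≠ 0 := by
      rw [hr]
      exact_mod_cast (Real.rpow_pos_of_pos (by norm_num) _).ne'
    have : step P (N + 1) F = step P N A
        + ∑ k : Fin (2 ^ N), (B k / (r : 𝕜)) • hh 𝕜 P p (some ⟨N, k⟩) := by
      apply Lp.ext
      have hsum : ((∑ k : Fin (2 ^ N), (B k / (r : 𝕜)) • hh 𝕜 P p (some ⟨N, k⟩) :
          Lp 𝕜 P mu) : ℝ → 𝕜) =ᵐ[mu] fun x => ∑ k : Fin (2 ^ N),
            (B k / (r : 𝕜)) * ((haar p (some ⟨N, k⟩) x : ℝ) : 𝕜) := by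
        classical
        generalize (Finset.univ : Finset (Fin (2 ^ N))) = D
        induction D using Finset.induction_on with
        | empty =>
          simp only [Finset.sum_empty]
          exact Lp.coeFn_zero _ _ _
        | insert j D hj ih =>
          rw [Finset.sum_insert hj]
          filter_upwards [Lp.coeFn_add ((B j / (r : 𝕜)) • hh 𝕜 P p (some ⟨N, j⟩))
            (∑ k ∈ D, (B k / (r : 𝕜)) • hh 𝕜 P p (some ⟨N, k⟩)),
            Lp.coeFn_smul (B j / (r : 𝕜)) (hh 𝕜 P p (some ⟨N, j⟩)),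
            coe_hh (𝕜 := 𝕜) P p (some ⟨N, j⟩), ih] with x h1 h2 h3 h4
          rw [h1, Finset.sum_insert hj, Pi.add_apply, h2, h4, Pi.smul_apply, h3, smul_eq_mul]
      filter_upwards [coe_step P (N + 1) F, Lp.coeFn_add (step P N A)
        (∑ k : Fin (2 ^ N), (B k / (r : 𝕜)) • hh 𝕜 P p (some ⟨N, k⟩)), coe_step P N A, hsum,
        ae_mem] with x h1 h2 h3 h4 hx
      rw [h1, h2, Pi.add_apply, h3, h4]
      rw [Finset.sum_eq_single (⟨fl N x, fl_lt hx⟩ : Fin (2 ^ N))]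
      · rw [haar_some p N _ hx]
        simp only [if_true]
        rw [← hr]
        push_cast
        have e1 : B (fl N x) / (r : 𝕜) * ((r : 𝕜) * ((rho (fl (N + 1) x) : ℝ) : 𝕜))
            = B (fl N x) * ((rho (fl (N + 1) x) : ℝ) : 𝕜) := by
          field_simp
        rw [e1]
        have e2 := fl_succ_div N x
        rcases Nat.even_or_odd' (fl (N + 1) x) with ⟨c, hc | hc⟩
        · have : fl N x = c := by omega
          rw [this, hc, rho_even, hA, hB]
          simp only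
          push_cast
          ring
        · have : fl N x = c := by omega
          rw [this, hc, rho_odd, hA, hB]
          simp only
          push_cast
          ring
      · intro k _ hk
        rw [haar_some p N k hx]
        have : ¬ fl N x = k := by
          intro h
          apply hk
          ext
          exact h.symm
        rw [if_neg this]
        simp
      · intro h
        exact absurd (Finset.mem_univ _) h
    rw [this]
    apply Submodule.add_mem _ (ih A)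
    apply Submodule.sum_mem
    intro k _
    exact Submodule.smul_mem _ _ (Submodule.subset_span ⟨_, rfl⟩)

theorem span_dense (P : ENNReal) [Fact (1 ≤ P)] (hP : P ≠ ⊤) (p : ℝ) :
    (Submodule.span 𝕜 (Set.range (hh 𝕜 P p))).topologicalClosure = ⊤ := by
  rw [eq_top_iff]
  rintro f -
  have hd : f ∈ closure (Set.range (BoundedContinuousFunction.toLp P mu 𝕜 :
      (BoundedContinuousFunction ℝ 𝕜) →L[𝕜] Lp 𝕜 P mu)) :=
    BoundedContinuousFunction.toLp_denseRange 𝕜 mu 𝕜 hP f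
  have hsub : Set.range (BoundedContinuousFunction.toLp P mu 𝕜 :
      (BoundedContinuousFunction ℝ 𝕜) →L[𝕜] Lp 𝕜 P mu)
      ⊆ closure (Submodule.span 𝕜 (Set.range (hh 𝕜 P p)) : Set (Lp 𝕜 P mu)) := by
    rintro _ ⟨g, rfl⟩
    rw [Metric.mem_closure_iff]
    intro ε hε
    have huc : UniformContinuousOn (g : ℝ → 𝕜) (Set.Icc 0 1) :=
      isCompact_Icc.uniformContinuousOn_of_continuous g.continuous.continuousOn
    rw [Metric.uniformContinuousOn_iff] at huc
    obtain ⟨δ, hδ, hg⟩ := huc (ε / 2) (by linarith)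
    obtain ⟨N, hN⟩ := exists_pow_lt_of_lt_one hδ (by norm_num : (1 / 2 : ℝ) < 1)
    refine ⟨step P N (fun m => g ((m : ℝ) / 2 ^ N)), step_mem_span P p N _, ?_⟩
    rw [dist_eq_norm]
    have h2 : (0 : ℝ) < 2 ^ N := by positivity
    have hb : ‖BoundedContinuousFunction.toLp P mu 𝕜 g
        - step P N (fun m => g ((m : ℝ) / 2 ^ N))‖ ≤ (mu.real Set.univ) ^ (P.toReal⁻¹) * (ε / 2) := by
      apply Lp.norm_le_of_ae_bound (by linarith)
      filter_upwards [Lp.coeFn_sub (BoundedContinuousFunction.toLp P mu 𝕜 g)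
        (step P N (fun m => g ((m : ℝ) / 2 ^ N))),
        BoundedContinuousFunction.coeFn_toLp (p := P) (μ := mu) (𝕜 := 𝕜) g,
        coe_step P N (fun m => g ((m : ℝ) / 2 ^ N)), ae_mem] with x h1 h3 h4 hx
      rw [h1, Pi.sub_apply, h3, h4, ← dist_eq_norm]
      have h5 := (fl_eq_iff (N := N) hx.1).1 rfl
      apply (hg x ⟨hx.1, hx.2.le⟩ ((fl N x : ℝ) / 2 ^ N) ⟨by positivity, ?_⟩ ?_).le
      · exact h5.1.trans hx.2.le
      · rw [Real.dist_eq, abs_of_nonneg (by linarith [h5.1])]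
        have h6 := h5.2
        rw [add_div] at h6
        have h7 : (1 : ℝ) / 2 ^ N < δ := by
          rw [one_div_pow] at hN
          exact hN
        linarith
    have hmu : mu.real Set.univ = 1 := by
      rw [Measure.real, Measure.restrict_apply_univ, Real.volume_Icc]
      simp
    rw [hmu, Real.one_rpow, one_mul] at hb
    linarith
  have := closure_mono hsub hd
  rwa [closure_closure] at this

/-! ### the system -/

/-- finite sums of Haar functions as projections -/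
theorem span_exists (P : ENNReal) (p : ℝ) (f : Lp 𝕜 P mu)
    (hf : f ∈ Submodule.span 𝕜 (Set.range (hh 𝕜 P p))) :
    ∃ c : Idx → 𝕜, ∃ D : Finset Idx, f = ∑ j ∈ D, c j • hh 𝕜 P p j := by
  rw [Finsupp.mem_span_range_iff_exists_finsupp] at hf
  obtain ⟨c, hc⟩ := hf
  exact ⟨c, c.support, hc.symm⟩

theorem proj_poly (p q : ℝ) (hpq : p.HolderConjugate q) [Fact (1 ≤ ENNReal.ofReal p)]
    [Fact (1 ≤ ENNReal.ofReal q)]
    [ENNReal.HolderConjugate (ENNReal.ofReal p) (ENNReal.ofReal q)] (c : Idx → 𝕜)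
    (E : Finset Idx) (i : Idx) :
    pair 𝕜 p q (hh 𝕜 (ENNReal.ofReal q) q i) (∑ j ∈ E, c j • hh 𝕜 (ENNReal.ofReal p) p j)
      = if i ∈ E then c i else 0 := by
  rw [map_sum]
  simp only [map_smul, pair_hh p q hpq, smul_eq_mul, mul_ite, mul_one, mul_zero]
  rw [Finset.sum_ite_eq]

/-- The unconditional constant. -/
noncomputable def CU (p : ℝ) : ℝ := (C1 p) ^ (1 / p)

theorem CU_nonneg (p : ℝ) (hp : 1 < p) : 0 ≤ CU p := by
  unfold CU
  have := C1_pos p hp
  positivity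

theorem proj_le (p q : ℝ) (hpq : p.HolderConjugate q) [Fact (1 ≤ ENNReal.ofReal p)]
    [Fact (1 ≤ ENNReal.ofReal q)]
    [ENNReal.HolderConjugate (ENNReal.ofReal p) (ENNReal.ofReal q)]
    (D : Finset Idx) (f : Lp 𝕜 (ENNReal.ofReal p) mu) :
    ‖∑ j ∈ D, pair 𝕜 p q (hh 𝕜 (ENNReal.ofReal q) q j) f • hh 𝕜 (ENNReal.ofReal p) p j‖
      ≤ CU p * ‖f‖ := by
  have hp := hpq.lt
  have hp0 : 0 < p := by linarith
  have hcl : IsClosed {f : Lp 𝕜 (ENNReal.ofReal p) mu |
      ‖∑ j ∈ D, pair 𝕜 p q (hh 𝕜 (ENNReal.ofReal q) q j) f • hh 𝕜 (ENNReal.ofReal p) p j‖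
      ≤ CU p * ‖f‖} := by
    apply isClosed_le
    · fun_prop
    · fun_prop
  have hsub : (Submodule.span 𝕜 (Set.range (hh 𝕜 (ENNReal.ofReal p) p)) : Set _) ⊆
      {f : Lp 𝕜 (ENNReal.ofReal p) mu |
      ‖∑ j ∈ D, pair 𝕜 p q (hh 𝕜 (ENNReal.ofReal q) q j) f • hh 𝕜 (ENNReal.ofReal p) p j‖
      ≤ CU p * ‖f‖} := by
    intro f hf
    obtain ⟨c, E, rfl⟩ := span_exists _ p f hf
    obtain ⟨N, hN⟩ := exists_allN (D ∪ E)
    have hE : E ⊆ allN N := Finset.union_subset_right hN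
    have hD : D ⊆ allN N := Finset.union_subset_left hN
    show ‖_‖ ≤ CU p * ‖_‖
    simp only [proj_poly p q hpq]
    have h1 := uncond_poly p hp N (fun j => if j ∈ E then c j else 0) D hD
    rw [← sum_restrict _ p E (allN N) hE c] at h1
    have h2 := Real.rpow_le_rpow (by positivity) h1 (by positivity : 0 ≤ 1 / p)
    have hC := C1_pos p hp
    rw [Real.mul_rpow hC.le (by positivity), ← Real.rpow_mul (norm_nonneg _),
      ← Real.rpow_mul (norm_nonneg _), mul_one_div_cancel hp0.ne', Real.rpow_one,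
      Real.rpow_one] at h2
    exact h2
  have h3 : f ∈ closure (Submodule.span 𝕜 (Set.range (hh 𝕜 (ENNReal.ofReal p) p)) : Set _) := by
    have := span_dense (𝕜 := 𝕜) (ENNReal.ofReal p) ENNReal.ofReal_ne_top p
    have h4 : f ∈ (Submodule.span 𝕜 (Set.range (hh 𝕜 (ENNReal.ofReal p) p))).topologicalClosure := by
      rw [this]; trivial
    exact h4
  exact closure_minimal hsub hcl h3

/-- Unconditional convergence of Haar expansions. -/
theorem hasSum_haar (p q : ℝ) (hpq : p.HolderConjugate q) [Fact (1 ≤ ENNReal.ofReal p)]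
    [Fact (1 ≤ ENNReal.ofReal q)]
    [ENNReal.HolderConjugate (ENNReal.ofReal p) (ENNReal.ofReal q)]
    (f : Lp 𝕜 (ENNReal.ofReal p) mu) :
    HasSum (fun j => pair 𝕜 p q (hh 𝕜 (ENNReal.ofReal q) q j) f • hh 𝕜 (ENNReal.ofReal p) p j)
      f := by
  have hCU := CU_nonneg p hpq.lt
  rw [HasSum, SummationFilter.unconditional_filter, Metric.tendsto_atTop]
  intro ε hε
  have h3 : f ∈ closure (Submodule.span 𝕜 (Set.range (hh 𝕜 (ENNReal.ofReal p) p)) : Set _) := by
    have := span_dense (𝕜 := 𝕜) (ENNReal.ofReal p) ENNReal.ofReal_ne_top p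
    have h4 : f ∈ (Submodule.span 𝕜 (Set.range (hh 𝕜 (ENNReal.ofReal p) p))).topologicalClosure := by
      rw [this]; trivial
    exact h4
  rw [Metric.mem_closure_iff] at h3
  obtain ⟨g, hg, hfg⟩ := h3 (ε / (CU p + 1)) (by positivity)
  obtain ⟨c, E, rfl⟩ := span_exists _ p g hg
  refine ⟨E, fun D hD => ?_⟩
  rw [dist_eq_norm] at hfg ⊢
  set g := ∑ j ∈ E, c j • hh 𝕜 (ENNReal.ofReal p) p j with hgdef
  have h5 : ∑ j ∈ D, pair 𝕜 p q (hh 𝕜 (ENNReal.ofReal q) q j) g • hh 𝕜 (ENNReal.ofReal p) p j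
      = g := by
    rw [hgdef]
    simp only [proj_poly p q hpq]
    rw [← sum_restrict _ p E D hD c]
  have h6 : ∑ j ∈ D, pair 𝕜 p q (hh 𝕜 (ENNReal.ofReal q) q j) f • hh 𝕜 (ENNReal.ofReal p) p j - f
      = ∑ j ∈ D, pair 𝕜 p q (hh 𝕜 (ENNReal.ofReal q) q j) (f - g) • hh 𝕜 (ENNReal.ofReal p) p j
        - (f - g) := by
    have : ∑ j ∈ D, pair 𝕜 p q (hh 𝕜 (ENNReal.ofReal q) q j) (f - g)
        • hh 𝕜 (ENNReal.ofReal p) p j
        = ∑ j ∈ D, pair 𝕜 p q (hh 𝕜 (ENNReal.ofReal q) q j) f • hh 𝕜 (ENNReal.ofReal p) p j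
        - ∑ j ∈ D, pair 𝕜 p q (hh 𝕜 (ENNReal.ofReal q) q j) g
        • hh 𝕜 (ENNReal.ofReal p) p j := by
      simp only [map_sub, sub_smul, Finset.sum_sub_distrib]
    rw [this, h5]
    abel
  rw [h6]
  have h7 := proj_le p q hpq D (f - g)
  have h8 := norm_sub_le (∑ j ∈ D, pair 𝕜 p q (hh 𝕜 (ENNReal.ofReal q) q j) (f - g)
    • hh 𝕜 (ENNReal.ofReal p) p j) (f - g)
  have h9 : (CU p + 1) * ‖f - g‖ < ε := by
    rw [lt_div_iff₀ (by positivity)] at hfg
    linarith
  linarith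

/-- upper democracy for the norm -/
theorem upper_norm (p : ℝ) (hp : 1 < p) [Fact (1 ≤ ENNReal.ofReal p)] (Z : Finset Idx) (c : Idx → 𝕜) (t : ℝ) (ht : 0 ≤ t)
    (hc : ∀ j ∈ Z, ‖c j‖ ≤ t) :
    ‖∑ j ∈ Z, c j • hh 𝕜 (ENNReal.ofReal p) p j‖
      ≤ t * (2 ^ (1 / p : ℝ) * KK p * (Z.card : ℝ) ^ (1 / p : ℝ)) := by
  have hp0 : 0 < p := by linarith
  have hK := KK_ge p hp
  have h1 := upper_poly p hp Z c t ht hc
  have h2 := Real.rpow_le_rpow (by positivity) h1 (by positivity : 0 ≤ 1 / p)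
  rw [← Real.rpow_mul (norm_nonneg _), mul_one_div_cancel hp0.ne', Real.rpow_one,
    Real.mul_rpow (by positivity) (by positivity), Real.mul_rpow (by positivity) (by positivity),
    ← Real.rpow_mul (by positivity), mul_one_div_cancel hp0.ne', Real.rpow_one] at h2
  calc _ ≤ _ := h2
    _ = _ := by ring

/-- lower democracy for the norm -/
theorem lower_norm (p q : ℝ) (hpq : p.HolderConjugate q) [Fact (1 ≤ ENNReal.ofReal p)]
    [Fact (1 ≤ ENNReal.ofReal q)]
    [ENNReal.HolderConjugate (ENNReal.ofReal p) (ENNReal.ofReal q)]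
    (A : Finset Idx) (f : Lp 𝕜 (ENNReal.ofReal p) mu) (t : ℝ)
    (hA : ∀ j ∈ A, t ≤ ‖pair 𝕜 p q (hh 𝕜 (ENNReal.ofReal q) q j) f‖) :
    t * (A.card : ℝ) ^ (1 / p : ℝ) ≤ (2 ^ (1 / q : ℝ) * KK q) * ‖f‖ := by
  have hp0 : 0 < p := by linarith [hpq.lt]
  have hq0 : 0 < q := by linarith [hpq.symm.lt]
  have hKq := KK_ge q hpq.symm.lt
  set a : Idx → 𝕜 := fun j => pair 𝕜 p q (hh 𝕜 (ENNReal.ofReal q) q j) f with ha
  set b : Idx → 𝕜 := fun j => (starRingEnd 𝕜 (a j)) / (‖a j‖ : 𝕜) with hb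
  have hb1 : ∀ j ∈ A, ‖b j‖ ≤ 1 := by
    intro j _
    rw [hb]
    simp only [norm_div, RCLike.norm_conj, RCLike.norm_ofReal, abs_norm]
    exact div_self_le_one _
  have hba : ∀ j, b j * a j = (‖a j‖ : 𝕜) := by
    intro j
    rw [hb]
    simp only
    by_cases h : a j = 0
    · rw [h]; simp
    · have hn : (‖a j‖ : 𝕜) ≠ 0 := by
        exact_mod_cast (norm_pos_iff.2 h).ne'
      rw [div_mul_eq_mul_div, RCLike.conj_mul, pow_two, mul_div_assoc, div_self hn, mul_one]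
  set g : Lp 𝕜 (ENNReal.ofReal q) mu := ∑ j ∈ A, b j • hh 𝕜 (ENNReal.ofReal q) q j with hg
  have h1 : pair 𝕜 p q g f = ((∑ j ∈ A, ‖a j‖ : ℝ) : 𝕜) := by
    have e1 : pair 𝕜 p q g f = ((ContinuousLinearMap.mul 𝕜 𝕜).lpPairing mu (ENNReal.ofReal p)
      (ENNReal.ofReal q)) f g := rfl
    rw [e1, hg, map_sum]
    push_cast
    apply Finset.sum_congr rfl
    intro j _
    rw [map_smul, smul_eq_mul]
    exact hba j
  have h2 : t * A.card ≤ ‖pair 𝕜 p q g f‖ := by
    rw [h1, RCLike.norm_ofReal, abs_of_nonneg (Finset.sum_nonneg (fun _ _ => norm_nonneg _))]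
    have : ∑ j ∈ A, t ≤ ∑ j ∈ A, ‖a j‖ := Finset.sum_le_sum hA
    rw [Finset.sum_const, nsmul_eq_mul] at this
    linarith
  have h3 := norm_pair_le p q hpq g f
  have h4 := upper_norm q hpq.symm.lt A b 1 zero_le_one hb1
  rw [← hg, one_mul] at h4
  rcases Nat.eq_zero_or_pos A.card with h0 | hpos
  · rw [h0]
    simp only [Nat.cast_zero]
    rw [Real.zero_rpow (by positivity : (1 / p : ℝ) ≠ 0), mul_zero]
    positivity
  · have hc : (0 : ℝ) < A.card := by exact_mod_cast hpos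
    have h5 : t * A.card ≤ ‖f‖ * (2 ^ (1 / q : ℝ) * KK q * (A.card : ℝ) ^ (1 / q : ℝ)) :=
      h2.trans (h3.trans (mul_le_mul_of_nonneg_left h4 (norm_nonneg _)))
    have h6 : (A.card : ℝ) = (A.card : ℝ) ^ (1 / p : ℝ) * (A.card : ℝ) ^ (1 / q : ℝ) := by
      rw [← Real.rpow_add hc]
      have := hpq.inv_add_inv_eq_one
      rw [one_div, one_div, this, Real.rpow_one]
    have h7 : (0 : ℝ) < (A.card : ℝ) ^ (1 / q : ℝ) := Real.rpow_pos_of_pos hc _
    have h8 : (t * (A.card : ℝ) ^ (1 / p : ℝ)) * (A.card : ℝ) ^ (1 / q : ℝ)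
        ≤ ((2 ^ (1 / q : ℝ) * KK q) * ‖f‖) * (A.card : ℝ) ^ (1 / q : ℝ) := by
      calc _ = t * ((A.card : ℝ) ^ (1 / p : ℝ) * (A.card : ℝ) ^ (1 / q : ℝ)) := by ring
        _ = t * A.card := by rw [← h6]
        _ ≤ _ := h5
        _ = _ := by ring
    exact le_of_mul_le_mul_right h8 h7

end

end Pool.Agent.V11100.HaarSys
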