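import Mathlib

open Filter Topology

namespace Pool.Agent.V11100

/-! ### Strong dependent choice -/

/-- Sequences built by strong recursion, where the `n`-th requirement depends only on the values
before `n`. -/
theorem exists_seq_strong {α : Type*} [Nonempty α] (R : ℕ → (ℕ → α) → α → Prop)
    (hR : ∀ n s t a, (∀ i < n, s i = t i) → R n s a → R n t a)
    (h : ∀ n s, (∀ i < n, R i s (s i)) → ∃ a, R n s a) : ∃ s : ℕ → α, ∀ n, R n s (s n) := by
  classical
  let c : ℕ → (ℕ → α) → α := fun n s =>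
    if hx : ∃ a, R n s a then Classical.choose hx else Classical.arbitrary α
  have hc : ∀ n s, (∃ a, R n s a) → R n s (c n s) := by
    intro n s hx
    simp only [c, dif_pos hx]
    exact Classical.choose_spec hx
  let S : ℕ → (ℕ → α) := fun n => Nat.rec (fun _ => Classical.arbitrary α)
    (fun n s => Function.update s n (c n s)) n
  have hS : ∀ n, S (n + 1) = Function.update (S n) n (c n (S n)) := fun n => rfl
  have hst : ∀ i m, S (i + 1 + m) i = S (i + 1) i := by
    intro i m
    induction m with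
    | zero => rfl
    | succ m ih =>
      rw [← add_assoc, hS, Function.update_of_ne (by omega)]
      exact ih
  let s : ℕ → α := fun i => S (i + 1) i
  have hsn : ∀ n i, i < n → S n i = s i := by
    intro n i hi
    have := hst i (n - (i + 1))
    rwa [Nat.add_sub_cancel' hi] at this
  refine ⟨s, fun n => ?_⟩
  induction n using Nat.strong_induction_on with
  | _ n ih =>
    have h1 : ∀ i < n, R i (S n) (S n i) := by
      intro i hi
      rw [hsn n i hi]
      exact hR i s (S n) (s i) (fun j hj => (hsn n j (hj.trans hi)).symm) (ih i hi)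
    have h2 := hc n (S n) (h n (S n) h1)
    have h3 : s n = c n (S n) := by
      show S (n + 1) n = _
      rw [hS, Function.update_self]
    rw [h3]
    exact hR n (S n) s _ (fun j hj => hsn n j hj) h2

variable {𝕜 : Type*} [RCLike 𝕜] {E : Type*} [NormedAddCommGroup E] [NormedSpace 𝕜 E]

/-! ### Separation from closed subspaces -/

theorem exists_functional_aux (W : Submodule 𝕜 E) (p : E)
    (hp : ‖(Submodule.Quotient.mk p : E ⧸ W)‖ ≠ 0) :
    ∃ h : StrongDual 𝕜 E, (∀ w ∈ W, h w = 0) ∧ h p = 1 ∧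
      ‖h‖ ≤ ‖(Submodule.Quotient.mk p : E ⧸ W)‖⁻¹ := by
  obtain ⟨g, hg1, hg2⟩ := exists_dual_vector 𝕜 (Submodule.Quotient.mk p : E ⧸ W) hp
  set r := ‖(Submodule.Quotient.mk p : E ⧸ W)‖ with hr
  have hr0 : 0 < r := lt_of_le_of_ne (norm_nonneg _) (Ne.symm hp)
  let h0 : E →ₗ[𝕜] 𝕜 := ((r⁻¹ : ℝ) : 𝕜) • (g.toLinearMap.comp W.mkQ)
  have hh0 : ∀ v, h0 v = ((r⁻¹ : ℝ) : 𝕜) * g (Submodule.Quotient.mk v) := fun v => rfl
  have hbound : ∀ v, ‖h0 v‖ ≤ r⁻¹ * ‖v‖ := by
    intro v
    rw [hh0, norm_mul, RCLike.norm_ofReal, abs_of_nonneg (by positivity)]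
    have h1 : ‖g (Submodule.Quotient.mk v)‖ ≤ ‖v‖ := by
      refine (g.le_opNorm _).trans ?_
      rw [hg1, one_mul]
      exact Submodule.Quotient.norm_mk_le W v
    gcongr
  let h : StrongDual 𝕜 E := h0.mkContinuous r⁻¹ hbound
  have hh : ∀ v, h v = ((r⁻¹ : ℝ) : 𝕜) * g (Submodule.Quotient.mk v) := fun v => rfl
  refine ⟨h, ?_, ?_, ?_⟩
  · intro w hw
    rw [hh, (Submodule.Quotient.mk_eq_zero W).mpr hw, map_zero, mul_zero]
  · rw [hh, hg2, ← RCLike.ofReal_mul, inv_mul_cancel₀ hr0.ne', RCLike.ofReal_one]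
  · exact h0.mkContinuous_norm_le (by positivity) hbound

/-- A functional vanishing on a closed subspace with value one at a point outside it. -/
theorem exists_functional {W : Submodule 𝕜 E} (hW : IsClosed (W : Set E)) {p : E} (hp : p ∉ W) :
    ∃ h : StrongDual 𝕜 E, (∀ w ∈ W, h w = 0) ∧ h p = 1 := by
  have h1 : ‖(Submodule.Quotient.mk p : E ⧸ W)‖ ≠ 0 := by
    intro h0
    apply hp
    have h2 : IsClosed (W.toAddSubgroup : Set E) := hW
    exact (QuotientAddGroup.norm_mk_eq_zero (S := W.toAddSubgroup) (m := p)).mp h0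
  obtain ⟨h, h2, h3, _⟩ := exists_functional_aux W p h1
  exact ⟨h, h2, h3⟩

/-- The same with norm control. -/
theorem exists_functional_le {W : Submodule 𝕜 E} {p : E} (hp : ∀ w ∈ W, 1 ≤ ‖p - w‖) :
    ∃ h : StrongDual 𝕜 E, (∀ w ∈ W, h w = 0) ∧ h p = 1 ∧ ‖h‖ ≤ 1 := by
  have h1 : 1 ≤ ‖(Submodule.Quotient.mk p : E ⧸ W)‖ := by
    rw [show ‖(Submodule.Quotient.mk p : E ⧸ W)‖ = ‖((p : E) : E ⧸ W.toAddSubgroup)‖ from rfl,
      QuotientAddGroup.le_norm_iff]
    intro m hm
    have h2 : (m : E ⧸ W.toAddSubgroup) = (p : E ⧸ W.toAddSubgroup) := hm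
    have h3 : p - m ∈ W := by
      have := QuotientAddGroup.eq.mp h2
      have h4 : -m + p ∈ W := this
      rwa [neg_add_eq_sub] at h4
    have h5 := hp _ h3
    rwa [sub_sub_cancel] at h5
  obtain ⟨h, h2, h3, h4⟩ := exists_functional_aux W p (by positivity)
  exact ⟨h, h2, h3, h4.trans (inv_le_one_of_one_le₀ h1)⟩

/-! ### Weak-star limits along ultrafilters -/

theorem exists_ultra_limit (F : ℕ → StrongDual 𝕜 E) {B : ℝ} (hF : ∀ i, ‖F i‖ ≤ B)
    (U : Ultrafilter ℕ) :
    ∃ G : StrongDual 𝕜 E, ‖G‖ ≤ B ∧ ∀ x, Tendsto (fun i => F i x) U (𝓝 (G x)) := by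
  have hc := WeakDual.isCompact_closedBall (𝕜 := 𝕜) (0 : StrongDual 𝕜 E) B
  obtain ⟨G, hG1, hG2⟩ := isCompact_iff_ultrafilter_le_nhds.mp hc
    (U.map (fun i => StrongDual.toWeakDual (F i))) (by
      rw [Filter.le_principal_iff, Ultrafilter.coe_map, Filter.mem_map]
      apply Filter.univ_mem'
      intro i
      show StrongDual.toWeakDual (F i) ∈ WeakDual.toStrongDual ⁻¹' Metric.closedBall 0 B
      rw [Set.mem_preimage, mem_closedBall_zero_iff]
      exact hF i)
  refine ⟨WeakDual.toStrongDual G, ?_, ?_⟩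
  · have : WeakDual.toStrongDual G ∈ Metric.closedBall (0 : StrongDual 𝕜 E) B := hG1
    rwa [mem_closedBall_zero_iff] at this
  · intro x
    have h1 : Tendsto (fun i => StrongDual.toWeakDual (F i)) U (𝓝 G) := hG2
    exact ((WeakDual.eval_continuous x).tendsto G).comp h1

/-! ### Extension with weak-star null corrections (Sobczyk, Veech) -/

/-- Pointwise convergence to zero extends from a dense sequence. -/
theorem tendsto_of_dense (H : ℕ → StrongDual 𝕜 E) {B : ℝ} (hH : ∀ i, ‖H i‖ ≤ B) (s : Set E)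
    (hs : ∀ x ∈ s, Tendsto (fun i => H i x) atTop (𝓝 0)) :
    ∀ x ∈ closure s, Tendsto (fun i => H i x) atTop (𝓝 0) := by
  intro x hx
  rw [Metric.mem_closure_iff] at hx
  rw [Metric.tendsto_atTop]
  intro ε hε
  have hB : 0 ≤ B := (norm_nonneg _).trans (hH 0)
  obtain ⟨y, hy, hxy⟩ := hx (ε / (2 * (B + 1))) (by positivity)
  obtain ⟨N, hN⟩ := (Metric.tendsto_atTop.mp (hs y hy)) (ε / 2) (by positivity)
  refine ⟨N, fun i hi => ?_⟩
  have h1 := hN i hi
  rw [dist_zero_right] at h1 ⊢
  rw [dist_eq_norm] at hxy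
  have e : H i x = H i (x - y) + H i y := by rw [← map_add, sub_add_cancel]
  have h2 : ‖H i (x - y)‖ ≤ B * ‖x - y‖ := (H i).le_of_opNorm_le (hH i) _
  have h3 : B * ‖x - y‖ ≤ (B + 1) * ‖x - y‖ := by nlinarith [norm_nonneg (x - y)]
  have h4 : (B + 1) * ‖x - y‖ < (B + 1) * (ε / (2 * (B + 1))) :=
    mul_lt_mul_of_pos_left hxy (by positivity)
  have h5 : (B + 1) * (ε / (2 * (B + 1))) = ε / 2 := by field_simp
  rw [e]
  calc ‖H i (x - y) + H i y‖ ≤ ‖H i (x - y)‖ + ‖H i y‖ := norm_add_le _ _
    _ < ε := by linarith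

/-- Bounded functionals that are pointwise null on a subspace differ from pointwise null
functionals by bounded functionals vanishing on the subspace. -/
theorem veech [TopologicalSpace.SeparableSpace E] (X : Submodule 𝕜 E) (F : ℕ → StrongDual 𝕜 E)
    {B : ℝ} (hF : ∀ i, ‖F i‖ ≤ B) (hX : ∀ x ∈ X, Tendsto (fun i => F i x) atTop (𝓝 0)) :
    ∃ G : ℕ → StrongDual 𝕜 E, (∀ i, ‖G i‖ ≤ B) ∧ (∀ i, ∀ x ∈ X, G i x = 0) ∧
      ∀ x, Tendsto (fun i => (F i - G i) x) atTop (𝓝 0) := by
  classical
  have hB : 0 ≤ B := (norm_nonneg _).trans (hF 0)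
  let d : ℕ → E := TopologicalSpace.denseSeq E
  let P : ℕ → ℕ → Prop := fun i k => ∃ G : StrongDual 𝕜 E, ‖G‖ ≤ B ∧ (∀ x ∈ X, G x = 0) ∧
    ∀ j < k, ‖(F i - G) (d j)‖ ≤ 1 / ((k : ℝ) + 1)
  have hP0 : ∀ i, P i 0 := fun i => ⟨0, by simpa using hB, fun _ _ => rfl, fun j hj => absurd hj (by omega)⟩
  have hPk : ∀ k, ∀ᶠ i in atTop, P i k := by
    intro k
    by_contra hcon
    rw [Filter.not_eventually] at hcon
    let l : Filter ℕ := atTop ⊓ 𝓟 {i | ¬ P i k}
    have hl : l.NeBot := Filter.frequently_iff_neBot.mp hcon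
    let U : Ultrafilter ℕ := Ultrafilter.of l
    have hU : (U : Filter ℕ) ≤ l := Ultrafilter.of_le l
    obtain ⟨G, hG1, hG2⟩ := exists_ultra_limit F hF U
    have hG3 : ∀ x ∈ X, G x = 0 := fun x hx =>
      tendsto_nhds_unique (hG2 x) ((hX x hx).mono_left (hU.trans inf_le_left))
    have h1 : ∀ᶠ i in (U : Filter ℕ), ∀ j < k, ‖(F i - G) (d j)‖ ≤ 1 / ((k : ℝ) + 1) := by
      have h2 : ∀ j ∈ Finset.range k, ∀ᶠ i in (U : Filter ℕ), ‖(F i - G) (d j)‖ ≤ 1 / ((k : ℝ) + 1) := by
        intro j _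
        have h3 : Tendsto (fun i => ‖(F i - G) (d j)‖) U (𝓝 0) := by
          have := (hG2 (d j)).sub_const (G (d j))
          rw [sub_self] at this
          simpa using this.norm
        exact h3.eventually_le_const (by positivity)
      rw [← Filter.eventually_all_finset] at h2
      filter_upwards [h2] with i hi j hj
      exact hi j (Finset.mem_range.mpr hj)
    have h4 : ∀ᶠ i in (U : Filter ℕ), ¬ P i k := by
      apply (hU.trans inf_le_right)
      exact Filter.mem_principal_self _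
    obtain ⟨i, hi1, hi2⟩ := (h1.and h4).exists
    exact hi2 ⟨G, hG1, hG3, hi1⟩
  let κ : ℕ → ℕ := fun i => Nat.findGreatest (P i) i
  have hκ : ∀ i, P i (κ i) := fun i => Nat.findGreatest_spec (P := P i) (Nat.zero_le i) (hP0 i)
  choose G hG1 hG2 hG3 using hκ
  refine ⟨G, hG1, hG2, ?_⟩
  have hbd : ∀ i, ‖F i - G i‖ ≤ B + B := fun i => (norm_sub_le _ _).trans (add_le_add (hF i) (hG1 i))
  have hκt : Tendsto κ atTop atTop := by
    rw [tendsto_atTop]
    intro k
    filter_upwards [hPk k, eventually_ge_atTop k] with i hi1 hi2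
    exact Nat.le_findGreatest hi2 hi1
  have hd : ∀ x ∈ Set.range d, Tendsto (fun i => (F i - G i) x) atTop (𝓝 0) := by
    rintro _ ⟨j, rfl⟩
    rw [tendsto_zero_iff_norm_tendsto_zero]
    have h1 : Tendsto (fun i => 1 / ((κ i : ℝ) + 1)) atTop (𝓝 0) :=
      tendsto_one_div_add_atTop_nhds_zero_nat.comp hκt
    apply squeeze_zero' (Eventually.of_forall (fun _ => norm_nonneg _)) _ h1
    filter_upwards [hκt.eventually_gt_atTop j] with i hi
    exact hG3 i j hi
  intro x
  exact tendsto_of_dense (fun i => F i - G i) hbd _ hd x (TopologicalSpace.denseRange_denseSeq E x)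

/-! ### A biorthogonal sequence relative to a subspace -/

/-- A version of the Gram-Schmidt construction: a minimal sequence modulo `X` (with some members
replaced by zero) with the same closed span modulo `X` as a given sequence. -/
theorem exists_minimal_mod (X : Submodule 𝕜 E) (v : ℕ → E) :
    ∃ (e : ℕ → E) (g : ℕ → StrongDual 𝕜 E), (∀ i, ∀ x ∈ X, g i x = 0) ∧
      (∀ i j, i ≠ j → g i (e j) = 0) ∧ (∀ i, e i = 0 ∨ g i (e i) = 1) ∧
      (∀ j, v j ∈ (X ⊔ Submodule.span 𝕜 (Set.range e)).topologicalClosure) ∧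
      (∀ j, v j = 0 → e j = 0) := by
  classical
  let p : ℕ → (ℕ → E × StrongDual 𝕜 E) → E := fun n s =>
    v n - ∑ i ∈ Finset.range n, (s i).2 (v n) • (s i).1
  let W : ℕ → (ℕ → E × StrongDual 𝕜 E) → Submodule 𝕜 E := fun n s =>
    (X ⊔ Submodule.span 𝕜 ((fun i => (s i).1) '' Set.Iio n)).topologicalClosure
  let R : ℕ → (ℕ → E × StrongDual 𝕜 E) → (E × StrongDual 𝕜 E) → Prop := fun n s a =>
    (p n s ∈ W n s ∧ a = (0, 0)) ∨ (p n s ∉ W n s ∧ a.1 = p n s ∧ a.2 (p n s) = 1 ∧
      ∀ w ∈ W n s, a.2 w = 0)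
  have hp : ∀ n s t, (∀ i < n, s i = t i) → p n s = p n t := by
    intro n s t h
    simp only [p]
    congr 1
    refine Finset.sum_congr rfl (fun i hi => ?_)
    rw [h i (Finset.mem_range.mp hi)]
  have hW : ∀ n s t, (∀ i < n, s i = t i) → W n s = W n t := by
    intro n s t h
    simp only [W]
    congr 3
    apply Set.image_congr
    intro i hi
    rw [h i hi]
  obtain ⟨s, hs⟩ := exists_seq_strong R
    (by
      intro n s t a h hRs
      simp only [R] at hRs ⊢
      rw [← hp n s t h, ← hW n s t h]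
      exact hRs)
    (by
      intro n s _
      by_cases h : p n s ∈ W n s
      · exact ⟨(0, 0), Or.inl ⟨h, rfl⟩⟩
      · obtain ⟨g, hg1, hg2⟩ := exists_functional (Submodule.isClosed_topologicalClosure _) h
        exact ⟨(p n s, g), Or.inr ⟨h, rfl, hg2, hg1⟩⟩)
  let e : ℕ → E := fun i => (s i).1
  let g : ℕ → StrongDual 𝕜 E := fun i => (s i).2
  have hpe : ∀ n, p n s = v n - ∑ i ∈ Finset.range n, g i (v n) • e i := fun n => rfl
  have hXW : ∀ n, ∀ x ∈ X, x ∈ W n s := fun n x hx =>
    Submodule.le_topologicalClosure _ (Submodule.mem_sup_left hx)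
  have heW : ∀ n i, i < n → e i ∈ W n s := fun n i hi =>
    Submodule.le_topologicalClosure _ (Submodule.mem_sup_right (Submodule.subset_span ⟨i, hi, rfl⟩))
  have hgX : ∀ i, ∀ x ∈ X, g i x = 0 := by
    intro i x hx
    rcases hs i with ⟨_, h⟩ | ⟨_, _, _, h⟩
    · have : g i = 0 := by simp only [g]; rw [h]
      rw [this]; rfl
    · exact h x (hXW i x hx)
  have hdiag : ∀ i, e i = 0 ∨ g i (e i) = 1 := by
    intro i
    rcases hs i with ⟨_, h⟩ | ⟨_, h1, h2, _⟩
    · left
      simp only [e]; rw [h]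
    · right
      have : e i = p i s := h1
      rw [this]
      exact h2
  have hup : ∀ i j, j < i → g i (e j) = 0 := by
    intro i j hij
    rcases hs i with ⟨_, h⟩ | ⟨_, _, _, h⟩
    · have : g i = 0 := by simp only [g]; rw [h]
      rw [this]; rfl
    · exact h _ (heW i j hij)
  have hlow : ∀ j i, i < j → g i (e j) = 0 := by
    intro j
    induction j using Nat.strong_induction_on with
    | _ j ih =>
      intro i hij
      rcases hs j with ⟨_, h⟩ | ⟨_, h1, _, _⟩
      · have : e j = 0 := by simp only [e]; rw [h]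
        rw [this, map_zero]
      · have h2 : e j = v j - ∑ l ∈ Finset.range j, g l (v j) • e l := h1.trans (hpe j)
        rw [h2, map_sub, map_sum]
        have h3 : ∑ l ∈ Finset.range j, g i (g l (v j) • e l) = g i (v j) * g i (e i) := by
          rw [Finset.sum_eq_single i]
          · rw [map_smul, smul_eq_mul]
          · intro l hl hli
            rw [map_smul, smul_eq_mul]
            have h4 : g i (e l) = 0 := by
              rcases lt_or_gt_of_ne hli with h5 | h5
              · exact hup i l h5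
              · exact ih l (Finset.mem_range.mp hl) i h5
            rw [h4, mul_zero]
          · intro h5
            exact absurd (Finset.mem_range.mpr hij) h5
        rw [h3]
        rcases hs i with ⟨_, h⟩ | ⟨_, h6, h7, _⟩
        · have : g i = 0 := by simp only [g]; rw [h]
          rw [this]; simp
        · have h8 : g i (e i) = 1 := by
            have : e i = p i s := h6
            rw [this]; exact h7
          rw [h8, mul_one, sub_self]
  refine ⟨e, g, hgX, ?_, hdiag, ?_, ?_⟩
  · intro i j hij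
    rcases lt_or_gt_of_ne hij with h | h
    · exact hlow j i h
    · exact hup i j h
  · intro j
    set Z := (X ⊔ Submodule.span 𝕜 (Set.range e)).topologicalClosure with hZ
    have hWZ : ∀ n, W n s ≤ Z := by
      intro n
      apply Submodule.topologicalClosure_mono
      apply sup_le_sup_left
      apply Submodule.span_mono
      rintro _ ⟨i, _, rfl⟩
      exact ⟨i, rfl⟩
    have hpZ : p j s ∈ Z := by
      rcases hs j with ⟨h, _⟩ | ⟨_, h1, _, _⟩
      · exact hWZ j h
      · rw [← h1]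
        exact Submodule.le_topologicalClosure _ (Submodule.mem_sup_right
          (Submodule.subset_span ⟨j, rfl⟩))
    have h2 : v j = p j s + ∑ i ∈ Finset.range j, g i (v j) • e i := by
      rw [hpe]; abel
    rw [h2]
    refine Submodule.add_mem _ hpZ (Submodule.sum_mem _ (fun i _ => Submodule.smul_mem _ _ ?_))
    exact Submodule.le_topologicalClosure _ (Submodule.mem_sup_right
      (Submodule.subset_span ⟨i, rfl⟩))
  · intro j hj
    have h1 : p j s = 0 := by
      rw [hpe, hj]
      simp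
    rcases hs j with ⟨_, h⟩ | ⟨h, _⟩
    · simp only [e]; rw [h]
    · rw [h1] at h
      exact absurd (Submodule.zero_mem _) h

/-! ### Theorem A -/

/-- A uniformly bounded biorthogonal system tends to zero on the closed span of its vectors. -/
theorem tendsto_on_span (u : ℕ → E) (F : ℕ → StrongDual 𝕜 E)
    (hb : ∀ i j, F i (u j) = if i = j then 1 else 0) {B : ℝ} (hF : ∀ i, ‖F i‖ ≤ B) :
    ∀ x ∈ (Submodule.span 𝕜 (Set.range u)).topologicalClosure,
      Tendsto (fun i => F i x) atTop (𝓝 0) := by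
  intro x hx
  apply tendsto_of_dense F hF (Submodule.span 𝕜 (Set.range u) : Set E) _ x hx
  intro y hy
  induction hy using Submodule.span_induction with
  | mem y hy =>
    obtain ⟨n, rfl⟩ := hy
    apply tendsto_const_nhds.congr'
    filter_upwards [eventually_gt_atTop n] with i hi
    rw [hb, if_neg (by omega)]
  | zero => simp
  | add y z _ _ hy hz =>
    have := hy.add hz
    simpa using this
  | smul c y _ hy =>
    have := hy.const_mul c
    simpa using this

/-- Theorem A: bounded biorthogonal systems can be completed with control on the old functionals. -/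
theorem completion [TopologicalSpace.SeparableSpace E] (u : ℕ → E) (F : ℕ → StrongDual 𝕜 E)
    (hb : ∀ i j, F i (u j) = if i = j then 1 else 0) {B : ℝ} (hF : ∀ i, ‖F i‖ ≤ B) (v : ℕ → E) :
    ∃ (f : ℕ → StrongDual 𝕜 E) (y : ℕ → E) (g : ℕ → StrongDual 𝕜 E),
      (∀ i, ‖f i‖ ≤ 2 * B + 1) ∧ (∀ i j, f i (u j) = if i = j then 1 else 0) ∧
      (∀ i j, f i (y j) = 0) ∧ (∀ i j, g i (u j) = 0) ∧ (∀ i j, i ≠ j → g i (y j) = 0) ∧
      (∀ i, y i = 0 ∨ g i (y i) = 1) ∧
      (∀ j, v j ∈ (Submodule.span 𝕜 (Set.range u) ⊔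
        Submodule.span 𝕜 (Set.range y)).topologicalClosure) ∧
      (∀ j, v j = 0 → y j = 0) := by
  classical
  set X := (Submodule.span 𝕜 (Set.range u)).topologicalClosure with hX
  have huX : ∀ j, u j ∈ X := fun j =>
    Submodule.le_topologicalClosure _ (Submodule.subset_span ⟨j, rfl⟩)
  obtain ⟨G, hG1, hG2, hG3⟩ := veech X F hF (tendsto_on_span u F hb hF)
  obtain ⟨e, g, hg1, hg2, hg3, hg4, hg5⟩ := exists_minimal_mod X v
  set H : ℕ → StrongDual 𝕜 E := fun i => F i - G i with hH
  have hHn : ∀ i, ‖H i‖ ≤ 2 * B := fun i =>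
    (norm_sub_le _ _).trans (by linarith [hF i, hG1 i])
  have hHu : ∀ i j, H i (u j) = if i = j then 1 else 0 := by
    intro i j
    simp only [hH, sub_apply]
    rw [hG2 i (u j) (huX j), sub_zero, hb]
  let S : ℕ → ℕ → ℝ := fun i k => ∑ j ∈ Finset.range k, ‖H i (e j)‖ * ‖g j‖
  have hS : ∀ k, ∀ᶠ i in atTop, S i k ≤ 1 := by
    intro k
    have h1 : Tendsto (fun i => S i k) atTop (𝓝 (∑ j ∈ Finset.range k, 0 * ‖g j‖)) := by
      apply tendsto_finsetSum
      intro j _
      apply Tendsto.mul_const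
      have := (hG3 (e j)).norm
      rwa [norm_zero] at this
    simp only [zero_mul, Finset.sum_const_zero] at h1
    exact h1.eventually_le_const zero_lt_one
  let κ : ℕ → ℕ := fun i => Nat.findGreatest (fun k => S i k ≤ 1) i
  have hκ : ∀ i, S i (κ i) ≤ 1 := fun i =>
    Nat.findGreatest_spec (P := fun k => S i k ≤ 1) (Nat.zero_le i) (by simp [S])
  have hκt : Tendsto κ atTop atTop := by
    rw [tendsto_atTop]
    intro k
    filter_upwards [hS k, eventually_ge_atTop k] with i hi1 hi2
    exact Nat.le_findGreatest hi2 hi1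
  let f : ℕ → StrongDual 𝕜 E := fun i => H i - ∑ j ∈ Finset.range (κ i), H i (e j) • g j
  have hf : ∀ i w, f i w = H i w - ∑ j ∈ Finset.range (κ i), H i (e j) * g j w := by
    intro i w
    simp [f]
  have hfn : ∀ i, ‖f i‖ ≤ 2 * B + 1 := by
    intro i
    refine (norm_sub_le _ _).trans (add_le_add (hHn i) ?_)
    refine (norm_sum_le _ _).trans ((Finset.sum_le_sum (fun j _ => ?_)).trans (hκ i))
    rw [norm_smul]
  have hfu : ∀ i j, f i (u j) = if i = j then 1 else 0 := by
    intro i j
    rw [hf, hHu, Finset.sum_eq_zero, sub_zero]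
    intro l _
    rw [hg1 l (u j) (huX j), mul_zero]
  have hfe : ∀ j, ∀ᶠ i in atTop, f i (e j) = 0 := by
    intro j
    filter_upwards [hκt.eventually_gt_atTop j] with i hi
    rw [hf, Finset.sum_eq_single j]
    · rcases hg3 j with h | h
      · rw [h]; simp
      · rw [h, mul_one, sub_self]
    · intro l _ hl
      rw [hg2 l j hl, mul_zero]
    · intro h
      exact absurd (Finset.mem_range.mpr hi) h
  have hM : ∀ j, ∃ M, ∀ i, M ≤ i → f i (e j) = 0 := fun j => eventually_atTop.mp (hfe j)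
  choose M hM using hM
  let y : ℕ → E := fun j => e j - ∑ i ∈ Finset.range (M j), f i (e j) • u i
  have hsumX : ∀ j, ∑ i ∈ Finset.range (M j), f i (e j) • u i ∈ X := fun j =>
    Submodule.sum_mem _ (fun i _ => Submodule.smul_mem _ _ (huX i))
  have hgy : ∀ i j, g i (y j) = g i (e j) := by
    intro i j
    simp only [y, map_sub]
    rw [hg1 i _ (hsumX j), sub_zero]
  have hy0 : ∀ j, e j = 0 → y j = 0 := by
    intro j hj
    simp [y, hj]
  refine ⟨f, y, g, hfn, hfu, ?_, fun i j => hg1 i _ (huX j), ?_, ?_, ?_, ?_⟩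
  · intro i j
    simp only [y, map_sub, map_sum, map_smul, hfu, smul_eq_mul, mul_ite, mul_one, mul_zero]
    rw [Finset.sum_ite_eq]
    by_cases h : i ∈ Finset.range (M j)
    · rw [if_pos h, sub_self]
    · rw [if_neg h, sub_zero]
      exact hM j i (by simpa using h)
  · intro i j hij
    rw [hgy, hg2 i j hij]
  · intro i
    rcases hg3 i with h | h
    · left; exact hy0 i h
    · right; rw [hgy, h]
  · intro j
    set Z := (Submodule.span 𝕜 (Set.range u) ⊔ Submodule.span 𝕜 (Set.range y)).topologicalClosure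
      with hZ
    have hXZ : X ≤ Z := Submodule.topologicalClosure_mono le_sup_left
    have hyZ : ∀ l, y l ∈ Z := fun l =>
      Submodule.le_topologicalClosure _ (Submodule.mem_sup_right (Submodule.subset_span ⟨l, rfl⟩))
    have heZ : ∀ l, e l ∈ Z := by
      intro l
      have : e l = y l + ∑ i ∈ Finset.range (M l), f i (e l) • u i := by
        simp only [y]; abel
      rw [this]
      exact Submodule.add_mem _ (hyZ l) (hXZ (hsumX l))
    have h1 : (X ⊔ Submodule.span 𝕜 (Set.range e)).topologicalClosure ≤ Z := by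
      apply Submodule.topologicalClosure_minimal
      · apply sup_le hXZ
        rw [Submodule.span_le]
        rintro _ ⟨l, rfl⟩
        exact heZ l
      · exact Submodule.isClosed_topologicalClosure _
    exact h1 (hg4 j)
  · intro j hj
    exact hy0 j (hg5 j hj)

end Pool.Agent.V11100
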