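import Mathlib

namespace Pool.Agent.V11100

/-- The `N`-th block of indices, `N² ≤ n < (N+1)²`. -/
def block (N : ℕ) : Finset ℕ := Finset.Ico (N * N) ((N + 1) * (N + 1))

theorem mem_block {N n : ℕ} : n ∈ block N ↔ Nat.sqrt n = N := by
  unfold block
  rw [Finset.mem_Ico, eq_comm, Nat.eq_sqrt]

theorem card_block (N : ℕ) : (block N).card = 2 * N + 1 := by
  unfold block
  rw [Nat.card_Ico]
  have : (N + 1) * (N + 1) = N * N + (2 * N + 1) := by ring
  omega

theorem block_disj {M N : ℕ} (h : M ≠ N) : Disjoint (block M) (block N) := by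
  rw [Finset.disjoint_left]
  intro n h1 h2
  rw [mem_block] at h1 h2
  exact h (h1.symm.trans h2)

theorem sum_blocks {M : Type*} [AddCommMonoid M] (f : ℕ → M) (K : ℕ) :
    ∑ N ∈ Finset.range K, ∑ n ∈ block N, f n = ∑ n ∈ Finset.range (K * K), f n := by
  induction K with
  | zero => simp
  | succ K ih =>
    rw [Finset.sum_range_succ, ih]
    unfold block
    rw [Finset.range_eq_Ico, Finset.range_eq_Ico]
    apply Finset.sum_Ico_consecutive
    · exact Nat.zero_le _
    · nlinarith

end Pool.Agent.V11100
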