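import Mathlib
import Pool.Agent.V11100.Tools

open Filter Topology

namespace Pool.Agent.V11100

variable {𝕜 : Type*} [RCLike 𝕜]

/-- The scalar `1/√2`. -/
noncomputable def cs (𝕜 : Type*) [RCLike 𝕜] : 𝕜 := (((Real.sqrt 2)⁻¹ : ℝ) : 𝕜)

theorem cs_mul : (cs 𝕜) * (cs 𝕜) + (cs 𝕜) * (cs 𝕜) = 1 := by
  unfold cs
  rw [← RCLike.ofReal_mul, ← RCLike.ofReal_add, ← mul_inv, Real.mul_self_sqrt (by norm_num)]
  norm_num

theorem norm_cs : ‖cs 𝕜‖ = (Real.sqrt 2)⁻¹ := by
  unfold cs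
  rw [RCLike.norm_ofReal, abs_of_nonneg (by positivity)]

/-- One doubling step of the Haar mixing. -/
noncomputable def rot {V : Type*} [AddCommGroup V] [Module 𝕜 V] (n : ℕ) (w : ℕ → V) (l : ℕ) : V :=
  if l < n then cs 𝕜 • (w l + w (l + n)) else if l < 2 * n then cs 𝕜 • (w (l - n) - w l) else w l

section Rot
variable {V : Type*} [AddCommGroup V] [Module 𝕜 V]

theorem rot_lt {n : ℕ} {w : ℕ → V} {l : ℕ} (h : l < n) :
    rot (𝕜 := 𝕜) n w l = cs 𝕜 • (w l + w (l + n)) := by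
  unfold rot; rw [if_pos h]

theorem rot_mid {n : ℕ} {w : ℕ → V} {l : ℕ} (h : l < n) :
    rot (𝕜 := 𝕜) n w (l + n) = cs 𝕜 • (w l - w (l + n)) := by
  unfold rot
  rw [if_neg (by omega), if_pos (by omega), Nat.add_sub_cancel]

theorem rot_ge {n : ℕ} {w : ℕ → V} {l : ℕ} (h : 2 * n ≤ l) : rot (𝕜 := 𝕜) n w l = w l := by
  unfold rot
  rw [if_neg (by omega), if_neg (by omega)]

theorem cases3 (n l : ℕ) : l < n ∨ (∃ k, k < n ∧ l = k + n) ∨ 2 * n ≤ l := by
  by_cases h1 : l < n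
  · exact Or.inl h1
  · by_cases h2 : l < 2 * n
    · exact Or.inr (Or.inl ⟨l - n, by omega, by omega⟩)
    · exact Or.inr (Or.inr (by omega))

theorem rot_mem_span (n : ℕ) (w : ℕ → V) (l : ℕ) :
    rot (𝕜 := 𝕜) n w l ∈ Submodule.span 𝕜 (Set.range w) := by
  have h : ∀ i, w i ∈ Submodule.span 𝕜 (Set.range w) := fun i => Submodule.subset_span ⟨i, rfl⟩
  rcases cases3 n l with h1 | ⟨k, hk, rfl⟩ | h1
  · rw [rot_lt h1]
    exact Submodule.smul_mem _ _ (Submodule.add_mem _ (h _) (h _))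
  · rw [rot_mid hk]
    exact Submodule.smul_mem _ _ (Submodule.sub_mem _ (h _) (h _))
  · rw [rot_ge h1]
    exact h _

theorem mem_span_rot (n : ℕ) (w : ℕ → V) (l : ℕ) :
    w l ∈ Submodule.span 𝕜 (Set.range (rot (𝕜 := 𝕜) n w)) := by
  have h : ∀ i, rot (𝕜 := 𝕜) n w i ∈ Submodule.span 𝕜 (Set.range (rot (𝕜 := 𝕜) n w)) :=
    fun i => Submodule.subset_span ⟨i, rfl⟩
  rcases cases3 n l with h1 | ⟨k, hk, rfl⟩ | h1
  · have e : w l = cs 𝕜 • (rot (𝕜 := 𝕜) n w l + rot (𝕜 := 𝕜) n w (l + n)) := by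
      rw [rot_lt h1, rot_mid h1, ← smul_add, smul_smul]
      have e2 : w l + w (l + n) + (w l - w (l + n)) = w l + w l := by abel
      rw [e2, smul_add, ← add_smul, cs_mul, one_smul]
    rw [e]
    exact Submodule.smul_mem _ _ (Submodule.add_mem _ (h _) (h _))
  · have e : w (k + n) = cs 𝕜 • (rot (𝕜 := 𝕜) n w k - rot (𝕜 := 𝕜) n w (k + n)) := by
      rw [rot_lt hk, rot_mid hk, ← smul_sub, smul_smul]
      have e2 : w k + w (k + n) - (w k - w (k + n)) = w (k + n) + w (k + n) := by abel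
      rw [e2, smul_add, ← add_smul, cs_mul, one_smul]
    rw [e]
    exact Submodule.smul_mem _ _ (Submodule.sub_mem _ (h _) (h _))
  · have e := h l
    rwa [rot_ge h1] at e

theorem span_rot (n : ℕ) (w : ℕ → V) :
    Submodule.span 𝕜 (Set.range (rot (𝕜 := 𝕜) n w)) = Submodule.span 𝕜 (Set.range w) := by
  apply le_antisymm
  · rw [Submodule.span_le]
    rintro _ ⟨l, rfl⟩
    exact rot_mem_span n w l
  · rw [Submodule.span_le]
    rintro _ ⟨l, rfl⟩
    exact mem_span_rot n w l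

end Rot

section Normed
variable {V : Type*} [NormedAddCommGroup V] [NormedSpace 𝕜 V]

theorem rot_norm {n : ℕ} {w : ℕ → V} {b M : ℝ} (h1 : ∀ l < n, ‖w l‖ ≤ b)
    (h2 : ∀ l, n ≤ l → ‖w l‖ ≤ M) :
    (∀ l < 2 * n, ‖rot (𝕜 := 𝕜) n w l‖ ≤ (Real.sqrt 2)⁻¹ * (b + M)) ∧
      ∀ l, 2 * n ≤ l → ‖rot (𝕜 := 𝕜) n w l‖ ≤ M := by
  constructor
  · intro l hl
    rcases cases3 n l with h | ⟨k, hk, rfl⟩ | h
    · rw [rot_lt h, norm_smul, norm_cs]
      gcongr
      exact (norm_add_le _ _).trans (add_le_add (h1 l h) (h2 _ (by omega)))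
    · rw [rot_mid hk, norm_smul, norm_cs]
      gcongr
      exact (norm_sub_le _ _).trans (add_le_add (h1 k hk) (h2 _ (by omega)))
    · omega
  · intro l hl
    rw [rot_ge hl]
    exact h2 l (by omega)

/-- The iterated mixing. -/
noncomputable def mixSeq (𝕜 : Type*) [RCLike 𝕜] {V : Type*} [NormedAddCommGroup V]
    [NormedSpace 𝕜 V] (w : ℕ → V) : ℕ → (ℕ → V)
  | 0 => w
  | r + 1 => rot (𝕜 := 𝕜) (2 ^ r) (mixSeq 𝕜 w r)

theorem span_mixSeq (w : ℕ → V) (r : ℕ) :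
    Submodule.span 𝕜 (Set.range (mixSeq 𝕜 w r)) = Submodule.span 𝕜 (Set.range w) := by
  induction r with
  | zero => rfl
  | succ r ih => rw [mixSeq, span_rot, ih]

theorem inv_sqrt_two_le : (Real.sqrt 2)⁻¹ ≤ 3 / 4 := by
  rw [inv_le_comm₀ (by positivity) (by norm_num)]
  rw [Real.le_sqrt' (by norm_num)]
  norm_num

theorem mixSeq_norm {w : ℕ → V} {K M : ℝ} (hM : 0 ≤ M) (h0 : ‖w 0‖ ≤ K)
    (h : ∀ l, 1 ≤ l → ‖w l‖ ≤ M) (r : ℕ) :
    (∀ l < 2 ^ r, ‖mixSeq 𝕜 w r l‖ ≤ K * (3 / 4) ^ r + 3 * M) ∧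
      ∀ l, 2 ^ r ≤ l → ‖mixSeq 𝕜 w r l‖ ≤ M := by
  have hK : 0 ≤ K := (norm_nonneg _).trans h0
  induction r with
  | zero =>
    constructor
    · intro l hl
      have : l = 0 := by simpa using hl
      subst this
      rw [mixSeq, pow_zero, mul_one]
      linarith
    · intro l hl
      exact h l (by simpa using hl)
  | succ r ih =>
    obtain ⟨ih1, ih2⟩ := ih
    obtain ⟨h3, h4⟩ := rot_norm (𝕜 := 𝕜) ih1 ih2
    have e : 2 ^ (r + 1) = 2 * 2 ^ r := by ring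
    rw [e]
    constructor
    · intro l hl
      rw [mixSeq]
      refine (h3 l hl).trans ?_
      have h5 := inv_sqrt_two_le
      have h6 : 0 ≤ K * (3 / 4) ^ r + 3 * M + M := by positivity
      calc (Real.sqrt 2)⁻¹ * (K * (3 / 4) ^ r + 3 * M + M)
          ≤ 3 / 4 * (K * (3 / 4) ^ r + 3 * M + M) := by gcongr
        _ = K * (3 / 4) ^ (r + 1) + 3 * M := by ring
    · intro l hl
      rw [mixSeq]
      exact h4 l hl

end Normed

section Biorth
variable {E : Type*} [NormedAddCommGroup E] [NormedSpace 𝕜 E]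

theorem rot_biorth (n : ℕ) (w : ℕ → E) (ws : ℕ → StrongDual 𝕜 E)
    (h : ∀ i j, ws i (w j) = if i = j then 1 else 0) (i j : ℕ) :
    (rot (𝕜 := 𝕜) n ws i) (rot (𝕜 := 𝕜) n w j) = if i = j then 1 else 0 := by
  have hc := cs_mul (𝕜 := 𝕜)
  rcases cases3 n i with hi | ⟨a, ha, rfl⟩ | hi <;> rcases cases3 n j with hj | ⟨b, hb, rfl⟩ | hj
  · rw [rot_lt hi, rot_lt hj]
    simp only [smul_apply, add_apply, map_smul, map_add, h, smul_eq_mul, Nat.add_right_cancel_iff]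
    rw [if_neg (show ¬ i = j + n by omega), if_neg (show ¬ i + n = j by omega)]
    by_cases hij : i = j
    · simp only [hij, if_true]
      linear_combination hc
    · simp [hij]
  · rw [rot_lt hi, rot_mid hb]
    simp only [smul_apply, add_apply, map_smul, map_sub, h, smul_eq_mul, Nat.add_right_cancel_iff]
    rw [if_neg (show ¬ i = b + n by omega), if_neg (show ¬ i + n = b by omega)]
    by_cases hij : i = b
    · simp only [hij, if_true]
      ring
    · simp [hij]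
  · rw [rot_lt hi, rot_ge hj]
    simp only [smul_apply, add_apply, h, smul_eq_mul]
    rw [if_neg (show ¬ i = j by omega), if_neg (show ¬ i + n = j by omega)]
    simp
  · rw [rot_mid ha, rot_lt hj]
    simp only [smul_apply, sub_apply, map_smul, map_add, h, smul_eq_mul, Nat.add_right_cancel_iff]
    rw [if_neg (show ¬ a = j + n by omega), if_neg (show ¬ a + n = j by omega)]
    by_cases hij : a = j
    · simp only [hij, if_true]
      ring
    · simp [hij]
  · rw [rot_mid ha, rot_mid hb]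
    simp only [smul_apply, sub_apply, map_smul, map_sub, h, smul_eq_mul, Nat.add_right_cancel_iff]
    rw [if_neg (show ¬ a = b + n by omega), if_neg (show ¬ a + n = b by omega)]
    by_cases hij : a = b
    · simp only [hij, if_true]
      linear_combination hc
    · simp [hij]
  · rw [rot_mid ha, rot_ge hj]
    simp only [smul_apply, sub_apply, h, smul_eq_mul]
    rw [if_neg (show ¬ a = j by omega), if_neg (show ¬ a + n = j by omega)]
    simp
  · rw [rot_ge hi, rot_lt hj]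
    simp only [map_smul, map_add, h, smul_eq_mul]
    rw [if_neg (show ¬ i = j by omega), if_neg (show ¬ i = j + n by omega)]
    simp
  · rw [rot_ge hi, rot_mid hb]
    simp only [map_smul, map_sub, h, smul_eq_mul]
    rw [if_neg (show ¬ i = b by omega), if_neg (show ¬ i = b + n by omega)]
    simp
  · rw [rot_ge hi, rot_ge hj, h]

theorem mixSeq_biorth (w : ℕ → E) (ws : ℕ → StrongDual 𝕜 E)
    (h : ∀ i j, ws i (w j) = if i = j then 1 else 0) (r : ℕ) :
    ∀ i j, (mixSeq 𝕜 ws r i) (mixSeq 𝕜 w r j) = if i = j then 1 else 0 := by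
  induction r with
  | zero => exact h
  | succ r ih =>
    intro i j
    rw [mixSeq, mixSeq]
    exact rot_biorth _ _ _ ih i j

/-- Mixing a possibly large biorthogonal pair with a bounded biorthogonal sequence. -/
theorem mixing (w : ℕ → E) (ws : ℕ → StrongDual 𝕜 E)
    (h : ∀ i j, ws i (w j) = if i = j then 1 else 0) {M : ℝ} (hM : 0 ≤ M)
    (h1 : ∀ l, 1 ≤ l → ‖w l‖ ≤ M) (h2 : ∀ l, 1 ≤ l → ‖ws l‖ ≤ M) :
    ∃ (w' : ℕ → E) (ws' : ℕ → StrongDual 𝕜 E), (∀ i j, ws' i (w' j) = if i = j then 1 else 0) ∧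
      (∀ i, ‖w' i‖ ≤ 1 + 3 * M) ∧ (∀ i, ‖ws' i‖ ≤ 1 + 3 * M) ∧
      Submodule.span 𝕜 (Set.range w') = Submodule.span 𝕜 (Set.range w) ∧
      Submodule.span 𝕜 (Set.range ws') = Submodule.span 𝕜 (Set.range ws) := by
  set K := max ‖w 0‖ ‖ws 0‖ with hK
  have hlim : Tendsto (fun r : ℕ => K * (3 / 4 : ℝ) ^ r) atTop (𝓝 (K * 0)) :=
    (tendsto_pow_atTop_nhds_zero_of_lt_one (by norm_num) (by norm_num)).const_mul K
  rw [mul_zero] at hlim
  obtain ⟨r, hr⟩ := (hlim.eventually_le_const zero_lt_one).exists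
  obtain ⟨a1, a2⟩ := mixSeq_norm (𝕜 := 𝕜) hM (le_max_left ‖w 0‖ ‖ws 0‖) h1 r
  obtain ⟨b1, b2⟩ := mixSeq_norm (𝕜 := 𝕜) hM (le_max_right ‖w 0‖ ‖ws 0‖) h2 r
  refine ⟨mixSeq 𝕜 w r, mixSeq 𝕜 ws r, mixSeq_biorth w ws h r, ?_, ?_, span_mixSeq w r,
    span_mixSeq ws r⟩
  · intro i
    rcases lt_or_ge i (2 ^ r) with hi | hi
    · exact (a1 i hi).trans (by linarith)
    · exact (a2 i hi).trans (by linarith)
  · intro i
    rcases lt_or_ge i (2 ^ r) with hi | hi
    · exact (b1 i hi).trans (by linarith)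
    · exact (b2 i hi).trans (by linarith)

end Biorth

end Pool.Agent.V11100
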