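import Mathlib
import Pool.Agent.V11100.Tools

open Filter Topology

namespace Pool.Agent.V11100

variable {𝕜 : Type*} [RCLike 𝕜] {E : Type*} [NormedAddCommGroup E] [NormedSpace 𝕜 E]

/-- Pigeonhole: two members of a bounded sequence in a proper space are close. -/
theorem pigeon {V : Type*} [PseudoMetricSpace V] [ProperSpace V] (s : ℕ → V) {x : V} {r : ℝ}
    (hs : ∀ n, s n ∈ Metric.closedBall x r) {δ : ℝ} (hδ : 0 < δ) :
    ∃ l m, l < m ∧ dist (s m) (s l) < δ := by
  obtain ⟨a, φ, hφ, ha⟩ := (isCompact_closedBall x r).tendsto_subseq hs |>.imp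
    (fun a h => h.2) |> fun h => h
  obtain ⟨N, hN⟩ := (Metric.tendsto_atTop.mp ha) (δ / 2) (by positivity)
  refine ⟨φ N, φ (N + 1), hφ (Nat.lt_succ_self N), ?_⟩
  have h1 := hN N le_rfl
  have h2 := hN (N + 1) (Nat.le_succ N)
  have h3 := dist_triangle_right (s (φ (N + 1))) (s (φ N)) a
  simp only [Function.comp] at h1 h2
  linarith

/-- In an infinite-dimensional quotient there are separated bounded sequences. -/
theorem exists_separated (V : Submodule 𝕜 E)
    (hinf : ∀ s : Finset E, (V ⊔ Submodule.span 𝕜 (s : Set E)).topologicalClosure ≠ ⊤) :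
    ∃ e : ℕ → E, (∀ l, ‖e l‖ ≤ 3) ∧ ∀ l m, l < m → ∀ w ∈ V, 1 ≤ ‖e m - e l - w‖ := by
  classical
  let W : ℕ → (ℕ → E) → Submodule 𝕜 E := fun n s =>
    (V ⊔ Submodule.span 𝕜 ((Finset.range n).image s : Set E)).topologicalClosure
  let R : ℕ → (ℕ → E) → E → Prop := fun n s a => ‖a‖ ≤ 3 ∧ ∀ w ∈ W n s, 1 ≤ ‖a - w‖
  obtain ⟨e, he⟩ := exists_seq_strong R
    (by
      intro n s t a h hRs
      have h1 : (Finset.range n).image s = (Finset.range n).image t :=
        Finset.image_congr (fun i hi => h i (by simpa using hi))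
      simp only [R, W] at hRs ⊢
      rw [← h1]
      exact hRs)
    (by
      intro n s _
      have h1 : W n s ≠ ⊤ := hinf _
      have h2 : ∃ x, x ∉ W n s := by
        by_contra hcon
        push Not at hcon
        exact h1 (eq_top_iff.mpr (fun x _ => hcon x))
      obtain ⟨a, ha1, ha2⟩ := riesz_lemma_of_norm_lt (𝕜 := 𝕜) (c := (2 : 𝕜)) (by simp) (R := 3)
        (by simp; norm_num) (Submodule.isClosed_topologicalClosure _) h2
      exact ⟨a, ha1, ha2⟩)
  refine ⟨e, fun l => (he l).1, ?_⟩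
  intro l m hlm w hw
  have h1 : e l + w ∈ W m e := by
    apply Submodule.le_topologicalClosure
    apply Submodule.add_mem
    · apply Submodule.mem_sup_right
      apply Submodule.subset_span
      simp only [Finset.coe_image, Finset.coe_range]
      exact ⟨l, hlm, rfl⟩
    · exact Submodule.mem_sup_left hw
  have h2 := (he m).2 _ h1
  rwa [← sub_sub] at h2

/-- Two members of a separated sequence whose difference is nearly killed by finitely many
functionals. -/
theorem exists_small_values (V : Submodule 𝕜 E)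
    (hinf : ∀ s : Finset E, (V ⊔ Submodule.span 𝕜 (s : Set E)).topologicalClosure ≠ ⊤)
    (N : ℕ) (h : ℕ → StrongDual 𝕜 E) {δ : ℝ} (hδ : 0 < δ) :
    ∃ e : E, ‖e‖ ≤ 6 ∧ (∀ w ∈ V, 1 ≤ ‖e - w‖) ∧ ∀ i < N, ‖h i e‖ ≤ δ := by
  obtain ⟨e, he1, he2⟩ := exists_separated V hinf
  let T : ℕ → (Fin N → 𝕜) := fun n i => h i (e n)
  let r : ℝ := ∑ i ∈ Finset.range N, ‖h i‖ * 3
  have hT : ∀ n, T n ∈ Metric.closedBall (0 : Fin N → 𝕜) r := by
    intro n
    rw [mem_closedBall_zero_iff, pi_norm_le_iff_of_nonneg (Finset.sum_nonneg (fun _ _ => by positivity))]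
    intro i
    have h1 : ‖h i (e n)‖ ≤ ‖h i‖ * 3 :=
      ((h i).le_opNorm _).trans (mul_le_mul_of_nonneg_left (he1 n) (norm_nonneg _))
    refine h1.trans ?_
    exact Finset.single_le_sum (f := fun i => ‖h i‖ * 3) (fun _ _ => by positivity)
      (Finset.mem_range.mpr i.2)
  obtain ⟨l, m, hlm, hd⟩ := pigeon T hT hδ
  refine ⟨e m - e l, ?_, he2 l m hlm, ?_⟩
  · have := norm_sub_le (e m) (e l)
    linarith [he1 m, he1 l]
  · intro i hi
    have h1 := dist_le_pi_dist (T m) (T l) ⟨i, hi⟩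
    rw [dist_eq_norm] at h1
    have h2 : T m ⟨i, hi⟩ - T l ⟨i, hi⟩ = h i (e m - e l) := by
      simp only [T, map_sub]
    rw [h2] at h1
    linarith

/-- The inductive step. -/
theorem zstep (x : ℕ → E) (H : ℕ → StrongDual 𝕜 E) (hb : ∀ i j, H i (x j) = if i = j then 1 else 0)
    {A B : ℝ} (hx : ∀ n, ‖x n‖ ≤ A) (hH : ∀ i, ‖H i‖ ≤ B)
    (hinf : ∀ s : Finset E, (Submodule.span 𝕜 (Set.range x) ⊔
      Submodule.span 𝕜 (s : Set E)).topologicalClosure ≠ ⊤)
    (k N : ℕ) (z : ℕ → E) (g : ℕ → StrongDual 𝕜 E) (hz : ∀ j < k, ‖z j‖ ≤ 7)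
    (hgx : ∀ j < k, ∀ i, g j (x i) = 0)
    (hgz : ∀ i < k, ∀ j < k, g i (z j) = if i = j then 1 else 0) :
    ∃ (p : E) (h : StrongDual 𝕜 E), ‖p‖ ≤ 7 ∧ ‖h‖ ≤ 1 ∧ (∀ i, h (x i) = 0) ∧
      (∀ j < k, h (z j) = 0) ∧ (∀ j < k, g j p = 0) ∧ h p = 1 ∧ ∀ i < N, H i p = 0 := by
  classical
  have hA : 0 ≤ A := (norm_nonneg _).trans (hx 0)
  have hB : 0 ≤ B := (norm_nonneg _).trans (hH 0)
  let V : Submodule 𝕜 E := Submodule.span 𝕜 (Set.range x) ⊔
    Submodule.span 𝕜 (((Finset.range k).image z : Finset E) : Set E)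
  have hxV : ∀ i, x i ∈ V := fun i => Submodule.mem_sup_left (Submodule.subset_span ⟨i, rfl⟩)
  have hzV : ∀ j < k, z j ∈ V := fun j hj => Submodule.mem_sup_right (Submodule.subset_span (by
    simp only [Finset.coe_image, Finset.coe_range]
    exact ⟨j, hj, rfl⟩))
  have hVinf : ∀ s : Finset E, (V ⊔ Submodule.span 𝕜 (s : Set E)).topologicalClosure ≠ ⊤ := by
    intro s
    have h1 := hinf ((Finset.range k).image z ∪ s)
    rw [Finset.coe_union, Submodule.span_union, ← sup_assoc] at h1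
    exact h1
  set D : ℝ := 7 * k + N * ((1 + 7 * k * B) * A) with hD
  have hD0 : 0 ≤ D := by positivity
  set δ : ℝ := 1 / (1 + D) with hδ
  have hδ0 : 0 < δ := by positivity
  have hδD : δ * D ≤ 1 := by
    rw [hδ, div_mul_eq_mul_div, one_mul, div_le_one (by positivity)]
    linarith
  obtain ⟨e, he1, he2, he3⟩ := exists_small_values V hVinf (N + k)
    (fun i => if i < N then H i else g (i - N)) hδ0
  have hHe : ∀ i < N, ‖H i e‖ ≤ δ := by
    intro i hi
    have := he3 i (by omega)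
    simpa [hi] using this
  have hge : ∀ j < k, ‖g j e‖ ≤ δ := by
    intro j hj
    have := he3 (N + j) (by omega)
    simpa using this
  set e' : E := e - ∑ j ∈ Finset.range k, g j e • z j with he'
  have hge' : ∀ i < k, g i e' = 0 := by
    intro i hi
    rw [he', map_sub, map_sum, Finset.sum_eq_single i]
    · rw [map_smul, hgz i hi i hi, if_pos rfl, smul_eq_mul, mul_one, sub_self]
    · intro j hj hji
      rw [map_smul, hgz i hi j (Finset.mem_range.mp hj), if_neg (fun h => hji h.symm), smul_zero]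
    · intro h
      exact absurd (Finset.mem_range.mpr hi) h
  have hne' : ‖e'‖ ≤ 6 + k * (δ * 7) := by
    rw [he']
    refine (norm_sub_le _ _).trans (add_le_add he1 ?_)
    refine (norm_sum_le _ _).trans ?_
    have h1 : ∀ j ∈ Finset.range k, ‖g j e • z j‖ ≤ δ * 7 := by
      intro j hj
      rw [norm_smul]
      exact mul_le_mul (hge j (Finset.mem_range.mp hj)) (hz j (Finset.mem_range.mp hj))
        (norm_nonneg _) hδ0.le
    refine (Finset.sum_le_sum h1).trans ?_
    rw [Finset.sum_const, Finset.card_range, nsmul_eq_mul]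
  have hHe' : ∀ i < N, ‖H i e'‖ ≤ δ + k * (δ * (B * 7)) := by
    intro i hi
    rw [he', map_sub, map_sum]
    refine (norm_sub_le _ _).trans (add_le_add (hHe i hi) ?_)
    refine (norm_sum_le _ _).trans ?_
    have h1 : ∀ j ∈ Finset.range k, ‖H i (g j e • z j)‖ ≤ δ * (B * 7) := by
      intro j hj
      rw [map_smul, norm_smul]
      have h2 : ‖H i (z j)‖ ≤ B * 7 := ((H i).le_opNorm _).trans
        (mul_le_mul (hH i) (hz j (Finset.mem_range.mp hj)) (norm_nonneg _) hB)
      exact mul_le_mul (hge j (Finset.mem_range.mp hj)) h2 (norm_nonneg _) hδ0.le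
    refine (Finset.sum_le_sum h1).trans ?_
    rw [Finset.sum_const, Finset.card_range, nsmul_eq_mul]
  set p : E := e' - ∑ i ∈ Finset.range N, H i e' • x i with hp
  have hnp : ‖p‖ ≤ 7 := by
    rw [hp]
    have h1 : ‖∑ i ∈ Finset.range N, H i e' • x i‖ ≤ N * ((δ + k * (δ * (B * 7))) * A) := by
      refine (norm_sum_le _ _).trans ?_
      have h2 : ∀ i ∈ Finset.range N, ‖H i e' • x i‖ ≤ (δ + k * (δ * (B * 7))) * A := by
        intro i hi
        rw [norm_smul]
        exact mul_le_mul (hHe' i (Finset.mem_range.mp hi)) (hx i) (norm_nonneg _) (by positivity)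
      refine (Finset.sum_le_sum h2).trans ?_
      rw [Finset.sum_const, Finset.card_range, nsmul_eq_mul]
    have h3 : ‖e' - ∑ i ∈ Finset.range N, H i e' • x i‖
        ≤ 6 + k * (δ * 7) + N * ((δ + k * (δ * (B * 7))) * A) :=
      (norm_sub_le _ _).trans (add_le_add hne' h1)
    have h4 : k * (δ * 7) + N * ((δ + k * (δ * (B * 7))) * A) = δ * D := by
      rw [hD]; ring
    linarith
  have hdist : ∀ w ∈ V, 1 ≤ ‖p - w‖ := by
    intro w hw
    have h1 : p - w = e - (∑ j ∈ Finset.range k, g j e • z j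
        + ∑ i ∈ Finset.range N, H i e' • x i + w) := by
      rw [hp, he']; abel
    rw [h1]
    apply he2
    refine Submodule.add_mem _ (Submodule.add_mem _ ?_ ?_) hw
    · exact Submodule.sum_mem _ (fun j hj => Submodule.smul_mem _ _ (hzV j (Finset.mem_range.mp hj)))
    · exact Submodule.sum_mem _ (fun i _ => Submodule.smul_mem _ _ (hxV i))
  obtain ⟨h, hh1, hh2, hh3⟩ := exists_functional_le hdist
  refine ⟨p, h, hnp, hh3, fun i => hh1 _ (hxV i), fun j hj => hh1 _ (hzV j hj), ?_, hh2, ?_⟩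
  · intro j hj
    rw [hp, map_sub, hge' j hj, map_sum, Finset.sum_eq_zero, sub_zero]
    intro i _
    rw [map_smul, hgx j hj, smul_zero]
  · intro i hi
    rw [hp, map_sub, map_sum]
    simp only [map_smul, hb, smul_eq_mul, mul_ite, mul_one, mul_zero]
    rw [Finset.sum_ite_eq, if_pos (Finset.mem_range.mpr hi), sub_self]

/-- Adding infinitely many vectors to a strictly bounded minimal sequence of infinite codimension,
keeping it strictly bounded and minimal. -/
theorem exists_zseq (x : ℕ → E) (H : ℕ → StrongDual 𝕜 E)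
    (hb : ∀ i j, H i (x j) = if i = j then 1 else 0)
    {A B : ℝ} (hx : ∀ n, ‖x n‖ ≤ A) (hH : ∀ i, ‖H i‖ ≤ B)
    (hnull : ∀ v, Tendsto (fun i => H i v) atTop (𝓝 0))
    (hinf : ∀ s : Finset E, (Submodule.span 𝕜 (Set.range x) ⊔
      Submodule.span 𝕜 (s : Set E)).topologicalClosure ≠ ⊤) :
    ∃ (z : ℕ → E) (g F : ℕ → StrongDual 𝕜 E), (∀ k, ‖z k‖ ≤ 7) ∧ (∀ k, ‖g k‖ ≤ 1) ∧
      (∀ i, ‖F i‖ ≤ 8 * B + 2) ∧ (∀ i j, F i (x j) = if i = j then 1 else 0) ∧
      (∀ i k, F i (z k) = 0) ∧ (∀ k i, g k (x i) = 0) ∧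
      (∀ k l, g k (z l) = if k = l then 1 else 0) := by
  classical
  have hB : 0 ≤ B := (norm_nonneg _).trans (hH 0)
  let R : ℕ → (ℕ → E × StrongDual 𝕜 E × ℕ) → (E × StrongDual 𝕜 E × ℕ) → Prop := fun k s a =>
    ‖a.1‖ ≤ 7 ∧ ‖a.2.1‖ ≤ 1 ∧ (∀ i, a.2.1 (x i) = 0) ∧ (∀ j < k, a.2.1 (s j).1 = 0) ∧
    (∀ j < k, (s j).2.1 a.1 = 0) ∧ a.2.1 a.1 = 1 ∧ (∀ j < k, ∀ i < (s j).2.2, H i a.1 = 0) ∧
    (∀ i, a.2.2 ≤ i → ‖H i a.1‖ ≤ (1 / 2) ^ k) ∧ k + 1 ≤ a.2.2
  obtain ⟨s, hs⟩ := exists_seq_strong R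
    (by
      intro n s t a h hRs
      simp only [R] at hRs ⊢
      obtain ⟨h1, h2, h3, h4, h5, h6, h7, h8, h9⟩ := hRs
      refine ⟨h1, h2, h3, fun j hj => ?_, fun j hj => ?_, h6, fun j hj => ?_, h8, h9⟩
      · rw [← h j hj]; exact h4 j hj
      · rw [← h j hj]; exact h5 j hj
      · rw [← h j hj]; exact h7 j hj)
    (by
      intro k s hprev
      let N' : ℕ := ∑ j ∈ Finset.range k, (s j).2.2
      obtain ⟨p, h, a1, a2, a3, a4, a5, a6, a7⟩ := zstep x H hb hx hH hinf k N' (fun j => (s j).1)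
        (fun j => (s j).2.1) (fun j hj => (hprev j hj).1) (fun j hj => (hprev j hj).2.2.1)
        (by
          intro i hi j hj
          rcases lt_trichotomy i j with hij | hij | hij
          · rw [if_neg hij.ne]
            exact (hprev j hj).2.2.2.2.1 i hij
          · subst hij
            rw [if_pos rfl]
            exact (hprev i hi).2.2.2.2.2.1
          · rw [if_neg hij.ne']
            exact (hprev i hi).2.2.2.1 j hij)
      have hev : ∀ᶠ i in atTop, ‖H i p‖ ≤ (1 / 2 : ℝ) ^ k := by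
        have := (hnull p).norm
        rw [norm_zero] at this
        exact this.eventually_le_const (by positivity)
      obtain ⟨M, hM⟩ := eventually_atTop.mp hev
      refine ⟨(p, h, max M (k + 1)), a1, a2, a3, a4, a5, a6, ?_, ?_, le_max_right _ _⟩
      · intro j hj i hi
        apply a7
        refine lt_of_lt_of_le hi ?_
        exact Finset.single_le_sum (f := fun j => (s j).2.2) (fun _ _ => Nat.zero_le _)
          (Finset.mem_range.mpr hj)
      · intro i hi
        exact hM i ((le_max_left _ _).trans hi))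
  let z : ℕ → E := fun k => (s k).1
  let g : ℕ → StrongDual 𝕜 E := fun k => (s k).2.1
  let N : ℕ → ℕ := fun k => (s k).2.2
  have hz7 : ∀ k, ‖z k‖ ≤ 7 := fun k => (hs k).1
  have hg1 : ∀ k, ‖g k‖ ≤ 1 := fun k => (hs k).2.1
  have hgx : ∀ k i, g k (x i) = 0 := fun k => (hs k).2.2.1
  have hN : ∀ k, k + 1 ≤ N k := fun k => (hs k).2.2.2.2.2.2.2.2
  have hHz0 : ∀ j k, j < k → ∀ i < N j, H i (z k) = 0 := fun j k hjk => (hs k).2.2.2.2.2.2.1 j hjk
  have hHzs : ∀ k i, N k ≤ i → ‖H i (z k)‖ ≤ (1 / 2) ^ k := fun k => (hs k).2.2.2.2.2.2.2.1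
  have hgz : ∀ k l, g k (z l) = if k = l then 1 else 0 := by
    intro i j
    rcases lt_trichotomy i j with hij | hij | hij
    · rw [if_neg hij.ne]
      exact (hs j).2.2.2.2.1 i hij
    · subst hij
      rw [if_pos rfl]
      exact (hs i).2.2.2.2.2.1
    · rw [if_neg hij.ne']
      exact (hs i).2.2.2.1 j hij
  have hHz : ∀ i k, i < k → H i (z k) = 0 := fun i k hik =>
    hHz0 i k hik i (lt_of_lt_of_le (Nat.lt_succ_self i) (hN i))
  let F : ℕ → StrongDual 𝕜 E := fun i => H i - ∑ k ∈ Finset.range (i + 1), H i (z k) • g k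
  have hF : ∀ i w, F i w = H i w - ∑ k ∈ Finset.range (i + 1), H i (z k) * g k w := by
    intro i w
    simp [F]
  refine ⟨z, g, F, hz7, hg1, ?_, ?_, ?_, hgx, hgz⟩
  · intro i
    -- the exceptional index
    have hex : ∃ K, i < N K := ⟨i, lt_of_lt_of_le (Nat.lt_succ_self i) (hN i)⟩
    let K := Nat.find hex
    have hK : i < N K := Nat.find_spec hex
    have hKmin : ∀ k < K, N k ≤ i := fun k hk => not_lt.mp (Nat.find_min hex hk)
    have hterm : ∀ k, ‖H i (z k)‖ ≤ (1 / 2) ^ k + if k = K then 7 * B else 0 := by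
      intro k
      rcases lt_trichotomy k K with h | h | h
      · rw [if_neg h.ne, add_zero]
        exact hHzs k i (hKmin k h)
      · rw [if_pos h]
        have h1 : ‖H i (z k)‖ ≤ B * 7 := ((H i).le_opNorm _).trans
          (mul_le_mul (hH i) (hz7 k) (norm_nonneg _) hB)
        have h2 : (0 : ℝ) ≤ (1 / 2) ^ k := by positivity
        linarith
      · rw [hHz0 K k h i hK, norm_zero, if_neg h.ne']
        positivity
    have hsum : ‖∑ k ∈ Finset.range (i + 1), H i (z k) • g k‖ ≤ 2 + 7 * B := by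
      refine (norm_sum_le _ _).trans ?_
      have h1 : ∀ k ∈ Finset.range (i + 1), ‖H i (z k) • g k‖
          ≤ (1 / 2) ^ k + if k = K then 7 * B else 0 := by
        intro k _
        rw [norm_smul]
        calc ‖H i (z k)‖ * ‖g k‖ ≤ ‖H i (z k)‖ * 1 :=
              mul_le_mul_of_nonneg_left (hg1 k) (norm_nonneg _)
          _ ≤ _ := by rw [mul_one]; exact hterm k
      refine (Finset.sum_le_sum h1).trans ?_
      rw [Finset.sum_add_distrib]
      have h2 : ∑ k ∈ Finset.range (i + 1), (1 / 2 : ℝ) ^ k ≤ 2 := by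
        have := Summable.sum_le_tsum (Finset.range (i + 1)) (fun k _ => by positivity)
          summable_geometric_two
        rw [tsum_geometric_two] at this
        exact this
      have h3 : ∑ k ∈ Finset.range (i + 1), (if k = K then 7 * B else 0) ≤ 7 * B := by
        rw [Finset.sum_ite_eq']
        split_ifs
        · exact le_refl _
        · positivity
      linarith
    calc ‖F i‖ ≤ ‖H i‖ + ‖∑ k ∈ Finset.range (i + 1), H i (z k) • g k‖ := norm_sub_le _ _
      _ ≤ 8 * B + 2 := by linarith [hH i]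
  · intro i j
    rw [hF, hb, Finset.sum_eq_zero, sub_zero]
    intro k _
    rw [hgx, mul_zero]
  · intro i k
    rw [hF]
    simp only [hgz, mul_ite, mul_one, mul_zero]
    rw [Finset.sum_ite_eq']
    by_cases h : k ∈ Finset.range (i + 1)
    · rw [if_pos h, sub_self]
    · rw [if_neg h, sub_zero]
      apply hHz
      simpa using h

end Pool.Agent.V11100
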