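import Mathlib
import Pool.Agent.V11100.Tools
import Pool.Agent.V11100.Mixing
import Pool.Agent.V11100.Zseq

open Filter Topology

namespace Pool.Agent.V11100

variable {𝕜 : Type*} [RCLike 𝕜] {E : Type*} [NormedAddCommGroup E] [NormedSpace 𝕜 E]

/-- Bilinear vanishing on spans. -/
theorem pair_zero {Φ : Set (StrongDual 𝕜 E)} {S : Set E} (h : ∀ φ ∈ Φ, ∀ v ∈ S, φ v = 0)
    {φ : StrongDual 𝕜 E} (hφ : φ ∈ Submodule.span 𝕜 Φ) {v : E} (hv : v ∈ Submodule.span 𝕜 S) :
    φ v = 0 := by
  have h1 : ∀ φ ∈ Φ, ∀ v ∈ Submodule.span 𝕜 S, φ v = 0 := by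
    intro φ hφ v hv
    induction hv using Submodule.span_induction with
    | mem v hv => exact h φ hφ v hv
    | zero => exact map_zero φ
    | add a b _ _ ha hb => rw [map_add, ha, hb, add_zero]
    | smul c a _ ha => rw [map_smul, ha, smul_zero]
  induction hφ using Submodule.span_induction with
  | mem φ hφ => exact h1 φ hφ v hv
  | zero => rfl
  | add a b _ _ ha hb => rw [add_apply, ha, hb, add_zero]
  | smul c a _ ha => rw [smul_apply, ha, smul_zero]

/-- Finite codimension case. -/
theorem complete_finite [TopologicalSpace.SeparableSpace E] (x : ℕ → E) (F : ℕ → StrongDual 𝕜 E)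
    (hb : ∀ i j, F i (x j) = if i = j then 1 else 0) {A B : ℝ} (hx : ∀ n, ‖x n‖ ≤ A)
    (hF : ∀ n, ‖F n‖ ≤ B) (s : Finset E)
    (hs : (Submodule.span 𝕜 (Set.range x) ⊔ Submodule.span 𝕜 (s : Set E)).topologicalClosure = ⊤) :
    ∃ (ι : Type) (_ : Countable ι) (y : ι → E) (C D : ℝ) (g : ℕ ⊕ ι → StrongDual 𝕜 E),
      (∀ i j, (i = j → g i (Sum.elim x y j) = 1) ∧ (i ≠ j → g i (Sum.elim x y j) = 0)) ∧
      (∀ i, ‖Sum.elim x y i‖ ≤ C ∧ ‖g i‖ ≤ D) ∧
      (Submodule.span 𝕜 (Set.range (Sum.elim x y))).topologicalClosure = ⊤ := by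
  classical
  obtain ⟨f, y, g, h1, h2, h3, h4, h5, h6, h7, h8⟩ :=
    completion x F hb hF (fun n => (s.toList[n]?).getD 0)
  have hy0 : ∀ j, s.card ≤ j → y j = 0 := by
    intro j hj
    apply h8
    rw [List.getElem?_eq_none (by simpa using hj)]
    rfl
  let T : ℝ := ∑ j ∈ Finset.range s.card, (‖y j‖ + ‖g j‖)
  have hT : ∀ j, y j ≠ 0 → ‖y j‖ ≤ T ∧ ‖g j‖ ≤ T := by
    intro j hj
    have hjs : j < s.card := by
      by_contra hcon
      exact hj (hy0 j (not_lt.mp hcon))
    have h9 : ‖y j‖ + ‖g j‖ ≤ T := Finset.single_le_sum (f := fun j => ‖y j‖ + ‖g j‖)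
      (fun _ _ => by positivity) (Finset.mem_range.mpr hjs)
    have := norm_nonneg (y j)
    have := norm_nonneg (g j)
    exact ⟨by linarith, by linarith⟩
  refine ⟨{j : ℕ // y j ≠ 0}, inferInstance, fun j => y j, max A T, max (2 * B + 1) T,
    Sum.elim f (fun j => g j), ?_, ?_, ?_⟩
  · rintro (i | i) (j | j)
    · simp only [Sum.elim_inl, Sum.inl.injEq, ne_eq, h2]
      constructor
      · intro h; rw [if_pos h]
      · intro h; rw [if_neg h]
    · simp only [Sum.elim_inl, Sum.elim_inr, h3]
      simp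
    · simp only [Sum.elim_inl, Sum.elim_inr, h4]
      simp
    · simp only [Sum.elim_inr, Sum.inr.injEq, ne_eq]
      constructor
      · rintro rfl
        exact (h6 i).resolve_left i.2
      · intro h
        exact h5 _ _ (fun h' => h (Subtype.ext h'))
  · rintro (i | i)
    · exact ⟨(hx i).trans (le_max_left _ _), (h1 i).trans (le_max_left _ _)⟩
    · exact ⟨(hT i i.2).1.trans (le_max_right _ _), (hT i i.2).2.trans (le_max_right _ _)⟩
  · rw [eq_top_iff, ← hs]
    set Z := (Submodule.span 𝕜 (Set.range (Sum.elim x (fun j : {j : ℕ // y j ≠ 0} => y j)))) with hZ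
    have hxZ : Submodule.span 𝕜 (Set.range x) ≤ Z := by
      rw [Submodule.span_le]
      rintro _ ⟨i, rfl⟩
      exact Submodule.subset_span ⟨Sum.inl i, rfl⟩
    have hyZ : Submodule.span 𝕜 (Set.range y) ≤ Z := by
      rw [Submodule.span_le]
      rintro _ ⟨j, rfl⟩
      by_cases hj : y j = 0
      · rw [hj]; exact Submodule.zero_mem _
      · exact Submodule.subset_span ⟨Sum.inr ⟨j, hj⟩, rfl⟩
    apply Submodule.topologicalClosure_minimal _ _ (Submodule.isClosed_topologicalClosure _)
    apply sup_le (hxZ.trans (Submodule.le_topologicalClosure _))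
    rw [Submodule.span_le]
    intro a ha
    have ha' : a ∈ s.toList := by simpa using ha
    obtain ⟨n, hn, hna⟩ := List.getElem_of_mem ha'
    have h9 := h7 n
    rw [List.getElem?_eq_getElem hn] at h9
    have h10 : (s.toList[n]'hn) ∈ (Submodule.span 𝕜 (Set.range x) ⊔
      Submodule.span 𝕜 (Set.range y)).topologicalClosure := h9
    rw [hna] at h10
    exact Submodule.topologicalClosure_mono (sup_le hxZ hyZ) h10

/-- Infinite codimension case. -/
theorem complete_infinite [TopologicalSpace.SeparableSpace E] (x : ℕ → E)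
    (F0 : ℕ → StrongDual 𝕜 E) (hb0 : ∀ i j, F0 i (x j) = if i = j then 1 else 0) {A B : ℝ}
    (hx : ∀ n, ‖x n‖ ≤ A) (hF0 : ∀ n, ‖F0 n‖ ≤ B)
    (hinf : ∀ s : Finset E, (Submodule.span 𝕜 (Set.range x) ⊔
      Submodule.span 𝕜 (s : Set E)).topologicalClosure ≠ ⊤) :
    ∃ (ι : Type) (_ : Countable ι) (y : ι → E) (C D : ℝ) (g : ℕ ⊕ ι → StrongDual 𝕜 E),
      (∀ i j, (i = j → g i (Sum.elim x y j) = 1) ∧ (i ≠ j → g i (Sum.elim x y j) = 0)) ∧
      (∀ i, ‖Sum.elim x y i‖ ≤ C ∧ ‖g i‖ ≤ D) ∧
      (Submodule.span 𝕜 (Set.range (Sum.elim x y))).topologicalClosure = ⊤ := by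
  classical
  have hB : 0 ≤ B := (norm_nonneg _).trans (hF0 0)
  set X := (Submodule.span 𝕜 (Set.range x)).topologicalClosure with hX
  have hxX : ∀ j, x j ∈ X := fun j =>
    Submodule.le_topologicalClosure _ (Submodule.subset_span ⟨j, rfl⟩)
  obtain ⟨G, hG1, hG2, hG3⟩ := veech X F0 hF0 (tendsto_on_span x F0 hb0 hF0)
  obtain ⟨z, g, F, z1, z2, z3, z4, z5, z6, z7⟩ := exists_zseq x (fun i => F0 i - G i)
    (by
      intro i j
      rw [sub_apply, hG2 i _ (hxX j), sub_zero, hb0])
    hx (B := 2 * B) (fun i => (norm_sub_le _ _).trans (by linarith [hF0 i, hG1 i])) hG3 hinf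
  -- the combined system
  let e : ℕ ≃ ℕ ⊕ ℕ := Equiv.natSumNatEquivNat.symm
  let u : ℕ → E := fun n => Sum.elim x z (e n)
  let Fu : ℕ → StrongDual 𝕜 E := fun n => Sum.elim F g (e n)
  have hpair : ∀ a b : ℕ ⊕ ℕ, (Sum.elim F g a) (Sum.elim x z b) = if a = b then 1 else 0 := by
    rintro (a | a) (b | b)
    · simp [z4]
    · simp [z5]
    · simp [z6]
    · simp [z7]
  have hub : ∀ i j, Fu i (u j) = if i = j then 1 else 0 := by
    intro i j
    simp only [Fu, u]
    rw [hpair]
    simp
  have hFun : ∀ i, ‖Fu i‖ ≤ 16 * B + 2 := by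
    intro i
    simp only [Fu]
    rcases e i with a | a
    · have := z3 a
      simp only [Sum.elim_inl]
      linarith
    · have := z2 a
      simp only [Sum.elim_inr]
      linarith
  obtain ⟨f, y, gy, h1, h2, h3, h4, h5, h6, h7, _⟩ :=
    completion u Fu hub hFun (TopologicalSpace.denseSeq E)
  -- new names
  let fx : ℕ → StrongDual 𝕜 E := fun n => f (e.symm (Sum.inl n))
  let fz : ℕ → StrongDual 𝕜 E := fun k => f (e.symm (Sum.inr k))
  have hux : ∀ n, x n = u (e.symm (Sum.inl n)) := fun n => by simp [u]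
  have huz : ∀ k, z k = u (e.symm (Sum.inr k)) := fun k => by simp [u]
  have hfxx : ∀ i j, fx i (x j) = if i = j then 1 else 0 := by
    intro i j
    rw [hux j]
    simp only [fx, h2]
    simp
  have hfxz : ∀ i k, fx i (z k) = 0 := by
    intro i k
    rw [huz k]
    simp only [fx, h2]
    simp
  have hfzx : ∀ k j, fz k (x j) = 0 := by
    intro k j
    rw [hux j]
    simp only [fz, h2]
    simp
  have hfzz : ∀ k l, fz k (z l) = if k = l then 1 else 0 := by
    intro k l
    rw [huz l]
    simp only [fz, h2]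
    simp
  have hfxy : ∀ i j, fx i (y j) = 0 := fun i j => h3 _ _
  have hfzy : ∀ k j, fz k (y j) = 0 := fun k j => h3 _ _
  have hgyx : ∀ i j, gy i (x j) = 0 := fun i j => by rw [hux j]; exact h4 _ _
  have hgyz : ∀ i k, gy i (z k) = 0 := fun i k => by rw [huz k]; exact h4 _ _
  set M : ℝ := max 7 (2 * (16 * B + 2) + 1) with hM
  have hM0 : 0 ≤ M := le_trans (by norm_num) (le_max_left _ _)
  have hzM : ∀ k, ‖z k‖ ≤ M := fun k => (z1 k).trans (le_max_left _ _)
  have hfM : ∀ i, ‖f i‖ ≤ M := fun i => (h1 i).trans (le_max_right _ _)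
  -- mixing, one row at a time
  have hrow : ∀ j : ℕ, ∃ (w : ℕ → E) (ws : ℕ → StrongDual 𝕜 E),
      (∀ i l, ws i (w l) = if i = l then 1 else 0) ∧ (∀ i, ‖w i‖ ≤ 1 + 3 * M) ∧
      (∀ i, ‖ws i‖ ≤ 1 + 3 * M) ∧
      (∀ i, w i ∈ Submodule.span 𝕜 ({y j} ∪ Set.range (fun k => z (Nat.pair j k)))) ∧
      (∀ i, ws i ∈ Submodule.span 𝕜 ({gy j} ∪ Set.range (fun k => fz (Nat.pair j k)))) ∧
      y j ∈ Submodule.span 𝕜 (Set.range w) ∧
      ∀ k, z (Nat.pair j k) ∈ Submodule.span 𝕜 (Set.range w) := by
    intro j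
    rcases h6 j with hy | hy
    · refine ⟨fun k => z (Nat.pair j k), fun k => fz (Nat.pair j k), ?_, ?_, ?_, ?_, ?_, ?_, ?_⟩
      · intro i l
        rw [hfzz]
        simp [Nat.pair_eq_pair]
      · intro i
        linarith [hzM (Nat.pair j i)]
      · intro i
        have : ‖fz (Nat.pair j i)‖ ≤ M := hfM _
        linarith
      · intro i
        exact Submodule.subset_span (Or.inr ⟨i, rfl⟩)
      · intro i
        exact Submodule.subset_span (Or.inr ⟨i, rfl⟩)
      · rw [hy]; exact Submodule.zero_mem _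
      · intro k
        exact Submodule.subset_span ⟨k, rfl⟩
    · let w0 : ℕ → E := fun n => Nat.casesOn n (y j) (fun k => z (Nat.pair j k))
      let ws0 : ℕ → StrongDual 𝕜 E := fun n => Nat.casesOn n (gy j) (fun k => fz (Nat.pair j k))
      have hb : ∀ i l, ws0 i (w0 l) = if i = l then 1 else 0 := by
        intro i l
        rcases i with _ | i <;> rcases l with _ | l
        · show gy j (y j) = _
          simp [hy]
        · show gy j (z _) = _
          rw [hgyz]; simp
        · show fz _ (y j) = _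
          rw [hfzy]; simp
        · show fz _ (z _) = _
          rw [hfzz]
          simp [Nat.pair_eq_pair]
      obtain ⟨w, ws, m1, m2, m3, m4, m5⟩ := mixing w0 ws0 hb hM0
        (by
          intro l hl
          rcases l with _ | l
          · omega
          · exact hzM _)
        (by
          intro l hl
          rcases l with _ | l
          · omega
          · exact hfM _)
      have hw0 : Submodule.span 𝕜 (Set.range w0)
          ≤ Submodule.span 𝕜 ({y j} ∪ Set.range (fun k => z (Nat.pair j k))) := by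
        apply Submodule.span_mono
        rintro _ ⟨n, rfl⟩
        rcases n with _ | n
        · exact Or.inl rfl
        · exact Or.inr ⟨n, rfl⟩
      have hws0 : Submodule.span 𝕜 (Set.range ws0)
          ≤ Submodule.span 𝕜 ({gy j} ∪ Set.range (fun k => fz (Nat.pair j k))) := by
        apply Submodule.span_mono
        rintro _ ⟨n, rfl⟩
        rcases n with _ | n
        · exact Or.inl rfl
        · exact Or.inr ⟨n, rfl⟩
      refine ⟨w, ws, m1, m2, m3, ?_, ?_, ?_, ?_⟩
      · intro i
        apply hw0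
        rw [← m4]
        exact Submodule.subset_span ⟨i, rfl⟩
      · intro i
        apply hws0
        rw [← m5]
        exact Submodule.subset_span ⟨i, rfl⟩
      · rw [m4]
        exact Submodule.subset_span ⟨0, rfl⟩
      · intro k
        rw [m4]
        exact Submodule.subset_span ⟨k + 1, rfl⟩
  choose w ws r1 r2 r3 r4 r5 r6 r7 using hrow
  have hM1 : 1 + 3 * M ≤ max A (1 + 3 * M) := le_max_right _ _
  refine ⟨ℕ × ℕ, inferInstance, fun p => w p.1 p.2, max A (1 + 3 * M), max M (1 + 3 * M),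
    Sum.elim fx (fun p => ws p.1 p.2), ?_, ?_, ?_⟩
  · rintro (i | ⟨i, i'⟩) (j | ⟨j, j'⟩)
    · simp only [Sum.elim_inl, Sum.inl.injEq, ne_eq, hfxx]
      constructor
      · intro h; rw [if_pos h]
      · intro h; rw [if_neg h]
    · simp only [Sum.elim_inl, Sum.elim_inr]
      have : fx i (w j j') = 0 := by
        refine pair_zero (Φ := {fx i}) (S := {y j} ∪ Set.range (fun k => z (Nat.pair j k))) ?_
          (Submodule.subset_span rfl) (r4 j j')
        rintro φ rfl v (rfl | ⟨k, rfl⟩)
        · exact hfxy i j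
        · exact hfxz i _
      rw [this]
      simp
    · simp only [Sum.elim_inl, Sum.elim_inr]
      have : ws i i' (x j) = 0 := by
        refine pair_zero (Φ := {gy i} ∪ Set.range (fun k => fz (Nat.pair i k))) (S := {x j}) ?_
          (r5 i i') (Submodule.subset_span rfl)
        rintro φ (rfl | ⟨k, rfl⟩) v rfl
        · exact hgyx i j
        · exact hfzx _ j
      rw [this]
      simp
    · simp only [Sum.elim_inr, Sum.inr.injEq, ne_eq, Prod.mk.injEq]
      by_cases hij : i = j
      · subst hij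
        rw [r1]
        constructor
        · rintro ⟨_, h⟩; rw [if_pos h]
        · intro h
          rw [if_neg]
          intro h'
          exact h ⟨rfl, h'⟩
      · have : ws i i' (w j j') = 0 := by
          refine pair_zero (Φ := {gy i} ∪ Set.range (fun k => fz (Nat.pair i k)))
            (S := {y j} ∪ Set.range (fun k => z (Nat.pair j k))) ?_ (r5 i i') (r4 j j')
          rintro φ (rfl | ⟨k, rfl⟩) v (rfl | ⟨l, rfl⟩)
          · exact h5 i j hij
          · exact hgyz i _
          · exact hfzy _ j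
          · show fz _ (z _) = 0
            rw [hfzz, if_neg]
            rw [Nat.pair_eq_pair]
            rintro ⟨h, _⟩
            exact hij h
        rw [this]
        constructor
        · rintro ⟨h, _⟩
          exact absurd h hij
        · intro _; rfl
  · rintro (i | ⟨i, i'⟩)
    · exact ⟨(hx i).trans (le_max_left _ _), (hfM _).trans (le_max_left _ _)⟩
    · exact ⟨(r2 i i').trans (le_max_right _ _), (r3 i i').trans (le_max_right _ _)⟩
  · set Z := Submodule.span 𝕜 (Set.range (Sum.elim x (fun p : ℕ × ℕ => w p.1 p.2))) with hZ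
    have hxZ : ∀ n, x n ∈ Z := fun n => Submodule.subset_span ⟨Sum.inl n, rfl⟩
    have hwZ : ∀ j, Submodule.span 𝕜 (Set.range (w j)) ≤ Z := by
      intro j
      apply Submodule.span_mono
      rintro _ ⟨k, rfl⟩
      exact ⟨Sum.inr (j, k), rfl⟩
    have hzZ : ∀ k, z k ∈ Z := by
      intro k
      have := r7 k.unpair.1 k.unpair.2
      rw [Nat.pair_unpair] at this
      exact hwZ _ this
    have hyZ : ∀ j, y j ∈ Z := fun j => hwZ j (r6 j)
    have huZ : ∀ n, u n ∈ Z := by
      intro n
      simp only [u]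
      rcases e n with a | a
      · exact hxZ a
      · exact hzZ a
    have h8 : (Submodule.span 𝕜 (Set.range u) ⊔ Submodule.span 𝕜 (Set.range y)).topologicalClosure
        ≤ Z.topologicalClosure := by
      apply Submodule.topologicalClosure_mono
      apply sup_le
      · rw [Submodule.span_le]
        rintro _ ⟨n, rfl⟩
        exact huZ n
      · rw [Submodule.span_le]
        rintro _ ⟨n, rfl⟩
        exact hyZ n
    rw [eq_top_iff]
    rintro v -
    have h9 : Set.range (TopologicalSpace.denseSeq E) ⊆ (Z.topologicalClosure : Set E) := by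
      rintro _ ⟨n, rfl⟩
      exact h8 (h7 n)
    have h10 := (TopologicalSpace.denseRange_denseSeq E).mono h9
    have h11 : v ∈ closure (Z.topologicalClosure : Set E) := h10 v
    rwa [(Submodule.isClosed_topologicalClosure Z).closure_eq] at h11

/-- Every strictly bounded minimal sequence extends to a complete one. -/
theorem complete_extension [TopologicalSpace.SeparableSpace E] (x : ℕ → E)
    (F : ℕ → StrongDual 𝕜 E) (hb : ∀ i j, F i (x j) = if i = j then 1 else 0) {A B : ℝ}
    (hx : ∀ n, ‖x n‖ ≤ A) (hF : ∀ n, ‖F n‖ ≤ B) :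
    ∃ (ι : Type) (_ : Countable ι) (y : ι → E) (C D : ℝ) (g : ℕ ⊕ ι → StrongDual 𝕜 E),
      (∀ i j, (i = j → g i (Sum.elim x y j) = 1) ∧ (i ≠ j → g i (Sum.elim x y j) = 0)) ∧
      (∀ i, ‖Sum.elim x y i‖ ≤ C ∧ ‖g i‖ ≤ D) ∧
      (Submodule.span 𝕜 (Set.range (Sum.elim x y))).topologicalClosure = ⊤ := by
  by_cases h : ∃ s : Finset E, (Submodule.span 𝕜 (Set.range x) ⊔
      Submodule.span 𝕜 (s : Set E)).topologicalClosure = ⊤
  · obtain ⟨s, hs⟩ := h
    exact complete_finite x F hb hx hF s hs
  · push Not at h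
    exact complete_infinite x F hb hx hF h

end Pool.Agent.V11100
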